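import Pool.Agent.Frb.Cb

/-! Integral vectors with the Gram matrix `δ + m`. Modules CMB (`Cmb_main`), CHA, CHB, CHC
(`Chn_main`). -/

set_option autoImplicit false

namespace Pool.Agent.KBD

open Classical

/-- An integral vector of norm one on a finite set of coordinates. -/
private lemma cmb_unit {X : Type} (s : Finset X) (f : X → ℤ) (h : ∑ y ∈ s, f y * f y = 1) :
    ∃ x ∈ s, (f x = 1 ∨ f x = -1) ∧ ∀ y ∈ s, y ≠ x → f y = 0 := by
  have hne : ∃ x ∈ s, f x ≠ 0 := by
    by_contra hcon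
    have h0 : ∀ x ∈ s, f x = 0 := by
      intro x hx
      by_contra hx0
      exact hcon ⟨x, hx, hx0⟩
    have : ∑ y ∈ s, f y * f y = 0 := Finset.sum_eq_zero fun y hy => by rw [h0 y hy, mul_zero]
    rw [this] at h
    exact absurd h (by norm_num)
  obtain ⟨x, hx, hx0⟩ := hne
  have h1 : ∑ y ∈ s, f y * f y = f x * f x + ∑ y ∈ s.erase x, f y * f y :=
    (Finset.add_sum_erase s (fun y => f y * f y) hx).symm
  have hnn : ∀ y ∈ s.erase x, 0 ≤ f y * f y := fun y _ => mul_self_nonneg _
  have hnn2 : 0 ≤ ∑ y ∈ s.erase x, f y * f y := Finset.sum_nonneg hnn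
  have hpos : 0 < f x * f x := mul_self_pos.mpr hx0
  have hx1 : f x * f x = 1 := by omega
  have hrest : ∑ y ∈ s.erase x, f y * f y = 0 := by omega
  refine ⟨x, hx, mul_self_eq_one_iff.mp hx1, ?_⟩
  intro y hy hyx
  have := (Finset.sum_eq_zero_iff_of_nonneg hnn).mp hrest y (Finset.mem_erase.mpr ⟨hyx, hy⟩)
  exact mul_self_eq_zero.mp this

/-- MODULE CMB. `t = card ι`. PROOF. If there is only one index `i`: take any `x₀` with... (`X` is not empty
because the norm of `h i` is `1 + m > 0`), `μ i = x₀`, `σ i = 1`, `β = h i x₀ - 1`, `x = h i`. Otherwise fix `i₀`, let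
`G i = h i - h i₀` (`i ≠ i₀`): norm 2, mutual inner products 1, `(h i₀, G i) = -1`. A triangle
`G i + G j - G k = 2 ε x` would give `-1 = 2 ε (h i₀) x`, impossible; so by `Pool.Agent.Frb.comb_one` (index type
`{i // i ≠ i₀}`) there are `c`, `ε` with `G i c = ε` for all `i ≠ i₀`; `G i` has norm 2, so it has exactly one more
nonzero coordinate, `δ_i` at `x_i ≠ c`; the `x_i` are different (inner product one). Put `μ i₀ = c`, `σ i₀ = -ε`,
`μ i = x_i`, `σ i = δ_i`. `(h i₀, G i) = -1` says `ε (h i₀ c) + δ_i (h i₀ x_i) = -1`. Let `1 + β = - ε (h i₀ c)`, i.e.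
`h i₀ c = σ i₀ (1 + β)`; then `δ_i (h i₀ x_i) = -1 + (1 + β) = β`, `h i₀ x_i = σ i β`. For `i ≠ i₀`: `h i = h i₀ + G i`, so
`h i c = σ i₀ (1 + β) + ε = σ i₀ β`, `h i x_i = σ i β + σ i`, `h i x_j = σ j β` for `j ≠ i`, `h i = h i₀` outside of the range
of `μ`; there `h i₀ y ≠ 0` by `hs`. `1 + β t ≠ 0` as `t ≥ 2`. -/
theorem Cmb_main {X ι : Type} [Fintype X] [Fintype ι] [Nonempty ι] (h : ι → X → ℤ) (m : ℕ)
    (hg : ∀ i j, ∑ x, h i x * h j x = (if i = j then 1 else 0) + (m : ℤ))
    (hs : ∀ x, ∃ i, h i x ≠ 0) :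
    ∃ (μ : ι → X) (σ : ι → ℤ) (β : ℤ) (x : X → ℤ), Function.Injective μ ∧
      (∀ i, σ i = 1 ∨ σ i = -1) ∧ 1 + β * (Fintype.card ι : ℤ) ≠ 0 ∧
      (∀ y, y ∉ Set.range μ → x y ≠ 0) ∧
      (∀ i j, h i (μ j) = σ j * (β + if i = j then 1 else 0)) ∧
      ∀ i y, y ∉ Set.range μ → h i y = x y := by
  obtain ⟨i₀⟩ := (inferInstance : Nonempty ι)
  by_cases hone : ∀ i, i = i₀
  · have hn := hg i₀ i₀
    have hne : ∃ x₀, h i₀ x₀ ≠ 0 := by
      by_contra hcon
      have h0 : ∀ x, h i₀ x = 0 := by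
        intro x
        by_contra hx0
        exact hcon ⟨x, hx0⟩
      have hz : ∑ x, h i₀ x * h i₀ x = 0 := Finset.sum_eq_zero fun y _ => by rw [h0 y, mul_zero]
      rw [hz, if_pos rfl] at hn
      omega
    obtain ⟨x₀, hx₀⟩ := hne
    have hcard : Fintype.card ι = 1 := Fintype.card_eq_one_iff.mpr ⟨i₀, hone⟩
    refine ⟨fun _ => x₀, fun _ => 1, h i₀ x₀ - 1, h i₀, ?_, fun _ => Or.inl rfl, ?_, ?_, ?_, ?_⟩
    · intro i j _
      rw [hone i, hone j]
    · rw [hcard]
      intro hc
      apply hx₀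
      push_cast at hc
      linarith
    · intro y _
      obtain ⟨i, hi⟩ := hs y
      rw [hone i] at hi
      exact hi
    · intro i j
      rw [if_pos (by rw [hone i, hone j]), hone i]
      ring
    · intro i y _
      rw [hone i]
  · have hex : ∃ i₁, i₁ ≠ i₀ := by
      by_contra hcon
      apply hone
      intro i
      by_contra hi
      exact hcon ⟨i, hi⟩
    obtain ⟨i₁, hi₁⟩ := hex
    have hJ : Nonempty {i // i ≠ i₀} := ⟨⟨i₁, hi₁⟩⟩
    let G : ι → X → ℤ := fun i y => h i y - h i₀ y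
    have hGdef : ∀ i y, G i y = h i y - h i₀ y := fun i y => rfl
    have hGG : ∀ i j, i ≠ i₀ → j ≠ i₀ → ∑ y, G i y * G j y = (if i = j then 1 else 0) + 1 := by
      intro i j hi hj
      have hsum : ∑ y, G i y * G j y = ∑ y, h i y * h j y - ∑ y, h i y * h i₀ y
          - ∑ y, h i₀ y * h j y + ∑ y, h i₀ y * h i₀ y := by
        rw [← Finset.sum_sub_distrib, ← Finset.sum_sub_distrib, ← Finset.sum_add_distrib]
        refine Finset.sum_congr rfl fun y _ => ?_
        rw [hGdef, hGdef]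
        ring
      rw [hsum, hg i j, hg i i₀, hg i₀ j, hg i₀ i₀, if_neg hi,
        if_neg (show ¬ (i₀ = j) from fun e => hj e.symm), if_pos rfl]
      ring
    have hG0 : ∀ i, i ≠ i₀ → ∑ y, h i₀ y * G i y = -1 := by
      intro i hi
      have hsum : ∑ y, h i₀ y * G i y = ∑ y, h i₀ y * h i y - ∑ y, h i₀ y * h i₀ y := by
        rw [← Finset.sum_sub_distrib]
        refine Finset.sum_congr rfl fun y _ => ?_
        rw [hGdef]
        ring
      rw [hsum, hg, hg, if_neg (fun e => hi e.symm), if_pos rfl]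
      ring
    obtain ⟨c, ε, hε, hc⟩ := Pool.Agent.Frb.comb_one (ι := {i // i ≠ i₀})
      (fun i y => G i.1 y) (by
        intro i j
        have := hGG i.1 j.1 i.2 j.2
        rw [this]
        by_cases hij : i = j
        · rw [if_pos hij, if_pos (congrArg Subtype.val hij)]
        · rw [if_neg hij, if_neg (fun e => hij (Subtype.ext e))]) (by
        rintro i j k _ _ _ ⟨x, ε, _, hy⟩
        have h1 : ∑ y, h i₀ y * (G i.1 y + G j.1 y - G k.1 y) = h i₀ x * (2 * ε) := by
          have : ∀ y ∈ Finset.univ, h i₀ y * (G i.1 y + G j.1 y - G k.1 y)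
              = if y = x then h i₀ x * (2 * ε) else 0 := by
            intro y _
            rw [hy y]
            by_cases hyx : y = x
            · rw [if_pos hyx, if_pos hyx, hyx]
            · rw [if_neg hyx, if_neg hyx, mul_zero]
          rw [Finset.sum_congr rfl this, Finset.sum_ite_eq' Finset.univ x, if_pos (Finset.mem_univ _)]
        have h2 : ∑ y, h i₀ y * (G i.1 y + G j.1 y - G k.1 y) = -1 := by
          have : ∑ y, h i₀ y * (G i.1 y + G j.1 y - G k.1 y)
              = ∑ y, h i₀ y * G i.1 y + ∑ y, h i₀ y * G j.1 y - ∑ y, h i₀ y * G k.1 y := by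
            rw [← Finset.sum_add_distrib, ← Finset.sum_sub_distrib]
            refine Finset.sum_congr rfl fun y _ => ?_
            ring
          rw [this, hG0 _ i.2, hG0 _ j.2, hG0 _ k.2]
          norm_num
        rw [h1] at h2
        have h3 : (2 : ℤ) ∣ -1 := ⟨h i₀ x * ε, by rw [← h2]; ring⟩
        exact absurd h3 (by decide))
    have hcc : ∀ i, i ≠ i₀ → G i c = ε := fun i hi => hc ⟨i, hi⟩
    have hεε : ε * ε = 1 := by rcases hε with e | e <;> rw [e] <;> norm_num
    have hunit : ∀ i, ∃ x : X, ∃ δ : ℤ, i ≠ i₀ → (x ≠ c ∧ (δ = 1 ∨ δ = -1) ∧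
        ∀ y, G i y = (if y = c then ε else 0) + if y = x then δ else 0) := by
      intro i
      by_cases hi : i = i₀
      · exact ⟨c, 1, fun hne => absurd hi hne⟩
      · have hn := hGG i i hi hi
        rw [if_pos rfl, ← Finset.add_sum_erase Finset.univ (fun y => G i y * G i y)
          (Finset.mem_univ c), hcc i hi, hεε] at hn
        obtain ⟨x, hx, hδ, hz⟩ := cmb_unit (Finset.univ.erase c) (G i) (by linarith)
        have hxc : x ≠ c := (Finset.mem_erase.mp hx).1
        refine ⟨x, G i x, fun _ => ⟨hxc, hδ, ?_⟩⟩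
        intro y
        by_cases hyc : y = c
        · rw [if_pos hyc, hyc, if_neg (fun e => hxc e.symm), add_zero, hcc i hi]
        · rw [if_neg hyc, zero_add]
          by_cases hyx : y = x
          · rw [if_pos hyx, hyx]
          · rw [if_neg hyx]
            exact hz y (Finset.mem_erase.mpr ⟨hyc, Finset.mem_univ _⟩) hyx
    choose xx δ hxδ using hunit
    have hpair : ∀ i, i ≠ i₀ → ∀ f : X → ℤ, ∑ y, f y * G i y = f c * ε + f (xx i) * δ i := by
      intro i hi f
      have : ∀ y ∈ Finset.univ, f y * G i y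
          = (if y = c then f c * ε else 0) + if y = xx i then f (xx i) * δ i else 0 := by
        intro y _
        rw [(hxδ i hi).2.2 y, mul_add]
        congr 1
        · by_cases hyc : y = c
          · rw [if_pos hyc, if_pos hyc, hyc]
          · rw [if_neg hyc, if_neg hyc, mul_zero]
        · by_cases hyc : y = xx i
          · rw [if_pos hyc, if_pos hyc, hyc]
          · rw [if_neg hyc, if_neg hyc, mul_zero]
      rw [Finset.sum_congr rfl this, Finset.sum_add_distrib, Finset.sum_ite_eq' Finset.univ c,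
        Finset.sum_ite_eq' Finset.univ (xx i), if_pos (Finset.mem_univ _),
        if_pos (Finset.mem_univ _)]
    have hδδ : ∀ i, i ≠ i₀ → δ i * δ i = 1 := by
      intro i hi
      rcases (hxδ i hi).2.1 with e | e <;> rw [e] <;> norm_num
    have hδ0 : ∀ i, i ≠ i₀ → δ i ≠ 0 := by
      intro i hi
      rcases (hxδ i hi).2.1 with e | e <;> rw [e] <;> norm_num
    have hinj : ∀ i j, i ≠ i₀ → j ≠ i₀ → i ≠ j → xx i ≠ xx j := by
      intro i j hi hj hij hx
      have h1 := hGG i j hi hj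
      rw [if_neg hij, hpair j hj, hcc i hi, hεε, ← hx, (hxδ i hi).2.2 (xx i),
        if_neg (hxδ i hi).1, if_pos rfl] at h1
      have h2 : δ i * δ j = 0 := by linarith
      rcases mul_eq_zero.mp h2 with e | e
      · exact hδ0 i hi e
      · exact hδ0 j hj e
    have hβ : ∀ i, i ≠ i₀ → h i₀ (xx i) = δ i * (-(ε * h i₀ c) - 1) := by
      intro i hi
      have h1 := hG0 i hi
      rw [hpair i hi] at h1
      have h2 : h i₀ (xx i) * δ i = -(ε * h i₀ c) - 1 := by linarith
      rw [← h2]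
      have := hδδ i hi
      calc h i₀ (xx i) = h i₀ (xx i) * (δ i * δ i) := by rw [this, mul_one]
        _ = δ i * (h i₀ (xx i) * δ i) := by ring
    refine ⟨fun i => if i = i₀ then c else xx i, fun i => if i = i₀ then -ε else δ i,
      -(ε * h i₀ c) - 1, h i₀, ?_, ?_, ?_, ?_, ?_, ?_⟩
    · intro i j hij
      by_contra hne
      have hij' : (if i = i₀ then c else xx i) = if j = i₀ then c else xx j := hij
      by_cases hi : i = i₀
      · rw [if_pos hi] at hij'
        by_cases hj : j = i₀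
        · exact hne (hi.trans hj.symm)
        · rw [if_neg hj] at hij'
          exact (hxδ j hj).1 hij'.symm
      · rw [if_neg hi] at hij'
        by_cases hj : j = i₀
        · rw [if_pos hj] at hij'
          exact (hxδ i hi).1 hij'
        · rw [if_neg hj] at hij'
          exact hinj i j hi hj hne hij'
    · intro i
      by_cases hi : i = i₀
      · have : (if i = i₀ then -ε else δ i) = -ε := if_pos hi
        show (if i = i₀ then -ε else δ i) = 1 ∨ (if i = i₀ then -ε else δ i) = -1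
        rw [this]
        rcases hε with e | e
        · right; rw [e]
        · left; rw [e]; norm_num
      · show (if i = i₀ then -ε else δ i) = 1 ∨ (if i = i₀ then -ε else δ i) = -1
        rw [if_neg hi]
        exact (hxδ i hi).2.1
    · intro hz
      have hcard : 1 < Fintype.card ι := Fintype.one_lt_card_iff.mpr ⟨i₁, i₀, hi₁⟩
      have hdv : (Fintype.card ι : ℤ) ∣ 1 := ⟨-(-(ε * h i₀ c) - 1), by linarith⟩
      have h1 := Int.le_of_dvd one_pos hdv
      omega
    · intro y hy
      have hyc : y ≠ c := by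
        intro e
        exact hy ⟨i₀, by show (if i₀ = i₀ then c else xx i₀) = y; rw [if_pos rfl, e]⟩
      obtain ⟨i, hi⟩ := hs y
      by_cases hi0 : i = i₀
      · rw [← hi0]
        exact hi
      · have hyx : y ≠ xx i := by
          intro e
          exact hy ⟨i, by show (if i = i₀ then c else xx i) = y; rw [if_neg hi0, e]⟩
        have h1 := (hxδ i hi0).2.2 y
        rw [if_neg hyc, if_neg hyx, hGdef] at h1
        intro hz
        apply hi
        linarith
    · intro i j
      show h i (if j = i₀ then c else xx j) = (if j = i₀ then -ε else δ j)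
        * (-(ε * h i₀ c) - 1 + if i = j then 1 else 0)
      have hε2 : ε * (ε * h i₀ c) = h i₀ c := by rw [← mul_assoc, hεε, one_mul]
      by_cases hj : j = i₀
      · rw [if_pos hj, if_pos hj]
        by_cases hi : i = i₀
        · rw [if_pos (hi.trans hj.symm), hi]
          linear_combination -hε2
        · rw [if_neg (fun e => hi (e.trans hj))]
          have h1 := hcc i hi
          rw [hGdef] at h1
          linear_combination h1 - hε2
      · rw [if_neg hj, if_neg hj]
        by_cases hi : i = i₀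
        · rw [if_neg (fun e => hj (e.symm.trans hi)), hi, hβ j hj]
          ring
        · have h1 := (hxδ i hi).2.2 (xx j)
          rw [if_neg (hxδ j hj).1, zero_add, hGdef, hβ j hj] at h1
          by_cases hij : i = j
          · rw [if_pos hij]
            rw [if_pos (by rw [hij])] at h1
            rw [← hij] at h1 ⊢
            linear_combination h1
          · rw [if_neg hij]
            rw [if_neg (fun e => hinj i j hi hj hij e.symm)] at h1
            linear_combination h1
    · intro i y hy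
      have hyc : y ≠ c := by
        intro e
        exact hy ⟨i₀, by show (if i₀ = i₀ then c else xx i₀) = y; rw [if_pos rfl, e]⟩
      by_cases hi0 : i = i₀
      · rw [hi0]
      · have hyx : y ≠ xx i := by
          intro e
          exact hy ⟨i, by show (if i = i₀ then c else xx i) = y; rw [if_neg hi0, e]⟩
        have h1 := (hxδ i hi0).2.2 y
        rw [if_neg hyc, if_neg hyx, hGdef] at h1
        linarith

/-- The chain. `w i` are vectors with weights `c i`; `Φ i = c (i+1) w i - c i w (i+1)` (cyclically). -/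
def chn {l : ℕ} {X : Type} (c : Fin (l + 1) → ℤ) (w : Fin (l + 1) → X → ℤ) (i : Fin (l + 1)) :
    X → ℤ := fun y => c (i + 1) * w i y - c i * w (i + 1) y

/-- MODULE CHA. The norm of a chain of pairwise orthogonal vectors. PROOF. `∑_y (chn c w i y)² =
c (i+1)² |w i|² + c i² |w (i+1)|² - 2 c i c (i+1) (w i, w (i+1))`, and `(w i, w (i+1)) = 0` if `i + 1 ≠ i`; if `l = 0` then
`i + 1 = i` and `chn = 0`. Reindex the second part by `i + 1` (a bijection of `Fin (l + 1)`). In the sum
`∑ i, c (i+1)² |w i|²` the term `i = 0` is `t c (1)²`, the others have `|w i|² = 1`: it is `∑ i, c (i+1)² + (t - 1) c 1²`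
and `∑ c (i+1)² = ∑ c i²`; the other sum is `∑ c i² + (t - 1) c (-1)²`, where `-1` is the last index. For `l ≥ 1` both `1` and `-1`
are not `0`, so `c 1² + c (-1)² ≤ 2 ∑_{i ≠ 0} c i²` and the sum is at most
`2 ∑ c i² + 2 (t - 1) ∑_{i ≠ 0} c i² = 2 (c 0² + t ∑_{i ≠ 0} c i²)`. For `l = 0` everything is zero. -/
theorem Chn_norm {l : ℕ} {X : Type} [Fintype X] (c : Fin (l + 1) → ℤ) (w : Fin (l + 1) → X → ℤ)
    (t : ℕ) (ht : 1 ≤ t) (h0 : ∑ y, w 0 y ^ 2 = t) (h1 : ∀ i, i ≠ 0 → ∑ y, w i y ^ 2 = 1)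
    (ho : ∀ i j, i ≠ j → ∑ y, w i y * w j y = 0) :
    ∑ i, ∑ y, chn c w i y ^ 2 ≤ 2 * (c 0 ^ 2 + t * ∑ i with i ≠ 0, c i ^ 2) := by
  have hS : 0 ≤ ∑ i with i ≠ 0, c i ^ 2 := Finset.sum_nonneg fun i _ => sq_nonneg _
  have hrhs : 0 ≤ 2 * (c 0 ^ 2 + t * ∑ i with i ≠ 0, c i ^ 2) := by positivity
  rcases l with _ | k
  · have : ∑ i : Fin (0 + 1), ∑ y, chn c w i y ^ 2 = 0 := by
      refine Finset.sum_eq_zero fun i _ => Finset.sum_eq_zero fun y _ => ?_
      have hi : i + 1 = i := by
        have h1 := i.isLt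
        have h2 := (i + 1).isLt
        exact Fin.ext (by omega)
      unfold chn
      rw [hi]
      ring
    rw [this]
    exact hrhs
  · have hne : ∀ i : Fin (k + 1 + 1), i ≠ i + 1 := by
      intro i hi
      have h1 : (1 : Fin (k + 1 + 1)) = 0 := by
        have := hi
        rwa [left_eq_add] at this
      exact absurd (congrArg Fin.val h1) (by simp)
    have hterm : ∀ i : Fin (k + 1 + 1), ∑ y, chn c w i y ^ 2
        = c (i + 1) ^ 2 * ∑ y, w i y ^ 2 + c i ^ 2 * ∑ y, w (i + 1) y ^ 2 := by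
      intro i
      have h2 : ∑ y, chn c w i y ^ 2
          = c (i + 1) ^ 2 * ∑ y, w i y ^ 2 + c i ^ 2 * ∑ y, w (i + 1) y ^ 2
            - 2 * (c i * c (i + 1)) * ∑ y, w i y * w (i + 1) y := by
        rw [Finset.mul_sum, Finset.mul_sum, Finset.mul_sum, ← Finset.sum_add_distrib,
          ← Finset.sum_sub_distrib]
        refine Finset.sum_congr rfl fun y _ => ?_
        unfold chn
        ring
      rw [h2, ho i (i + 1) (hne i), mul_zero, sub_zero]
    have hn : ∀ i : Fin (k + 1 + 1), ∑ y, w i y ^ 2 = 1 + if i = 0 then (t : ℤ) - 1 else 0 := by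
      intro i
      by_cases hi : i = 0
      · rw [if_pos hi, hi, h0]
        ring
      · rw [if_neg hi, h1 i hi, add_zero]
    have e1 : ∑ i : Fin (k + 1 + 1), c (i + 1) ^ 2 = ∑ i, c i ^ 2 :=
      Equiv.sum_comp (Equiv.addRight (1 : Fin (k + 1 + 1))) (fun i => c i ^ 2)
    have e2 : ∑ i : Fin (k + 1 + 1), c (i + 1) ^ 2 * (if i = 0 then (t : ℤ) - 1 else 0)
        = c 1 ^ 2 * ((t : ℤ) - 1) := by
      rw [Finset.sum_eq_single (0 : Fin (k + 1 + 1))]
      · rw [if_pos rfl, zero_add]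
      · intro i _ hi
        rw [if_neg hi, mul_zero]
      · intro hh
        exact absurd (Finset.mem_univ _) hh
    have e3 : ∑ i : Fin (k + 1 + 1), c i ^ 2 * (if i + 1 = 0 then (t : ℤ) - 1 else 0)
        = c (-1) ^ 2 * ((t : ℤ) - 1) := by
      rw [Finset.sum_eq_single (-1 : Fin (k + 1 + 1))]
      · rw [if_pos (by simp)]
      · intro i _ hi
        rw [if_neg (fun e => hi (eq_neg_of_add_eq_zero_left e)), mul_zero]
      · intro hh
        exact absurd (Finset.mem_univ _) hh
    have hall : ∑ i, ∑ y, chn c w i y ^ 2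
        = 2 * ∑ i, c i ^ 2 + ((t : ℤ) - 1) * (c 1 ^ 2 + c (-1) ^ 2) := by
      calc ∑ i, ∑ y, chn c w i y ^ 2
          = ∑ i, ((c (i + 1) ^ 2 + c (i + 1) ^ 2 * (if i = 0 then (t : ℤ) - 1 else 0))
            + (c i ^ 2 + c i ^ 2 * (if i + 1 = 0 then (t : ℤ) - 1 else 0))) := by
            refine Finset.sum_congr rfl fun i _ => ?_
            rw [hterm i, hn i, hn (i + 1)]
            ring
        _ = _ := by
            rw [Finset.sum_add_distrib, Finset.sum_add_distrib, Finset.sum_add_distrib, e1, e2, e3]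
            ring
    have h10 : (1 : Fin (k + 1 + 1)) ≠ 0 := by
      intro e
      exact hne 0 (by rw [zero_add]; exact e.symm)
    have hm10 : (-1 : Fin (k + 1 + 1)) ≠ 0 := by
      intro e
      exact h10 (neg_eq_zero.mp e)
    have hle : ∀ i : Fin (k + 1 + 1), i ≠ 0 → c i ^ 2 ≤ ∑ i with i ≠ 0, c i ^ 2 := by
      intro i hi
      exact Finset.single_le_sum (f := fun i => c i ^ 2) (fun j _ => sq_nonneg (c j))
        (Finset.mem_filter.mpr ⟨Finset.mem_univ _, hi⟩)
    have hsplit : ∑ i, c i ^ 2 = c 0 ^ 2 + ∑ i with i ≠ 0, c i ^ 2 := by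
      have : (Finset.univ.filter fun i : Fin (k + 1 + 1) => i ≠ 0) = Finset.univ.erase 0 := by
        ext i
        simp
      rw [this]
      exact (Finset.add_sum_erase Finset.univ (fun i => c i ^ 2) (Finset.mem_univ 0)).symm
    rw [hall, hsplit]
    have ht1 : (0 : ℤ) ≤ (t : ℤ) - 1 := by
      have : (1 : ℤ) ≤ t := by exact_mod_cast ht
      linarith
    have hb : c 1 ^ 2 + c (-1) ^ 2 ≤ 2 * ∑ i with i ≠ 0, c i ^ 2 := by
      have := hle 1 h10
      have := hle (-1) hm10
      linarith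
    have := mul_le_mul_of_nonneg_left hb ht1
    linarith

/-- MODULE CHB. PROOF. `A i = ∑ y, a y * w i y`. `∑ y, a y * chn c w i y = c (i+1) A i - c i A (i+1) =
c i c (i+1) (A i / c i - A (i+1) / c (i+1))`. The sum over `i` of the `A i / c i - A (i+1) / c (i+1)` is zero, and at most one of
them is not zero, so all are zero: `A i / c i = A (i+1) / c (i+1)` for all `i`; so `A i / c i = κ` is constant (induction on
`Fin (l + 1)`). -/
theorem Chn_two {l : ℕ} {X : Type} [Fintype X] (c : Fin (l + 1) → ℤ) (w : Fin (l + 1) → X → ℤ)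
    (hc : ∀ i, c i ≠ 0) (a : X → ℂ)
    (h : ∀ i j, i ≠ j → ∑ y, a y * (chn c w i y : ℂ) = 0 ∨ ∑ y, a y * (chn c w j y : ℂ) = 0) :
    ∃ κ : ℂ, ∀ i, ∑ y, a y * (w i y : ℂ) = κ * (c i : ℂ) := by
  have hc' : ∀ i, (c i : ℂ) ≠ 0 := fun i => Int.cast_ne_zero.mpr (hc i)
  let A : Fin (l + 1) → ℂ := fun i => ∑ y, a y * (w i y : ℂ)
  have hA : ∀ i, A i = ∑ y, a y * (w i y : ℂ) := fun i => rfl
  have hB : ∀ i, ∑ y, a y * (chn c w i y : ℂ)
      = (c i : ℂ) * (c (i + 1) : ℂ) * (A i / (c i : ℂ) - A (i + 1) / (c (i + 1) : ℂ)) := by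
    intro i
    have h1 : ∑ y, a y * (chn c w i y : ℂ) = (c (i + 1) : ℂ) * A i - (c i : ℂ) * A (i + 1) := by
      rw [hA, hA, Finset.mul_sum, Finset.mul_sum, ← Finset.sum_sub_distrib]
      refine Finset.sum_congr rfl fun y _ => ?_
      unfold chn
      push_cast
      ring
    rw [h1]
    have := hc' i
    have := hc' (i + 1)
    field_simp
  have htot : ∑ i, (A i / (c i : ℂ) - A (i + 1) / (c (i + 1) : ℂ)) = 0 := by
    rw [Finset.sum_sub_distrib, sub_eq_zero]
    exact (Equiv.sum_comp (Equiv.addRight (1 : Fin (l + 1))) (fun i => A i / (c i : ℂ))).symm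
  have hz : ∀ i, ∑ y, a y * (chn c w i y : ℂ) = 0 → A i / (c i : ℂ) - A (i + 1) / (c (i + 1) : ℂ) = 0 := by
    intro i hi
    rw [hB i] at hi
    rcases mul_eq_zero.mp hi with e | e
    · exact absurd e (mul_ne_zero (hc' i) (hc' (i + 1)))
    · exact e
  have hall : ∀ i, A i / (c i : ℂ) - A (i + 1) / (c (i + 1) : ℂ) = 0 := by
    intro i
    by_cases hi : ∑ y, a y * (chn c w i y : ℂ) = 0
    · exact hz i hi
    · rw [Finset.sum_eq_single i] at htot
      · exact htot
      · intro j _ hj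
        rcases h i j (fun e => hj e.symm) with e | e
        · exact absurd e hi
        · exact hz j e
      · intro hh
        exact absurd (Finset.mem_univ _) hh
  have hconst : ∀ i, A i / (c i : ℂ) = A 0 / (c 0 : ℂ) := by
    intro i
    induction i using Fin.induction with
    | zero => rfl
    | succ i ih =>
      rw [← ih, ← Fin.coeSucc_eq_succ]
      exact (sub_eq_zero.mp (hall i.castSucc)).symm
  refine ⟨A 0 / (c 0 : ℂ), fun i => ?_⟩
  rw [← hconst i, ← hA]
  exact (div_mul_cancel₀ _ (hc' i)).symm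

/-- Summation over the image of an injection and its complement. -/
private lemma chc_sum {X ι M : Type} [Fintype X] [Fintype ι] [AddCommMonoid M] (μ : ι → X)
    (hμ : Function.Injective μ) {l : ℕ} (e : Fin l ≃ {y // y ∉ Set.range μ}) (f : X → M) :
    ∑ y, f y = ∑ j, f (μ j) + ∑ k, f (e k) := by
  rw [← Fintype.sum_subtype_add_sum_subtype (fun y => y ∈ Set.range μ) f]
  congr 1
  · refine Eq.symm (Finset.sum_bij (fun j _ => (⟨μ j, j, rfl⟩ : {x // x ∈ Set.range μ}))
      (fun _ _ => @Finset.mem_univ _ (_) _) (fun i _ j _ h => hμ (congrArg Subtype.val h)) ?_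
      (fun _ _ => rfl))
    rintro ⟨y, j, hj⟩ _
    exact ⟨j, Finset.mem_univ _, Subtype.ext hj⟩
  · exact (Equiv.sum_comp e (fun y => f y.1)).symm

/-- The vectors of the chain. -/
private noncomputable def chcW {X ι : Type} [Fintype ι] (μ : ι → X) (σ : ι → ℤ) {l : ℕ}
    (e : Fin l ≃ {y // y ∉ Set.range μ}) : Fin (l + 1) → X → ℤ :=
  Fin.cons (fun y => ∑ j, if μ j = y then σ j else 0) (fun k y => if (e k).1 = y then 1 else 0)

private lemma chcW_mu {X ι : Type} [Fintype ι] (μ : ι → X) (hμ : Function.Injective μ) (σ : ι → ℤ)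
    {l : ℕ} (e : Fin l ≃ {y // y ∉ Set.range μ}) (j : ι) : chcW μ σ e 0 (μ j) = σ j := by
  show (∑ i, if μ i = μ j then σ i else 0) = σ j
  rw [Finset.sum_eq_single j]
  · rw [if_pos rfl]
  · intro i _ hi
    rw [if_neg (fun e => hi (hμ e))]
  · intro hh
    exact absurd (Finset.mem_univ _) hh

private lemma chcW_e {X ι : Type} [Fintype ι] (μ : ι → X) (σ : ι → ℤ)
    {l : ℕ} (e : Fin l ≃ {y // y ∉ Set.range μ}) (k : Fin l) : chcW μ σ e 0 (e k).1 = 0 := by
  show (∑ i, if μ i = (e k).1 then σ i else 0) = 0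
  refine Finset.sum_eq_zero fun i _ => ?_
  rw [if_neg (fun h => (e k).2 ⟨i, h⟩)]

private lemma chcW_s_mu {X ι : Type} [Fintype ι] (μ : ι → X) (σ : ι → ℤ)
    {l : ℕ} (e : Fin l ≃ {y // y ∉ Set.range μ}) (k : Fin l) (j : ι) :
    chcW μ σ e k.succ (μ j) = 0 := by
  show (if (e k).1 = μ j then (1 : ℤ) else 0) = 0
  rw [if_neg (fun h => (e k).2 ⟨j, h.symm⟩)]

private lemma chcW_s_e {X ι : Type} [Fintype ι] (μ : ι → X) (σ : ι → ℤ)
    {l : ℕ} (e : Fin l ≃ {y // y ∉ Set.range μ}) (k k' : Fin l) :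
    chcW μ σ e k.succ (e k').1 = if k' = k then 1 else 0 := by
  show (if (e k).1 = (e k').1 then (1 : ℤ) else 0) = _
  by_cases h : k' = k
  · rw [if_pos h, if_pos (by rw [h])]
  · rw [if_neg h, if_neg (fun h' => h (e.injective (Subtype.ext h').symm))]

/-- Pairing with the vectors of the chain. -/
private lemma chc_pair0 {X ι R : Type} [Fintype X] [Fintype ι] [CommRing R] (μ : ι → X)
    (hμ : Function.Injective μ) (σ : ι → ℤ) {l : ℕ} (e : Fin l ≃ {y // y ∉ Set.range μ})
    (f : X → R) : ∑ y, f y * (chcW μ σ e 0 y : R) = ∑ j, f (μ j) * (σ j : R) := by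
  rw [chc_sum μ hμ e]
  have h2 : ∑ k, f (e k) * (chcW μ σ e 0 (e k) : R) = 0 :=
    Finset.sum_eq_zero fun k _ => by rw [chcW_e, Int.cast_zero, mul_zero]
  rw [h2, add_zero]
  exact Finset.sum_congr rfl fun j _ => by rw [chcW_mu μ hμ]

private lemma chc_pairs {X ι R : Type} [Fintype X] [Fintype ι] [CommRing R] (μ : ι → X)
    (hμ : Function.Injective μ) (σ : ι → ℤ) {l : ℕ} (e : Fin l ≃ {y // y ∉ Set.range μ})
    (f : X → R) (k : Fin l) : ∑ y, f y * (chcW μ σ e k.succ y : R) = f (e k) := by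
  rw [chc_sum μ hμ e]
  have h1 : ∑ j, f (μ j) * (chcW μ σ e k.succ (μ j) : R) = 0 :=
    Finset.sum_eq_zero fun j _ => by rw [chcW_s_mu, Int.cast_zero, mul_zero]
  rw [h1, zero_add, Finset.sum_eq_single k]
  · rw [chcW_s_e, if_pos rfl, Int.cast_one, mul_one]
  · intro k' _ hk
    rw [chcW_s_e, if_neg hk, Int.cast_zero, mul_zero]
  · intro hh
    exact absurd (Finset.mem_univ _) hh

/-- MODULE CHC. PROOF. `Cmb_main`; `t = card ι`, `s = 1 + β t`; `Y` = the complement of the range of `μ`, `l = |Y|`,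
`e : Fin l ≃ Y`. `c 0 = s`, `c (i.succ) = x (e i)`, `w 0 = ∑ j, σ j [μ j]` (the function with the value `σ j` at `μ j` and `0` on `Y`),
`w (i.succ) = [e i]` (indicator; use `Fin.cases`). `Φ = chn c w`, `N = l + 1`. Orthogonality to `h j`: `(w 0, h j) = ∑ i σ i σ i (β + δ) = t β + 1 = s = c 0`,
`(w (i.succ), h j) = x (e i) = c (i.succ)`; so `(w i, h j) = c i` for all `i` and `(Φ i, h j) = c (i+1) c i - c i c (i+1) = 0`. Norm:
`Chn_norm` and `s² + t ∑_Y x² = t m + 1`: from `hg i i`: `∑ j (β + δ)² + ∑_Y x² = 1 + m`, i.e. `1 + 2 β + t β² + ∑_Y x² = 1 + m`.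
The last claim: `Chn_two` gives `κ`. Let `y` be orthogonal to all `h j`. `(y, h i - h j) = 0` gives `σ i y (μ i) = σ j y (μ j)`; so
`σ j y (μ j) = γ` for all `j` (`ι` is not empty), and `0 = (y, h j) = ∑ i σ i (β + δ) y (μ i) + ∑_Y x y = γ s + ∑_Y x y`. Finally
`∑ a y = ∑ j a (μ j) y (μ j) + ∑_Y a y`; `a (μ j) y (μ j) = γ σ j a (μ j)`, the first sum is `γ (a, w 0) = γ κ s`; the second is
`∑_Y κ x y = - κ γ s` (`a (e i) = (a, w i.succ) = κ x (e i)`). -/
theorem Chn_main {X ι : Type} [Fintype X] [Fintype ι] [Nonempty ι] (h : ι → X → ℤ) (m : ℕ)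
    (hg : ∀ i j, ∑ x, h i x * h j x = (if i = j then 1 else 0) + (m : ℤ))
    (hs : ∀ x, ∃ i, h i x ≠ 0) :
    ∃ (N : ℕ) (Φ : Fin N → X → ℤ), (∀ i j, ∑ x, Φ i x * h j x = 0) ∧
      ∑ i, ∑ x, Φ i x ^ 2 ≤ 2 * ((Fintype.card ι : ℤ) * m + 1) ∧
      ∀ a : X → ℂ, (∀ i j, i ≠ j → ∑ x, a x * (Φ i x : ℂ) = 0 ∨ ∑ x, a x * (Φ j x : ℂ) = 0) →
        ∀ y : X → ℂ, (∀ j, ∑ x, y x * (h j x : ℂ) = 0) → ∑ x, a x * y x = 0 := by
  obtain ⟨μ, σ, β, x, hμ, hσ, hβ, hx, h1, h2⟩ := Cmb_main h m hg hs
  let e : Fin (Fintype.card {y // y ∉ Set.range μ}) ≃ {y // y ∉ Set.range μ} :=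
    (Fintype.equivFin _).symm
  have hσσ : ∀ i, σ i * σ i = 1 := by
    intro i
    rcases hσ i with e | e <;> rw [e] <;> norm_num
  have hex : ∀ (j : ι) (k), h j (e k).1 = x (e k).1 := fun j k => h2 j _ (e k).2
  set w := chcW μ σ e with hw
  set c : Fin (Fintype.card {y // y ∉ Set.range μ} + 1) → ℤ :=
    Fin.cons (1 + β * (Fintype.card ι : ℤ)) (fun k => x (e k).1) with hc
  have hc0 : c 0 = 1 + β * (Fintype.card ι : ℤ) := rfl
  have hcs : ∀ k : Fin (Fintype.card {y // y ∉ Set.range μ}), c k.succ = x (e k).1 := fun k => rfl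
  have hp0 : ∀ f : X → ℤ, ∑ y, f y * w 0 y = ∑ j, f (μ j) * σ j := by
    intro f
    have := chc_pair0 (R := ℤ) μ hμ σ e f
    simpa only [Int.cast_id] using this
  have hps : ∀ (f : X → ℤ) (k), ∑ y, f y * w (Fin.succ k) y = f (e k).1 := by
    intro f k
    have := chc_pairs (R := ℤ) μ hμ σ e f k
    simpa only [Int.cast_id] using this
  have hwh : ∀ i j, ∑ y, h j y * w i y = c i := by
    intro i j
    refine Fin.cases ?_ (fun k => ?_) i
    · rw [hp0, hc0]
      have h3 : ∀ i' ∈ Finset.univ, h j (μ i') * σ i' = β + if i' = j then 1 else 0 := by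
        intro i' _
        rw [h1 j i']
        have h4 := hσσ i'
        have h5 : (if j = i' then (1 : ℤ) else 0) = if i' = j then 1 else 0 := by
          by_cases hh : i' = j
          · rw [if_pos hh, if_pos hh.symm]
          · rw [if_neg hh, if_neg (fun e => hh e.symm)]
        rw [h5]
        linear_combination (β + if i' = j then 1 else 0) * h4
      rw [Finset.sum_congr rfl h3, Finset.sum_add_distrib, Finset.sum_const, Finset.card_univ,
        nsmul_eq_mul, Finset.sum_ite_eq' Finset.univ j, if_pos (Finset.mem_univ _)]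
      ring
    · rw [hps, hcs, hex]
  have hcne : ∀ i, c i ≠ 0 := by
    intro i
    refine Fin.cases ?_ (fun k => ?_) i
    · rw [hc0]; exact hβ
    · rw [hcs]; exact hx _ (e k).2
  refine ⟨Fintype.card {y // y ∉ Set.range μ} + 1, chn c w, ?_, ?_, ?_⟩
  · intro i j
    have h3 : ∑ y, chn c w i y * h j y
        = c (i + 1) * ∑ y, h j y * w i y - c i * ∑ y, h j y * w (i + 1) y := by
      rw [Finset.mul_sum, Finset.mul_sum, ← Finset.sum_sub_distrib]
      refine Finset.sum_congr rfl fun y _ => ?_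
      unfold chn
      ring
    rw [h3, hwh, hwh]
    ring
  · have hn0 : ∑ y, w 0 y ^ 2 = (Fintype.card ι : ℤ) := by
      have h3 : ∑ y, w 0 y ^ 2 = ∑ y, w 0 y * w 0 y := Finset.sum_congr rfl fun y _ => sq _
      rw [h3, hp0, Finset.sum_congr rfl (fun j _ => by rw [hw, chcW_mu μ hμ, hσσ]), Finset.sum_const,
        Finset.card_univ, nsmul_eq_mul, mul_one]
    have hn1 : ∀ i, i ≠ 0 → ∑ y, w i y ^ 2 = 1 := by
      intro i hi
      obtain ⟨k, rfl⟩ := Fin.exists_succ_eq.mpr hi
      have h3 : ∑ y, w k.succ y ^ 2 = ∑ y, w k.succ y * w k.succ y :=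
        Finset.sum_congr rfl fun y _ => sq _
      rw [h3, hps, hw, chcW_s_e, if_pos rfl]
    have ho : ∀ i j, i ≠ j → ∑ y, w i y * w j y = 0 := by
      intro i j hij
      rcases Fin.eq_zero_or_eq_succ j with rfl | ⟨k, rfl⟩
      · obtain ⟨k', rfl⟩ := Fin.exists_succ_eq.mpr hij
        rw [hp0]
        refine Finset.sum_eq_zero fun j _ => ?_
        rw [hw, chcW_s_mu, zero_mul]
      · rw [hps]
        rcases Fin.eq_zero_or_eq_succ i with rfl | ⟨k', rfl⟩
        · rw [hw, chcW_e]
        · rw [hw, chcW_s_e, if_neg (fun e => hij (by rw [e]))]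
    have hnorm := Chn_norm c w (Fintype.card ι) Fintype.card_pos hn0 hn1 ho
    refine hnorm.trans (le_of_eq ?_)
    obtain ⟨i₀⟩ := (inferInstance : Nonempty ι)
    have hgi := hg i₀ i₀
    rw [if_pos rfl, chc_sum μ hμ e] at hgi
    have h3 : ∑ j, h i₀ (μ j) * h i₀ (μ j) = (Fintype.card ι : ℤ) * β ^ 2 + 2 * β + 1 := by
      have h4 : ∀ j ∈ Finset.univ, h i₀ (μ j) * h i₀ (μ j)
          = β ^ 2 + if i₀ = j then 2 * β + 1 else 0 := by
        intro j _
        rw [h1 i₀ j]
        have h5 := hσσ j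
        by_cases hj : i₀ = j
        · rw [if_pos hj, if_pos hj]
          linear_combination (β + 1) ^ 2 * h5
        · rw [if_neg hj, if_neg hj]
          linear_combination β ^ 2 * h5
      rw [Finset.sum_congr rfl h4, Finset.sum_add_distrib, Finset.sum_const, Finset.card_univ,
        nsmul_eq_mul, Finset.sum_ite_eq Finset.univ i₀, if_pos (Finset.mem_univ _)]
      ring
    have h4 : ∑ k, h i₀ (e k) * h i₀ (e k) = ∑ i with i ≠ 0, c i ^ 2 := by
      have h5 : (Finset.univ.filter fun i : Fin (Fintype.card {y // y ∉ Set.range μ} + 1) => i ≠ 0)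
          = Finset.univ.erase 0 := by
        ext i
        simp
      have h6 : ∑ i, c i ^ 2 = c 0 ^ 2 + ∑ i with i ≠ 0, c i ^ 2 := by
        rw [h5]
        exact (Finset.add_sum_erase Finset.univ (fun i => c i ^ 2) (Finset.mem_univ 0)).symm
      rw [Fin.sum_univ_succ] at h6
      have h7 : ∑ i with i ≠ 0, c i ^ 2
          = ∑ k : Fin (Fintype.card {y // y ∉ Set.range μ}), c k.succ ^ 2 := by linarith
      rw [h7]
      refine Finset.sum_congr rfl fun k _ => ?_
      rw [hcs, hex]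
      ring
    rw [h3, h4] at hgi
    rw [hc0]
    linear_combination 2 * (Fintype.card ι : ℤ) * hgi
  · intro a ha y hy
    obtain ⟨κ, hκ⟩ := Chn_two c w hcne a ha
    have hk0 : ∑ j, a (μ j) * (σ j : ℂ) = κ * ((1 + β * (Fintype.card ι : ℤ) : ℤ) : ℂ) := by
      have := hκ 0
      rw [hc0, hw, chc_pair0 μ hμ σ e a] at this
      exact this
    have hks : ∀ k, a (e k) = κ * (x (e k) : ℂ) := by
      intro k
      have := hκ (Fin.succ k)
      rw [hcs, hw, chc_pairs μ hμ σ e a] at this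
      exact this
    have hσc : ∀ i, (σ i : ℂ) * (σ i : ℂ) = 1 := by
      intro i
      have := hσσ i
      exact_mod_cast this
    set Q : ℂ := ∑ k, y (e k) * (x (e k) : ℂ) with hQ
    set T : ℂ := ∑ i, y (μ i) * (σ i : ℂ) with hT
    have hyj : ∀ j, y (μ j) * (σ j : ℂ) = -(β * T + Q) := by
      intro j
      have h3 := hy j
      rw [chc_sum μ hμ e] at h3
      have h4 : ∑ k, y (e k) * (h j (e k) : ℂ) = Q :=
        Finset.sum_congr rfl fun k _ => by rw [hex]
      have h5 : ∑ i, y (μ i) * (h j (μ i) : ℂ) = β * T + y (μ j) * (σ j : ℂ) := by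
        have h6 : ∀ i ∈ Finset.univ, y (μ i) * (h j (μ i) : ℂ)
            = β * (y (μ i) * (σ i : ℂ)) + if i = j then y (μ j) * (σ j : ℂ) else 0 := by
          intro i _
          rw [h1 j i]
          by_cases hij : i = j
          · rw [if_pos hij, if_pos hij.symm, hij]
            push_cast
            ring
          · rw [if_neg hij, if_neg (fun e => hij e.symm)]
            push_cast
            ring
        rw [Finset.sum_congr rfl h6, Finset.sum_add_distrib, ← Finset.mul_sum,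
          Finset.sum_ite_eq' Finset.univ j, if_pos (Finset.mem_univ _)]
      rw [h4, h5] at h3
      linear_combination h3
    set γ : ℂ := -(β * T + Q) with hγ
    have hTt : T = (Fintype.card ι : ℂ) * γ := by
      rw [hT, Finset.sum_congr rfl (fun j _ => hyj j), Finset.sum_const, Finset.card_univ,
        nsmul_eq_mul]
    have hym : ∀ j, y (μ j) = (σ j : ℂ) * γ := by
      intro j
      rw [← hyj j]
      linear_combination -(y (μ j)) * hσc j
    rw [chc_sum μ hμ e]
    have h3 : ∑ j, a (μ j) * y (μ j) = γ * ∑ j, a (μ j) * (σ j : ℂ) := by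
      rw [Finset.mul_sum]
      refine Finset.sum_congr rfl fun j _ => ?_
      rw [hym j]
      ring
    have h4 : ∑ k, a (e k) * y (e k) = κ * Q := by
      rw [hQ, Finset.mul_sum]
      refine Finset.sum_congr rfl fun k _ => ?_
      rw [hks k]
      ring
    rw [h3, h4, hk0]
    have h5 : Q = -γ - β * T := by rw [hγ]; ring
    rw [h5, hTt]
    push_cast
    ring

end Pool.Agent.KBD
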