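import Pool.Agent.Frb.Gb
import Pool.Agent.KBD.Cmb

/-! The projective family of a block system with free action. Modules AXA (`Ax_h`), AXB (`Ax_exp`), AXC
(`Ax_main`). -/

set_option autoImplicit false

namespace Pool.Agent.KBD

open Classical
open scoped Pointwise
open Pool.Agent.MSy Pool.Agent.Frb

variable {p : ℕ} {D E Ω V : Type} [CommGroup D] [Fintype D] [Group E] [Fintype E]
    [MulDistribMulAction E D] [Fintype Ω] [NormedAddCommGroup V] [InnerProductSpace ℂ V]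
    {B : BSys p D E Ω V} {deg : V →ₗ[ℂ] ℂ}

omit [Fintype E] in
private theorem axa_conj (R : Subgroup D) (h h' : D → V) :
    (starRingEnd ℂ) (ip E R h h') = ip E R h' h := by
  unfold ip
  rw [map_mul, map_inv₀, ce_conj, map_sum]
  congr 1
  refine Finset.sum_congr rfl fun v _ => ?_
  rw [map_mul, ce_conj, inner_conj_symm]

omit [Fintype E] in
private theorem axa_sum {ι : Type} [Fintype ι] (R : Subgroup D) (w : D → V) (a : ι → ℂ)
    (f : ι → D → V) : ip E R w (∑ i, a i • f i) = ∑ i, a i * ip E R w (f i) := by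
  unfold ip
  simp only [Finset.sum_apply, Pi.smul_apply, inner_sum, inner_smul_right, Finset.mul_sum]
  rw [Finset.sum_comm]
  refine Finset.sum_congr rfl fun i _ => Finset.sum_congr rfl fun v _ => ?_
  ring

private theorem axa_sub {M : Type} [AddCommMonoid M] (f : Ω → M) :
    ∑ χ with B.lev χ = ⊥, f χ = ∑ χ : {χ : Ω // B.lev χ = ⊥}, f χ.1 :=
  Finset.sum_subtype _ (fun χ => by simp) f

private theorem axa_pars {u : D → V} (hu : u ∈ B.K ⊥) (w : D → V) :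
    ip E ⊥ w u = ∑ χ : {χ : Ω // B.lev χ = ⊥}, ip E ⊥ (B.dd χ.1) u * ip E ⊥ w (B.dd χ.1) := by
  have h1 := expand B hu
  rw [axa_sub fun χ => ip E ⊥ (B.dd χ) u • B.dd χ] at h1
  conv_lhs => rw [h1]
  exact axa_sum ⊥ w (fun χ : {χ : Ω // B.lev χ = ⊥} => ip E ⊥ (B.dd χ.1) u) fun χ => B.dd χ.1

private theorem axa_hg (x : E) (θ : D →* ℂˣ) : hg B (ca x θ) = hg B θ := by
  have h1 := (OO_basic (E := E) θ).2.2.1 x
  funext v
  unfold hg
  rw [h1]

/-- MODULE AXA. The integral vectors. PROOF. `exists_reps` gives `t`, `ρ`; `t ≥ 1` because `t |E| + 1 = |D| > 1`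
(`H.nt`). `h i χ` = the integer `ip E ⊥ (dd χ) (hg B (ρ i))` (`hg_mem`, `mem_Z_iff`; index set `{χ // lev χ = ⊥}`). The Gram matrix: `expand` for
`hg B (ρ i)` and `dd_orth` (expand both, or linearity of `ip`; the integers are real), `hg_gram`: `∃ x, ca x (ρ i) = ρ j` iff `i = j` (the uniqueness in
`exists_reps`, and `ca 1 = id`). Full support: `supp` gives `θ ≠ 1`; `θ = ca x (ρ i)` and `hg B θ = hg B (ρ i)` (`OO_basic`). The last claim:
(if) if `∑ χ, y χ * h j χ = 0` for all `j`, let `u = ∑ χ, (conj (y χ)) ...`: put `u = ∑ χ, y χ • dd χ ∈ K ⊥` (`dd_K`); `ip u (hg (ρ i)) = ∑ χ, conj (y χ) * h i χ`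
`= conj (∑ y χ * h i χ) = 0` (the `h` are real), so `ip u (hg θ) = 0` for all `θ ≠ 1` and `off_zero` gives `u v = 0` for `v ≠ 1`. (only if) `hg B θ 1 = 0`, so `ip u (hg θ)`
only depends on the values of `u` at `v ≠ 1`, `= 0`. -/
theorem Ax_h (H : Hyp B deg) :
    ∃ (t : ℕ) (h : Fin t → {χ : Ω // B.lev χ = ⊥} → ℤ), 1 ≤ t ∧ t * Nat.card E + 1 = Nat.card D ∧
      (∀ i j, ∑ χ, h i χ * h j χ = (if i = j then 1 else 0) + (Nat.card E : ℤ)) ∧
      (∀ χ, ∃ i, h i χ ≠ 0) ∧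
      ∀ y : {χ : Ω // B.lev χ = ⊥} → ℂ, (∀ j, ∑ χ, y χ * (h j χ : ℂ) = 0) ↔
        ∀ v : D, v ≠ 1 → ∑ χ, y χ • B.dd χ.1 v = 0 := by
  obtain ⟨t, ρ, hρ1, hρ, ht⟩ := exists_reps (D := D) (E := E) H.free
  have hmem : ∀ i : Fin t, ∀ χ : {χ : Ω // B.lev χ = ⊥},
      ∃ n : ℤ, ip E ⊥ (B.dd χ.1) (hg B (ρ i)) = n := fun i χ =>
    ((mem_Z_iff B).1 (hg_mem H (ρ i))).2 χ.1 χ.2
  choose h hh using hmem
  have hK : ∀ i, hg B (ρ i) ∈ B.K ⊥ := fun i => ((mem_Z_iff B).1 (hg_mem H (ρ i))).1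
  have hrep : ∀ θ : D →* ℂˣ, θ ≠ 1 → ∃ i, hg B θ = hg B (ρ i) := by
    intro θ hθ
    obtain ⟨i, ⟨x, hx⟩, -⟩ := hρ θ hθ
    exact ⟨i, by rw [← hx, axa_hg]⟩
  have hiff : ∀ i j, (∃ x : E, ca x (ρ i) = ρ j) ↔ i = j := by
    intro i j
    constructor
    · intro hx
      obtain ⟨k, -, hk⟩ := hρ (ρ j) (hρ1 j)
      rw [hk i hx, hk j ⟨1, ca_one _⟩]
    · rintro rfl
      exact ⟨1, ca_one _⟩
  refine ⟨t, h, ?_, ht, ?_, ?_, ?_⟩
  · have h1 : 1 < Nat.card D := by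
      have := H.nt
      exact Finite.one_lt_card
    rcases Nat.eq_zero_or_pos t with h0 | h0
    · rw [h0] at ht
      omega
    · exact h0
  · intro i j
    have h1 := hg_gram H (hρ1 i) (hρ1 j)
    rw [axa_pars (hK j) (hg B (ρ i))] at h1
    have h2 : ∀ χ : {χ : Ω // B.lev χ = ⊥}, ip E ⊥ (B.dd χ.1) (hg B (ρ j)) *
        ip E ⊥ (hg B (ρ i)) (B.dd χ.1) = (h i χ : ℂ) * (h j χ : ℂ) := by
      intro χ
      rw [← axa_conj ⊥ (B.dd χ.1) (hg B (ρ i)), hh, hh]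
      simp only [map_intCast]
      ring
    rw [Finset.sum_congr rfl fun χ _ => h2 χ] at h1
    have h3 : (if ∃ x : E, ca x (ρ i) = ρ j then (1 : ℂ) else 0) = if i = j then 1 else 0 := by
      by_cases hij : i = j
      · rw [if_pos hij, if_pos ((hiff i j).2 hij)]
      · rw [if_neg hij, if_neg fun k => hij ((hiff i j).1 k)]
    rw [h3] at h1
    have h4 : ((∑ χ, h i χ * h j χ : ℤ) : ℂ) = (((if i = j then 1 else 0) + (Nat.card E : ℤ) : ℤ) : ℂ) := by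
      push_cast
      exact h1
    exact_mod_cast h4
  · intro χ
    obtain ⟨θ, hθ, hne⟩ := supp H χ.2
    obtain ⟨i, hi⟩ := hrep θ hθ
    refine ⟨i, fun h0 => hne ?_⟩
    rw [hi, hh, h0, Int.cast_zero]
  · intro y
    set u : D → V := ∑ χ : {χ : Ω // B.lev χ = ⊥}, y χ • B.dd χ.1 with hu
    have huK : u ∈ B.K ⊥ := Submodule.sum_mem _ fun χ _ => Submodule.smul_mem _ _ (dd_K B χ.2)
    have huv : ∀ v, u v = ∑ χ : {χ : Ω // B.lev χ = ⊥}, y χ • B.dd χ.1 v := by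
      intro v
      rw [hu, Finset.sum_apply]
      rfl
    have hip : ∀ j, ip E ⊥ (hg B (ρ j)) u = ∑ χ, y χ * (h j χ : ℂ) := by
      intro j
      rw [hu, axa_sum ⊥ (hg B (ρ j)) y fun χ => B.dd χ.1]
      refine Finset.sum_congr rfl fun χ _ => ?_
      rw [← axa_conj ⊥ (B.dd χ.1) (hg B (ρ j)), hh]
      simp only [map_intCast]
    constructor
    · intro h0 v hv
      rw [← huv]
      refine off_zero H huK (fun θ hθ => ?_) v hv
      obtain ⟨i, hi⟩ := hrep θ hθ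
      rw [hi, ← axa_conj, hip, h0, map_zero]
    · intro h0 j
      rw [← hip]
      unfold ip
      rw [Finset.sum_eq_zero, mul_zero]
      intro v _
      by_cases hv : v = 1
      · have : hg B (ρ j) v = 0 := by
          unfold hg
          rw [if_pos hv]
        rw [this, inner_zero_left, mul_zero]
      · rw [huv, h0 v hv, inner_zero_right, mul_zero]

private theorem axb_one (χ : Ω) : B.dd χ 1 = B.o χ := by
  unfold BSys.dd BSys.br
  rw [jn_of_mem (one_mem _), Finset.sum_eq_single χ]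
  · rw [B.r_self χ χ rfl, if_pos rfl, B.cc_one]
    simp
  · intro φ hφ hne
    rw [Finset.mem_filter] at hφ
    rw [B.r_self χ φ hφ.2.symm, if_neg (Ne.symm hne)]
    simp
  · intro hn
    have h0 : χ ∈ Finset.univ.filter fun φ => B.lev φ = B.lev χ := by simp
    exact absurd h0 hn

/-- MODULE AXB. The restrictions to the `p`-regular elements. PROOF. `g v = o ψ` for `v = 1`, `0` otherwise, is in `K ⊥`: `o ψ ∈ VS (jn ⊥ 1)`
(`jn_of_mem`), `av t (o ψ) = o (ao t ψ) = o ψ` (`ao_fix`, `EE E ⊥ = ⊤`). `expand`: `g = ∑ χ, ip (dd χ) g • dd χ`, `ip E ⊥ (dd χ) g = inner (dd χ 1) (o ψ) =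
inner (o χ) (o ψ)` (`jn ⊥ 1 = ⊥`, `dd χ 1 = o χ` by `r_self`, `cc_one`; `ce E ⊥ ≠ 0`). Evaluate at `v ≠ 1`. -/
theorem Ax_exp (ψ : Ω) (hψ : B.lev ψ = ⊥) (v : D) (hv : v ≠ 1) :
    ∑ χ : {χ : Ω // B.lev χ = ⊥}, (inner ℂ (B.o χ.1) (B.o ψ) : ℂ) • B.dd χ.1 v = 0 := by
  set g : D → V := fun w => if w = 1 then B.o ψ else 0 with hg
  have hgK : g ∈ B.K ⊥ := by
    refine ⟨fun w => ?_, fun t ht w => ?_⟩
    · by_cases hw : w = 1
      · have h1 : g w = B.o ψ := by rw [hg]; exact if_pos hw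
        rw [h1, hw, jn_of_mem (one_mem _)]
        exact Submodule.subset_span ⟨ψ, hψ, rfl⟩
      · have h1 : g w = 0 := by rw [hg]; exact if_neg hw
        rw [h1]
        exact zero_mem _
    · by_cases hw : w = 1
      · have h1 : g w = B.o ψ := by rw [hg]; exact if_pos hw
        have h2 : g (t • w) = B.o ψ := by rw [hg]; exact if_pos (by rw [hw, smul_one])
        rw [h1, h2, ← B.o_ao, B.ao_fix t ψ (by rw [hψ]; exact ht)]
      · have h1 : g w = 0 := by rw [hg]; exact if_neg hw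
        have h2 : g (t • w) = 0 := by
          rw [hg]
          refine if_neg fun h => hw ?_
          have h3 := congrArg (fun x => t⁻¹ • x) h
          simpa using h3
        rw [h1, h2, map_zero]
  have h1 := congrFun (expand B hgK) v
  rw [axa_sub fun χ => ip E ⊥ (B.dd χ) g • B.dd χ, Finset.sum_apply] at h1
  have h2 : g v = 0 := by rw [hg]; exact if_neg hv
  rw [h2] at h1
  rw [h1]
  refine Finset.sum_congr rfl fun χ _ => ?_
  have h3 : ip E ⊥ (B.dd χ.1) g = inner ℂ (B.o χ.1) (B.o ψ) := by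
    unfold ip
    rw [Finset.sum_eq_single (1 : D)]
    · rw [jn_of_mem (one_mem _), inv_mul_cancel_left₀ (ce_ne _), axb_one]
      have h4 : g 1 = B.o ψ := by rw [hg]; exact if_pos rfl
      rw [h4]
    · intro w _ hw
      have h4 : g w = 0 := by rw [hg]; exact if_neg hw
      rw [h4, inner_zero_right, mul_zero]
    · intro hn
      exact absurd (Finset.mem_univ _) hn
  show _ = ip E ⊥ (B.dd χ.1) g • B.dd χ.1 v
  rw [h3]

/-- MODULE AXC. PROOF. `Ax_h`, `Chn_main` (`ι = Fin t`, `m = |E|`), `Ax_exp`. `Φ i` is orthogonal to the `h j`, so `∑ χ, Φ i χ • dd χ v = 0` for `v ≠ 1` (`Ax_h`,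
`y χ = Φ i χ`). -/
theorem Ax_main (H : Hyp B deg) :
    ∃ (N : ℕ) (n : Fin N → {χ : Ω // B.lev χ = ⊥} → ℤ),
      (∀ i, ∀ v : D, v ≠ 1 → ∑ χ, (n i χ : ℂ) • B.dd χ.1 v = 0) ∧
      ∑ i, ∑ χ, n i χ ^ 2 ≤ 2 * (Nat.card D : ℤ) ∧
      ∀ a : {χ : Ω // B.lev χ = ⊥} → ℂ, (∀ i j, i ≠ j → ∑ χ, a χ * (n i χ : ℂ) = 0 ∨
          ∑ χ, a χ * (n j χ : ℂ) = 0) →
        ∀ ψ, B.lev ψ = ⊥ → ∑ χ, a χ * (inner ℂ (B.o χ.1) (B.o ψ) : ℂ) = 0 := by
  obtain ⟨t, h, ht1, ht, hg, hs, hd⟩ := Ax_h H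
  have : Nonempty (Fin t) := ⟨⟨0, ht1⟩⟩
  obtain ⟨N, Φ, h1, h2, h3⟩ := Chn_main h (Nat.card E)
    (fun i j => (hg i j).trans (by by_cases hij : i = j <;> simp [hij])) hs
  refine ⟨N, Φ, fun i v hv => ?_, ?_, fun a ha ψ hψ => ?_⟩
  · refine (hd fun χ => (Φ i χ : ℂ)).1 (fun j => ?_) v hv
    have h4 := h1 i j
    exact_mod_cast h4
  · rw [Fintype.card_fin] at h2
    have h5 : ((t : ℤ) * (Nat.card E : ℤ) + 1) = (Nat.card D : ℤ) := by exact_mod_cast ht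
    rw [h5] at h2
    exact h2
  · exact h3 a ha (fun χ => inner ℂ (B.o χ.1) (B.o ψ))
      ((hd fun χ => inner ℂ (B.o χ.1) (B.o ψ)).2 fun v hv => Ax_exp ψ hψ v hv)

end Pool.Agent.KBD
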