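import Pool.Agent.KBD.Fin2
import Pool.Agent.KBU.JntB
import Pool.Agent.KBU.NumA
import Pool.Agent.KBU.TwoC
import Pool.Agent.KBU.FinB

/-! A bound for all blocks of defect at least three. -/

set_option autoImplicit false

namespace Pool.Agent.KBD

open Pool.Agent.KB Pool.Agent.KB.ContrAux Pool.Agent.KBL Pool.Agent.KBZ Pool.Agent.KBU

private theorem Bf_core (p A d k₀ k₁ l : ℕ) (hp : 3 ≤ p) (hd : 3 ≤ d)
    (hA : A = 0 ∨ A ^ 2 < p - 1)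
    (hA2 : 2 * A < p) (E lm c : ℝ) (hc : 8 / 5 ≤ c) (hE : (p : ℝ) ^ (d - 3) ≤ E) (hE1 : 1 ≤ E)
    (hl : (l : ℝ) ≤ ((p : ℝ) - 1) * (lm * E ^ 2)) (h3 : Real.sqrt p - 1 ≤ E)
    (h4 : lm * E + c * (Real.sqrt p - 1) ≤ c ^ 2 * E)
    (h1 : ((p : ℤ) - 1) * (k₀ : ℤ) ^ 2 + 2 * (p : ℤ) ^ 2 * (k₀ : ℤ) * k₁ ≤
      ((A : ℤ) * ((p : ℤ) - 1 - A)) * (p : ℤ) ^ d * (k₀ : ℤ) + (p : ℤ) ^ (2 * d) * (l : ℤ))
    (h2 : (p : ℤ) * ((k₀ : ℤ) + (p : ℤ) ^ 2 * k₁) ≤ (p : ℤ) ^ (2 * d)) :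
    ((k₀ + k₁ : ℕ) : ℝ) ≤ c * ((p : ℝ) ^ d * E) := by
  have hpR : (3 : ℝ) ≤ (p : ℝ) := by exact_mod_cast hp
  have hp1 : (0 : ℝ) < (p : ℝ) - 1 := by linarith
  have hPpos : (0 : ℝ) < (p : ℝ) ^ d := by positivity
  set P : ℝ := (p : ℝ) ^ d with hP
  have h1R : ((p : ℝ) - 1) * (k₀ : ℝ) ^ 2 + 2 * (p : ℝ) ^ 2 * (k₀ : ℝ) * k₁ ≤
      ((A : ℝ) * ((p : ℝ) - 1 - A)) * P * (k₀ : ℝ) + P ^ 2 * (l : ℝ) := by
    have := (Int.cast_le (R := ℝ)).2 h1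
    push_cast at this
    rw [pow_mul, ← hP] at this
    have e : ((p : ℝ) ^ 2) ^ d = P ^ 2 := by rw [hP, ← pow_mul, ← pow_mul, mul_comm]
    rw [e] at this
    exact this
  have h2R : (p : ℝ) * ((k₀ : ℝ) + (p : ℝ) ^ 2 * k₁) ≤ P ^ 2 := by
    have := (Int.cast_le (R := ℝ)).2 h2
    push_cast at this
    have e : (p : ℝ) ^ (2 * d) = P ^ 2 := by rw [hP, ← pow_mul, mul_comm]
    rw [e] at this
    exact this
  have hPd : P = (p : ℝ) ^ (d - 3) * (p : ℝ) ^ 3 := by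
    rw [hP, ← pow_add]; congr 1; omega
  set β : ℝ := (A : ℝ) * ((p : ℝ) - 1 - A) / ((p : ℝ) - 1) with hβdef
  have hAle : (A : ℝ) ≤ (p : ℝ) - 1 := by
    have : A + 1 ≤ p := by omega
    have : ((A + 1 : ℕ) : ℝ) ≤ (p : ℝ) := by exact_mod_cast this
    push_cast at this; linarith
  have hβ0 : 0 ≤ β := by
    apply div_nonneg _ hp1.le
    apply mul_nonneg (Nat.cast_nonneg _); linarith
  have hβ1 : β ≤ Real.sqrt p - 1 := by
    rw [hβdef, div_le_iff₀ hp1]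
    have := Num_beta p A (by omega) hA hA2
    linarith
  have hβe : (A : ℝ) * ((p : ℝ) - 1 - A) = β * ((p : ℝ) - 1) := by
    rw [hβdef]; field_simp
  rw [hβe] at h1R
  have hc0 : (0 : ℝ) < c := by linarith
  have key := Num_step (p : ℝ) ((k₀ : ℝ) / P) ((k₁ : ℝ) / P) β lm c E
    (by linarith) (by positivity) (by positivity) hβ0 hE1 ?_ ?_ (by linarith) ?_ hc
  · have : ((k₀ : ℝ) + k₁) / P ≤ c * E := by rw [add_div]; exact key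
    rw [div_le_iff₀ hPpos] at this
    push_cast
    calc (k₀ : ℝ) + k₁ ≤ c * E * P := this
      _ = c * (P * E) := by ring
  · -- h1
    have hk : 0 ≤ (k₀ : ℝ) * k₁ := by positivity
    have step : ((p : ℝ) - 1) * ((k₀ : ℝ) ^ 2 + 2 * ((p : ℝ) + 1) * k₀ * k₁) ≤
        ((p : ℝ) - 1) * (β * P * k₀ + P ^ 2 * (lm * E ^ 2)) := by
      have hP2 : 0 ≤ P ^ 2 := by positivity
      have := mul_le_mul_of_nonneg_left hl hP2
      nlinarith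
    have step2 := le_of_mul_le_mul_left step hp1
    have e : ((k₀ : ℝ) / P) ^ 2 + 2 * ((p : ℝ) + 1) * ((k₀ : ℝ) / P) * ((k₁ : ℝ) / P) =
        ((k₀ : ℝ) ^ 2 + 2 * ((p : ℝ) + 1) * k₀ * k₁) / P ^ 2 := by
      field_simp
    have e2 : β * ((k₀ : ℝ) / P) + lm * E ^ 2 = (β * P * k₀ + P ^ 2 * (lm * E ^ 2)) / P ^ 2 := by
      field_simp
    rw [e, e2]
    exact div_le_div_of_nonneg_right step2 (by positivity)
  · -- h2
    rw [div_le_iff₀ hPpos]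
    have hp3 : (0 : ℝ) < (p : ℝ) ^ 3 := by positivity
    have hk0 : 0 ≤ (k₀ : ℝ) := by positivity
    have s1 : (p : ℝ) ^ 3 * k₁ ≤ P ^ 2 := by
      have : (p : ℝ) * ((k₀ : ℝ) + (p : ℝ) ^ 2 * k₁) = (p : ℝ) * k₀ + (p : ℝ) ^ 3 * k₁ := by ring
      have h0 : 0 ≤ (p : ℝ) * k₀ := by positivity
      linarith
    have s2 : (p : ℝ) ^ 3 * k₁ ≤ (p : ℝ) ^ 3 * (E * P) := by
      calc (p : ℝ) ^ 3 * k₁ ≤ P ^ 2 := s1
        _ = (p : ℝ) ^ 3 * ((p : ℝ) ^ (d - 3) * P) := by rw [sq]; nth_rewrite 1 [hPd]; ring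
        _ ≤ (p : ℝ) ^ 3 * (E * P) := by
          apply mul_le_mul_of_nonneg_left _ hp3.le
          exact mul_le_mul_of_nonneg_right hE hPpos.le
    exact le_of_mul_le_mul_left s2 hp3
  · have := mul_le_mul_of_nonneg_left hβ1 hc0.le
    linarith

/-- The step of the recursion. -/
private theorem Bf_num (p A d k₀ k₁ l : ℕ) (hp : 3 ≤ p) (hd : 4 ≤ d)
    (hA : A = 0 ∨ A ^ 2 < p - 1) (hA2 : 2 * A < p)
    (hl : (d = 4 ∧ l ≤ p ^ 3) ∨ (5 ≤ d ∧ 5 * l ≤ 8 * p ^ (2 * (d - 1) - 3)))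
    (h1 : ((p : ℤ) - 1) * (k₀ : ℤ) ^ 2 + 2 * (p : ℤ) ^ 2 * (k₀ : ℤ) * k₁ ≤
      ((A : ℤ) * ((p : ℤ) - 1 - A)) * (p : ℤ) ^ d * (k₀ : ℤ) + (p : ℤ) ^ (2 * d) * (l : ℤ))
    (h2 : (p : ℤ) * ((k₀ : ℤ) + (p : ℤ) ^ 2 * k₁) ≤ (p : ℤ) ^ (2 * d)) :
    5 * (k₀ + k₁) ≤ 8 * p ^ (2 * d - 3) := by
  have hpR : (3 : ℝ) ≤ (p : ℝ) := by exact_mod_cast hp
  have hp1 : (0 : ℝ) < (p : ℝ) - 1 := by linarith
  have hpp : (0 : ℝ) < (p : ℝ) := by linarith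
  have hs1 : (1 : ℝ) ≤ Real.sqrt p := by
    rw [Real.one_le_sqrt]
    linarith
  have hss : Real.sqrt p * Real.sqrt p = (p : ℝ) := Real.mul_self_sqrt hpp.le
  -- `√p - 1 ≤ p / 4`
  have hs4 : Real.sqrt p - 1 ≤ (p : ℝ) / 4 := by nlinarith [sq_nonneg (Real.sqrt p - 2)]
  set E : ℝ := (p : ℝ) ^ (d - 3) with hE
  have hE1 : (1 : ℝ) ≤ E := one_le_pow₀ (by linarith)
  have hEp : (p : ℝ) ≤ E := by
    rw [hE]
    exact le_self_pow₀ (by linarith) (by omega)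
  have key : ∃ lm : ℝ, (l : ℝ) ≤ ((p : ℝ) - 1) * (lm * E ^ 2) ∧
      lm * E + 8 / 5 * (Real.sqrt p - 1) ≤ (8 / 5) ^ 2 * E := by
    rcases hl with ⟨hd4, hl⟩ | ⟨hd5, hl⟩
    · refine ⟨(p : ℝ) / ((p : ℝ) - 1), ?_, ?_⟩
      · have h5 : E = (p : ℝ) := by rw [hE, hd4]; norm_num
        have h6 : (l : ℝ) ≤ (p : ℝ) ^ 3 := by exact_mod_cast hl
        have h7 : ((p : ℝ) - 1) * ((p : ℝ) / ((p : ℝ) - 1) * E ^ 2) = (p : ℝ) ^ 3 := by
          rw [h5]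
          field_simp
        rw [h7]
        exact h6
      · have h5 : (p : ℝ) / ((p : ℝ) - 1) ≤ 3 / 2 := by
          rw [div_le_iff₀ hp1]
          linarith
        have h6 : (p : ℝ) / ((p : ℝ) - 1) * E ≤ 3 / 2 * E :=
          mul_le_mul_of_nonneg_right h5 (by linarith)
        nlinarith
    · have hE9 : 3 * (p : ℝ) ≤ E := by
        have h5 : (p : ℝ) ^ 2 ≤ E := by
          rw [hE]
          exact pow_le_pow_right₀ (by linarith) (by omega)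
        nlinarith
      refine ⟨8 / 5 * ((p : ℝ) / ((p : ℝ) - 1)), ?_, ?_⟩
      · have h5 : (5 : ℝ) * (l : ℝ) ≤ 8 * (p : ℝ) ^ (2 * (d - 1) - 3) := by exact_mod_cast hl
        have h6 : (p : ℝ) ^ (2 * (d - 1) - 3) = (p : ℝ) * E ^ 2 := by
          rw [hE, ← pow_mul, ← pow_succ']
          congr 1
          omega
        have h7 : ((p : ℝ) - 1) * (8 / 5 * ((p : ℝ) / ((p : ℝ) - 1)) * E ^ 2) =
            8 / 5 * ((p : ℝ) * E ^ 2) := by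
          field_simp
        rw [h7, ← h6]
        linarith
      · rcases Nat.lt_or_ge p 4 with h3 | h4
        · have hp3 : p = 3 := by omega
          have hpr : (p : ℝ) = 3 := by exact_mod_cast hp3
          have h9 : (9 : ℝ) ≤ E := by
            rw [hpr] at hE9
            linarith
          have h5 : Real.sqrt p ≤ 7 / 4 := by
            rw [hpr]
            rw [Real.sqrt_le_left (by norm_num)]
            norm_num
          rw [hpr] at h5 ⊢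
          nlinarith
        · have hp4 : (4 : ℝ) ≤ (p : ℝ) := by exact_mod_cast h4
          have h5 : (p : ℝ) / ((p : ℝ) - 1) ≤ 4 / 3 := by
            rw [div_le_iff₀ hp1]
            linarith
          have h6 : 8 / 5 * ((p : ℝ) / ((p : ℝ) - 1)) * E ≤ 8 / 5 * (4 / 3) * E :=
            mul_le_mul_of_nonneg_right (by linarith) (by linarith)
          nlinarith
  obtain ⟨lm, hlm, h4⟩ := key
  have hfin := Bf_core p A d k₀ k₁ l hp (by omega) hA hA2 E lm (8 / 5) le_rfl le_rfl hE1 hlm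
    (by linarith) h4 h1 h2
  have h5 : (p : ℝ) ^ d * E = (p : ℝ) ^ (2 * d - 3) := by
    rw [hE, ← pow_add]
    congr 1
    omega
  rw [h5] at hfin
  have h6 : (5 : ℝ) * ((k₀ + k₁ : ℕ) : ℝ) ≤ 8 * (p : ℝ) ^ (2 * d - 3) := by linarith
  exact_mod_cast h6

/-- **the bound for odd `p`** -/
theorem Bf_odd (p : ℕ) (hp : p.Prime) (hp3 : 3 ≤ p) (𝔪 : Ideal AInt) (h𝔪 : 𝔪.IsMaximal)
    (hp𝔪 : (p : AInt) ∈ 𝔪) (d : ℕ) : ∀ {G : Type} [Group G] [Fintype G] (χ₀ : G → ℂ),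
      χ₀ ∈ Irr G → defect p (block 𝔪 χ₀) = d → 3 ≤ d →
      5 * (block 𝔪 χ₀).ncard ≤ 8 * p ^ (2 * d - 3) := by
  induction d using Nat.strong_induction_on with
  | _ d ih =>
    intro G _ _ χ₀ hχ₀ hdd hd3
    rcases Nat.lt_or_ge d 4 with hd4 | hd4
    · have hd' : d = 3 := by omega
      subst hd'
      have h1 := Def3_main p hp 𝔪 h𝔪 hp𝔪 χ₀ hχ₀ (by omega)
      rw [hdd] at h1
      have h2 : 2 * 3 - 3 = 3 := rfl
      rw [h2]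
      have h3 : 0 < p ^ 3 := pow_pos hp.pos 3
      omega
    · obtain ⟨a1, a2, a3⟩ := FINB_A p hp3
      set A := Nat.sqrt (p - 2) with hA
      obtain ⟨z, hz, ζ, hζ, hind, hdef, Q, hQ1, hQ2, χ, g1, g2, g3⟩ :=
        FINA_step p hp 𝔪 h𝔪 hp𝔪 χ₀ hχ₀ (by omega)
      obtain ⟨k₁, j1, j2, j3⟩ := JntB_main p A hp a1 a2 𝔪 h𝔪 hp𝔪 χ₀ hχ₀ z hz ζ hζ hind hdef
      rw [hdd] at j2 j3 g3
      rw [j1]
      obtain ⟨-, g4⟩ := Gam_le p 𝔪 χ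
      refine Bf_num p A d _ k₁ (ell p (block 𝔪 ζ)) hp3 hd4 (Or.inr a3) a1 ?_ j2 j3
      rcases Nat.lt_or_ge (defect p (block 𝔪 χ)) 4 with he | he
      · have g5 := Def3_main p hp 𝔪 h𝔪 hp𝔪 χ g1 (by omega)
        have g6 : p ^ defect p (block 𝔪 χ) ≤ p ^ 3 := Nat.pow_le_pow_right hp.pos (by omega)
        have g7 : ell p (block 𝔪 ζ) ≤ p ^ 3 := (g2.trans g4).trans (g5.trans g6)
        rcases Nat.lt_or_ge d 5 with hd5 | hd5
        · exact Or.inl ⟨by omega, g7⟩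
        · refine Or.inr ⟨hd5, ?_⟩
          have g8 : p ^ 3 ≤ p ^ (2 * (d - 1) - 3) := Nat.pow_le_pow_right hp.pos (by omega)
          omega
      · have g5 := ih (defect p (block 𝔪 χ)) (by omega) χ g1 rfl (by omega)
        have g6 : p ^ (2 * defect p (block 𝔪 χ) - 3) ≤ p ^ (2 * (d - 1) - 3) :=
          Nat.pow_le_pow_right hp.pos (by omega)
        refine Or.inr ⟨by omega, ?_⟩
        have g7 := g2.trans g4
        omega

/-- **the bound for all blocks of defect at least three**: `k(B) ≤ (8/5) p ^ (2 d - 3)`, and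
`k(B) ≤ (32/25) 2 ^ (2 d - 3)` for `p = 2`. -/
theorem Bf_main (p : ℕ) (hp : p.Prime) (𝔪 : Ideal AInt) (h𝔪 : 𝔪.IsMaximal)
    (hp𝔪 : (p : AInt) ∈ 𝔪) {G : Type} [Group G] [Fintype G] (χ₀ : G → ℂ)
    (hχ₀ : χ₀ ∈ Irr G) (hd : 3 ≤ defect p (block 𝔪 χ₀)) :
    5 * (block 𝔪 χ₀).ncard ≤ 8 * p ^ (2 * defect p (block 𝔪 χ₀) - 3) ∧
      (p = 2 → 25 * (block 𝔪 χ₀).ncard ≤ 32 * 2 ^ (2 * defect p (block 𝔪 χ₀) - 3)) := by
  have h2 : p = 2 → 25 * (block 𝔪 χ₀).ncard ≤ 32 * 2 ^ (2 * defect p (block 𝔪 χ₀) - 3) := by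
    intro hp2
    subst hp2
    have h1 := TwoC_fin 𝔪 h𝔪 hp𝔪 χ₀ hχ₀ hd
    refine h1.trans (le_of_eq ?_)
    have h3 : (4 : ℕ) ^ (defect 2 (block 𝔪 χ₀) + 1) = 2 ^ (2 * (defect 2 (block 𝔪 χ₀) + 1)) := by
      rw [pow_mul]
      norm_num
    rw [h3, show (32 : ℕ) = 2 ^ 5 by norm_num, ← pow_add]
    congr 1
    omega
  refine ⟨?_, h2⟩
  by_cases hp2 : p = 2
  · have h3 := h2 hp2
    subst hp2
    omega
  · have hp3 : 3 ≤ p := by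
      have := hp.two_le
      omega
    exact Bf_odd p hp hp3 𝔪 h𝔪 hp𝔪 _ χ₀ hχ₀ rfl hd

end Pool.Agent.KBD
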