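import Pool.Agent.KBD.Two
import Pool.Agent.KBY.FinC

/-! The closure of Theorem C under quotients which are `p`-solvable with factors of rank at most three. -/

set_option autoImplicit false

namespace Pool.Agent.KBD

open Pool.Agent.KB Pool.Agent.KB.ContrAux Pool.Agent.KBL Pool.Agent.KBZ Pool.Agent.KBU
  Pool.Agent.KBQ Pool.Agent.KBY

/-- `D` is generated by `u`, `a`, `b`, where `u` commutes with `a` and `b` and `[a, b]` is a power of `u`: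
`⟨u⟩` is a central cyclic subgroup of `D` and `D / ⟨u⟩` is abelian of rank at most two. -/
def CR2 {K : Type} [Group K] (D : Subgroup K) : Prop :=
  ∃ u a b : K, D = Subgroup.closure {u, a, b} ∧ a * u = u * a ∧ b * u = u * b ∧
    a * b * a⁻¹ * b⁻¹ ∈ Subgroup.zpowers u

theorem CR2.map {N K : Type} [Group N] [Group K] (κ : N →* K) {D : Subgroup N} (h : CR2 D) :
    CR2 (D.map κ) := by
  obtain ⟨u, a, b, rfl, hau, hbu, hab⟩ := h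
  refine ⟨κ u, κ a, κ b, ?_, by rw [← map_mul, hau, map_mul], by rw [← map_mul, hbu, map_mul], ?_⟩
  · rw [MonoidHom.map_closure, Set.image_insert_eq, Set.image_pair]
  · obtain ⟨k, hk⟩ := Subgroup.mem_zpowers_iff.1 hab
    refine Subgroup.mem_zpowers_iff.2 ⟨k, ?_⟩
    rw [← map_zpow, hk]
    simp only [map_mul, map_inv]

/-- The elements outside of the kernel of the central character are conjugate to elements which commute
with `D.map κ` (as `KBY.BsA_dgp`, for all defect groups). -/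
theorem Cls_dgp {N K H : Type} [Group N] [Fintype N] [Group K] [Fintype K] [Group H] [Fintype H]
    {κ : N →* K} (h : Nrm κ) (p : ℕ) (hp : p.Prime) (𝔪 : Ideal AInt) (h𝔪 : 𝔪.IsMaximal)
    (hp𝔪 : (p : AInt) ∈ 𝔪) (χ : K → ℂ) (hχ : χ ∈ Irr K) (θ : N → ℂ) (hθ : θ ∈ Irr N)
    (hov : Over κ χ θ) (hst : ∀ g : K, SameBlock 𝔪 θ (tw h g θ)) (hidx : ¬ p ∣ κ.range.index)
    (D : Subgroup N) (ι₀ : H →* N) (ζ : H → ℂ) (hA : DefP p 𝔪 θ D ι₀ ζ) :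
    ∀ x : K, ¬ InM 𝔪 (omega χ x) → ∃ a : K, IsConj x a ∧ ∀ u ∈ D.map κ, u * a = a * u := by
  have hd : defect p (block 𝔪 χ) = defect p (block 𝔪 θ) :=
    le_antisymm (DfL_main h p hp 𝔪 h𝔪 hp𝔪 χ hχ θ hθ hov hst hidx)
      (DfT_main h p hp 𝔪 h𝔪 hp𝔪 χ hχ θ hθ hov hst hidx)
  obtain ⟨P, hPg, hPc, hPx⟩ := Dgp_main p hp 𝔪 h𝔪 hp𝔪 χ hχ
  obtain ⟨x₀, hx1, -, hx3⟩ := Sup_syl p hp 𝔪 h𝔪 hp𝔪 ι₀ ζ θ hA.irr hθ hA.ind D hA.pg
    (fun g hg y => hA.cen.com y hg) hA.card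
  obtain ⟨hy1, hy2⟩ := DfL_omega h p hp 𝔪 h𝔪 hp𝔪 χ hχ θ hθ hov hst hidx (ι₀ x₀) hx1
  obtain ⟨a, ha, haP⟩ := hPx _ hy1
  obtain ⟨c, hc⟩ := isConj_iff.1 ha
  -- `Q = c⁻¹ P c`
  obtain ⟨Q, hQm⟩ : ∃ Q : Subgroup K, Q = P.comap (MulAut.conj c).toMonoidHom := ⟨_, rfl⟩
  have hQ : ∀ s, s ∈ Q ↔ c * s * c⁻¹ ∈ P := by
    intro s
    rw [hQm, Subgroup.mem_comap]
    simp
  have hQp : IsPGroup p Q := by
    rw [hQm]
    exact hPg.comap_of_injective _ (MulAut.conj c).injective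
  have hQy : ∀ g ∈ Q, g * κ (ι₀ x₀) = κ (ι₀ x₀) * g := by
    intro g hg
    have h1 := haP _ ((hQ g).1 hg)
    rw [← hc] at h1
    have e1 : c * g * c⁻¹ * (c * κ (ι₀ x₀) * c⁻¹) = c * (g * κ (ι₀ x₀)) * c⁻¹ := by group
    have e2 : c * κ (ι₀ x₀) * c⁻¹ * (c * g * c⁻¹) = c * (κ (ι₀ x₀) * g) * c⁻¹ := by group
    rw [e1, e2] at h1
    exact mul_left_cancel (mul_right_cancel h1)
  have hDp : IsPGroup p (D.map κ) := hA.pg.map κ
  have hDc : Nat.card (D.map κ) = Nat.card D :=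
    Nat.card_congr (D.equivMapOfInjective κ h.inj).symm.toEquiv
  have hDy : ∀ g ∈ D.map κ, g * κ (ι₀ x₀) = κ (ι₀ x₀) * g := by
    rintro _ ⟨u, hu, rfl⟩
    rw [← map_mul, hA.cen.com x₀ hu, map_mul]
  have hDcard : Nat.card (D.map κ) =
      p ^ padicValNat p (Nat.card (Subgroup.centralizer {κ (ι₀ x₀)} : Subgroup K)) := by
    rw [hDc, hA.card, hy2, hx3]
  obtain ⟨e, -, he⟩ := Sup_sylow p hp (D.map κ) hDp (κ (ι₀ x₀)) hDy hDcard Q hQp hQy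
  have hQcard : Nat.card Q = Nat.card P := by
    refine Nat.card_congr ⟨fun s => ⟨c * s * c⁻¹, (hQ s).1 s.2⟩,
      fun t => ⟨c⁻¹ * t * c, (hQ _).2 ?_⟩, fun s => ?_, fun t => ?_⟩
    · have : c * (c⁻¹ * (t : K) * c) * c⁻¹ = t := by group
      rw [this]
      exact t.2
    · apply Subtype.ext
      simp only
      group
    · apply Subtype.ext
      simp only
      group
  have hsurj : ∀ u ∈ D.map κ, ∃ s ∈ Q, e * s * e⁻¹ = u := by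
    let F : Q → (D.map κ : Subgroup K) := fun s => ⟨e * s * e⁻¹, he s s.2⟩
    have hF : Function.Injective F := by
      intro s t hst
      have h1 : e * (s : K) * e⁻¹ = e * t * e⁻¹ := congrArg Subtype.val hst
      exact Subtype.ext (mul_left_cancel (mul_right_cancel h1))
    have hcards : Nat.card Q = Nat.card (D.map κ) := by
      rw [hQcard, hPc, hDc, hA.card, hd]
    have hb : Function.Bijective F := by
      rw [Nat.bijective_iff_injective_and_card]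
      exact ⟨hF, hcards⟩
    intro u hu
    obtain ⟨s, hs⟩ := hb.2 ⟨u, hu⟩
    exact ⟨s, s.2, congrArg Subtype.val hs⟩
  intro x hx
  obtain ⟨b, hb, hbP⟩ := hPx x hx
  refine ⟨e * (c⁻¹ * b * c) * e⁻¹, ?_, ?_⟩
  · refine hb.trans (isConj_iff.2 ⟨e * c⁻¹, ?_⟩)
    group
  · intro u hu
    obtain ⟨s, hs, rfl⟩ := hsurj u hu
    have h1 := hbP _ ((hQ s).1 hs)
    have e1 : e * s * e⁻¹ * (e * (c⁻¹ * b * c) * e⁻¹) =
        e * c⁻¹ * (c * s * c⁻¹ * b) * (c * e⁻¹) := by group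
    have e2 : e * (c⁻¹ * b * c) * e⁻¹ * (e * s * e⁻¹) =
        e * c⁻¹ * (b * (c * s * c⁻¹)) * (c * e⁻¹) := by group
    rw [e1, e2, h1]

/-- The defect pair of a block over a stable block of a normal subgroup of index prime to `p`. -/
theorem Cls_main {N K H : Type} [Group N] [Fintype N] [Group K] [Fintype K] [Group H] [Fintype H]
    {κ : N →* K} (h : Nrm κ) (p : ℕ) (hp : p.Prime) (𝔪 : Ideal AInt) (h𝔪 : 𝔪.IsMaximal)
    (hp𝔪 : (p : AInt) ∈ 𝔪) (χ : K → ℂ) (hχ : χ ∈ Irr K) (θ : N → ℂ) (hθ : θ ∈ Irr N)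
    (hov : Over κ χ θ) (hst : ∀ g : K, SameBlock 𝔪 θ (tw h g θ)) (hidx : ¬ p ∣ κ.range.index)
    (D : Subgroup N) (ι₀ : H →* N) (ζ : H → ℂ) (hA : DefP p 𝔪 θ D ι₀ ζ) :
    ∃ (H' : Type) (_ : Group H') (_ : Fintype H') (ι' : H' →* K) (η : H' → ℂ),
      DefP p 𝔪 χ (D.map κ) ι' η := by
  have hd : defect p (block 𝔪 χ) = defect p (block 𝔪 θ) :=
    le_antisymm (DfL_main h p hp 𝔪 h𝔪 hp𝔪 χ hχ θ hθ hov hst hidx)
      (DfT_main h p hp 𝔪 h𝔪 hp𝔪 χ hχ θ hθ hov hst hidx)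
  have hDc : Nat.card (D.map κ) = Nat.card D :=
    Nat.card_congr (D.equivMapOfInjective κ h.inj).symm.toEquiv
  let C : Subgroup K := Subgroup.centralizer (D.map κ : Set K)
  letI : Fintype C := Fintype.ofFinite C
  have hr : ∀ x : K, (∃ y : C, C.subtype y = x) ↔ ∀ g ∈ D.map κ, g * x = x * g := by
    intro x
    constructor
    · rintro ⟨y, rfl⟩ g hg
      exact Subgroup.mem_centralizer_iff.1 y.2 g hg
    · intro hx
      exact ⟨⟨x, Subgroup.mem_centralizer_iff.2 hx⟩, rfl⟩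
  obtain ⟨η, hη, hind⟩ := Ext_main p hp 𝔪 h𝔪 hp𝔪 (D.map κ) (hA.pg.map κ) C.subtype
    (Subgroup.subtype_injective C) hr χ hχ
    (Cls_dgp h p hp 𝔪 h𝔪 hp𝔪 χ hχ θ hθ hov hst hidx D ι₀ ζ hA)
  refine ⟨C, inferInstance, inferInstance, C.subtype, η, ?_⟩
  constructor
  · exact hA.pg.map κ
  · rw [hDc, hA.card, hd]
  · exact ⟨Subgroup.subtype_injective C, hr⟩
  · exact hη
  · exact hind

private theorem Cls_nrm {N K G : Type} [Group N] [Group K] [Group G] {ι : N →* G} (h : Nrm ι)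
    (j : K →* G) (hj : Function.Injective j) (κ : N →* K) (hjκ : ∀ x, j (κ x) = ι x) : Nrm κ where
  inj := by
    intro a b hab
    apply h.inj
    rw [← hjκ, ← hjκ, hab]
  nrm k x := by
    obtain ⟨y, hy⟩ := h.nrm (j k) x
    refine ⟨y, hj ?_⟩
    rw [hjκ, hy, ← hjκ, map_mul, map_mul, map_inv]

/-- The bound for semidirect products. -/
theorem Cls_kvb (p : ℕ) (hp : p.Prime) (𝔪 : Ideal AInt) (h𝔪 : 𝔪.IsMaximal)
    (hp𝔪 : (p : AInt) ∈ 𝔪) (s : ℕ) (hs : s ≤ 3 ∨ 12 * 25 ^ (s ^ 2) ≤ p + 1) : KVB p s 1 := by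
  rcases hs with hs | hs
  · refine KeC_main p hp 𝔪 h𝔪 hp𝔪 s 1 ?_
    intro G' H' _ _ _ _ χ' D' ι' ζ' hχ' hA' hr'
    exact Adb_three p hp 𝔪 h𝔪 hp𝔪 G' H' χ' D' ι' ζ' hχ' hA'
      (hr'.trans (Nat.pow_le_pow_right hp.pos hs))
  · exact KeC_main p hp 𝔪 h𝔪 hp𝔪 s 1 (FinC_one p hp 𝔪 h𝔪 hp𝔪 s hs)

/-- The closure from a bound for the blocks of the groups between. -/
theorem Cls_up (p : ℕ) (hp : p.Prime) (𝔪 : Ideal AInt) (h𝔪 : 𝔪.IsMaximal)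
    (hp𝔪 : (p : AInt) ∈ 𝔪) {N G : Type} [Group N] [Fintype N] [Group G] [Fintype G] (θ : N → ℂ)
    (hθ : θ ∈ Irr N) (s n : ℕ) (hs : s ≤ 3 ∨ 12 * 25 ^ (s ^ 2) ≤ p + 1) {ι : N →* G}
    (h : Nrm ι) (hser : Ser p s n ι.range)
    (hB : ∀ (K : Type) [Group K] [Fintype K] (κ : N →* K), Nrm κ → ¬ p ∣ κ.range.index →
      ∀ ψ ∈ Irr K, Over κ ψ θ → (∀ g : K, ∀ h' : Nrm κ, SameBlock 𝔪 θ (tw h' g θ)) →
      (block 𝔪 ψ).ncard ≤ p ^ defect p (block 𝔪 ψ))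
    (χ : G → ℂ) (hχ : χ ∈ Irr G) (hov : Over ι χ θ) :
    (block 𝔪 χ).ncard ≤ p ^ defect p (block 𝔪 χ) := by
  have h1 := FinB_main p hp 𝔪 h𝔪 hp𝔪 s 1 1 le_rfl (Cls_kvb p hp 𝔪 h𝔪 hp𝔪 s hs) θ hθ n h hser
    (fun K _ _ j κ hj hjκ hidx χ hχ hov => by
      rw [one_mul]
      have h : Nrm κ := Cls_nrm h j hj κ hjκ
      obtain ⟨κ', ψ, hκ, hn, hψ, hov', hk, hdef⟩ := FRe_main h p hp 𝔪 h𝔪 hp𝔪 χ hχ θ hθ hov
      let _ : Fintype (StB 𝔪 h θ) := Fintype.ofFinite _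
      have htw : ∀ t : StB 𝔪 h θ, tw hn t θ = tw h (t : K) θ := by
        intro t
        funext x
        rw [tw_apply, tw_apply]
        congr 1
        apply h.inj
        rw [h.cg_spec, ← hκ, hn.cg_spec, ← hκ]
        rfl
      have hidx' : ¬ p ∣ κ'.range.index := by
        intro hdvd
        apply hidx
        have h1 := Subgroup.card_mul_index κ'.range
        have h2 := Subgroup.card_mul_index κ.range
        have h3 := Subgroup.card_mul_index (StB 𝔪 h θ)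
        have h4 : Nat.card κ'.range = Nat.card N :=
          Nat.card_congr (MonoidHom.ofInjective hn.inj).symm.toEquiv
        have h5 : Nat.card κ.range = Nat.card N :=
          Nat.card_congr (MonoidHom.ofInjective h.inj).symm.toEquiv
        have h6 : Nat.card N * κ.range.index =
            Nat.card N * (κ'.range.index * (StB 𝔪 h θ).index) := by
          rw [← mul_assoc, ← h4, h1, h3, ← h2, h5, h4]
        have h7 : κ.range.index = κ'.range.index * (StB 𝔪 h θ).index :=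
          Nat.eq_of_mul_eq_mul_left Nat.card_pos h6
        rw [h7]
        exact hdvd.trans (dvd_mul_right _ _)
      have h1 := hB (StB 𝔪 h θ) κ' hn hidx' ψ hψ hov' (fun t h' => by
        have h2 : tw h' t θ = tw hn t θ := rfl
        rw [h2, htw t]
        exact (StB_mem 𝔪 h θ t).1 t.2)
      calc (block 𝔪 χ).ncard ≤ (block 𝔪 ψ).ncard := hk
        _ ≤ p ^ defect p (block 𝔪 ψ) := h1
        _ ≤ p ^ defect p (block 𝔪 χ) := Nat.pow_le_pow_right hp.pos hdef)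
    χ hχ hov
  rwa [one_pow, one_mul, one_mul] at h1

/-- **The closure of Theorem C.** -/
theorem Cls_fin (p : ℕ) (hp : p.Prime) (𝔪 : Ideal AInt) (h𝔪 : 𝔪.IsMaximal)
    (hp𝔪 : (p : AInt) ∈ 𝔪) {N H G : Type} [Group N] [Fintype N]
    [Group H] [Fintype H] [Group G] [Fintype G] (θ : N → ℂ) (hθ : θ ∈ Irr N) (D : Subgroup N)
    (ι₀ : H →* N) (ζ : H → ℂ) (hA : DefP p 𝔪 θ D ι₀ ζ) (hcr : CR2 D) (s n : ℕ)
    (hs : s ≤ 3 ∨ 12 * 25 ^ (s ^ 2) ≤ p + 1) {ι : N →* G}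
    (h : Nrm ι) (hser : Ser p s n ι.range) (χ : G → ℂ) (hχ : χ ∈ Irr G) (hov : Over ι χ θ) :
    (block 𝔪 χ).ncard ≤ p ^ defect p (block 𝔪 χ) := by
  refine Cls_up p hp 𝔪 h𝔪 hp𝔪 θ hθ s n hs h hser (fun K _ _ κ hn hidx ψ hψ hov' hst => ?_) χ hχ hov
  obtain ⟨H', iG, iF, ι', η, hA'⟩ := Cls_main hn p hp 𝔪 h𝔪 hp𝔪 ψ hψ θ hθ hov'
    (fun g => hst g hn) hidx D ι₀ ζ hA
  obtain ⟨u, a, b, hgen, hau, hbu, hab⟩ := hcr.map κ
  exact Thc_all p hp 𝔪 h𝔪 hp𝔪 ψ hψ (D.map κ) ι' η hA' u a b hgen hau hbu hab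

/-- **The closure for blocks of defect at most three.** -/
theorem Cls_three (p : ℕ) (hp : p.Prime) (𝔪 : Ideal AInt) (h𝔪 : 𝔪.IsMaximal)
    (hp𝔪 : (p : AInt) ∈ 𝔪) {N G : Type} [Group N] [Fintype N]
    [Group G] [Fintype G] (θ : N → ℂ) (hθ : θ ∈ Irr N) (hd : defect p (block 𝔪 θ) ≤ 3) (s n : ℕ)
    (hs : s ≤ 3 ∨ 12 * 25 ^ (s ^ 2) ≤ p + 1) {ι : N →* G}
    (h : Nrm ι) (hser : Ser p s n ι.range) (χ : G → ℂ) (hχ : χ ∈ Irr G) (hov : Over ι χ θ) :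
    (block 𝔪 χ).ncard ≤ p ^ defect p (block 𝔪 χ) := by
  refine Cls_up p hp 𝔪 h𝔪 hp𝔪 θ hθ s n hs h hser (fun K _ _ κ hn hidx ψ hψ hov' hst => ?_) χ hχ hov
  exact Def3_main p hp 𝔪 h𝔪 hp𝔪 ψ hψ
    ((DfL_main hn p hp 𝔪 h𝔪 hp𝔪 ψ hψ θ hθ hov' (fun g => hst g hn) hidx).trans hd)

/-- The version with an element `u` of an abelian group `D` (compare `KBY.FinC_u`). -/
theorem Cls_u (p : ℕ) (hp : p.Prime) (𝔪 : Ideal AInt) (h𝔪 : 𝔪.IsMaximal)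
    (hp𝔪 : (p : AInt) ∈ 𝔪) {N H G : Type} [Group N] [Fintype N]
    [Group H] [Fintype H] [Group G] [Fintype G] (θ : N → ℂ) (hθ : θ ∈ Irr N) (D : Subgroup N)
    (ι₀ : H →* N) (ζ : H → ℂ) (hA : AbD p 𝔪 θ D ι₀ ζ) (r n : ℕ) {ι : N →* G} (h : Nrm ι)
    (hser : Ser p r n ι.range) (hn : r ≤ 3 ∨ 12 * 25 ^ (r ^ 2) ≤ p + 1) (u : N)
    (hu : u ∈ D)
    (e : ℕ) (he : Nat.card {g : G // g ∈ ExS 𝔪 ι D ι₀ ζ ∧ g * ι u = ι u * g} ≤
      e * Nat.card {g : G // g ∈ ExS 𝔪 ι D ι₀ ζ ∧ ∀ x ∈ D, g * ι x = ι x * g})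
    (hpe : 12 * e ≤ p + 1) (χ : G → ℂ) (hχ : χ ∈ Irr G) (hov : Over ι χ θ) :
    (block 𝔪 χ).ncard ≤ p ^ defect p (block 𝔪 χ) := by
  have h1 := FinB_main p hp 𝔪 h𝔪 hp𝔪 r 1 1 le_rfl (Cls_kvb p hp 𝔪 h𝔪 hp𝔪 r hn) θ hθ n h hser
    (fun K _ _ j κ hj hjκ hidx ψ hψ hov' => by
      rw [one_mul]
      exact UFin_main (Cls_nrm h j hj κ hjκ) h j hj hjκ p hp 𝔪 h𝔪 hp𝔪 ψ hψ θ hθ hov' hidx D ι₀ ζ
        hA u hu e he hpe) χ hχ hov
  rwa [one_pow, one_mul, one_mul] at h1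

/-- Abelian defect groups of rank `r ≤ 3`: the hypothesis of `KBY.FinC_adb` with `C = 1`. -/
theorem Cls_adb (p : ℕ) (hp : p.Prime) (𝔪 : Ideal AInt) (h𝔪 : 𝔪.IsMaximal)
    (hp𝔪 : (p : AInt) ∈ 𝔪) (r : ℕ) (hr : r ≤ 3 ∨ 12 * 25 ^ (r ^ 2) ≤ p + 1) : ADB p 𝔪 r 1 := by
  rcases hr with hr | hr
  · intro G' H' _ _ _ _ χ' D' ι' ζ' hχ' hA' hr'
    exact Adb_three p hp 𝔪 h𝔪 hp𝔪 G' H' χ' D' ι' ζ' hχ' hA'
      (hr'.trans (Nat.pow_le_pow_right hp.pos hr))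
  · exact FinC_one p hp 𝔪 h𝔪 hp𝔪 r hr

end Pool.Agent.KBD
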