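import Pool.Agent.BlkS.Dt

/-! The data of a block with an abelian defect group. -/

set_option autoImplicit false

namespace Pool.Agent.KBD

open Pool.Agent.KB Pool.Agent.KB.ContrAux Pool.Agent.KBL Pool.Agent.KBZ Pool.Agent.KBU
  Pool.Agent.KBQ

/-- The action by conjugation. -/
def cjE {K : Type} [Group K] (P T : Subgroup K)
    (hT : ∀ n ∈ T, ∀ x, x ∈ P ↔ n * x * n⁻¹ ∈ P) : T →* MulAut P where
  toFun n :=
    { toFun := fun x => ⟨n * x * (n : K)⁻¹, (hT n n.2 x).1 x.2⟩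
      invFun := fun x => ⟨(n : K)⁻¹ * x * n, by
        rw [hT n n.2]
        have h1 : (n : K) * ((n : K)⁻¹ * x * n) * (n : K)⁻¹ = x := by group
        rw [h1]
        exact x.2⟩
      left_inv := fun x => Subtype.ext (by
        show (n : K)⁻¹ * (n * x * (n : K)⁻¹) * n = x
        group)
      right_inv := fun x => Subtype.ext (by
        show (n : K) * ((n : K)⁻¹ * x * n) * (n : K)⁻¹ = x
        group)
      map_mul' := fun x y => Subtype.ext (by
        show (n : K) * (x * y) * (n : K)⁻¹ = (n * x * (n : K)⁻¹) * (n * y * (n : K)⁻¹)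
        group) }
  map_one' := by
    ext x
    show (1 : K) * x * (1 : K)⁻¹ = x
    group
  map_mul' a b := by
    ext x
    show ((a : K) * b) * x * ((a : K) * b)⁻¹ = a * (b * x * (b : K)⁻¹) * (a : K)⁻¹
    group

private theorem Dat_stb {K H : Type} [Group K] [Group H] (𝔪 : Ideal AInt) (ι : H →* K)
    (P P' : Subgroup K) (e : P = P') (h : CenOf ι P) (h' : CenOf ι P') (ζ : H → ℂ) (n : K) :
    n ∈ Stb 𝔪 h ζ ↔ n ∈ Stb 𝔪 h' ζ := by
  subst e
  exact Iff.rfl

theorem Dat_ex {K H : Type} [Group K] [Fintype K] [Group H] [Fintype H] (p : ℕ) (hp : p.Prime)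
    (𝔪 : Ideal AInt) (h𝔪 : 𝔪.IsMaximal) (hp𝔪 : (p : AInt) ∈ 𝔪) (χ₀ : K → ℂ) (hχ₀ : χ₀ ∈ Irr K)
    (P : Subgroup K) (ι : H →* K) (ζ : H → ℂ) (hA : AbD p 𝔪 χ₀ P ι ζ) :
    ∃ (D E : Type) (_ : CommGroup D) (_ : Fintype D) (_ : Group E) (_ : Fintype E)
      (_ : MulDistribMulAction E D) (A : BlkS.Dat K H D E p 𝔪 χ₀),
      A.ι = ι ∧ A.ζ = ζ ∧ A.δ.range = P := by
  classical
  set T : Subgroup K := Stb 𝔪 hA.cen ζ with hT
  have hTn : ∀ n ∈ T, ∀ x, x ∈ P ↔ n * x * n⁻¹ ∈ P := fun n hn => hn.1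
  let E : Subgroup (MulAut P) := (cjE P T hTn).range
  letI i1 : CommGroup P :=
    { (inferInstance : Group P) with
      mul_comm := fun a b => Subtype.ext (hA.com a a.2 b b.2) }
  letI i2 : Fintype P := Fintype.ofFinite _
  letI i3 : Fintype E := Fintype.ofFinite _
  have hab : AbD p 𝔪 χ₀ P.subtype.range ι ζ := by
    rw [Subgroup.range_subtype]
    exact hA
  have hch : ∀ e : E, ∃ n : T, cjE P T hTn n = (e : MulAut P) := fun e => e.2
  choose τ hτ using hch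
  have hact : ∀ (e : E) (v : P), (τ e : K) * v * (τ e : K)⁻¹ = ((e • v : P) : K) := by
    intro e v
    have h1 : ((e • v : P) : K) = (((e : MulAut P) v : P) : K) := rfl
    rw [h1, ← hτ e]
    rfl
  refine ⟨P, E, i1, i2, inferInstance, i3, inferInstance, ⟨ι, ζ, P.subtype,
    fun e => (τ e : K), hp, h𝔪, hp𝔪, hχ₀, Subtype.val_injective, hab, ?_, ?_, ?_, ?_⟩,
    rfl, rfl, Subgroup.range_subtype P⟩
  · intro e
    rw [Dat_stb 𝔪 ι _ P (Subgroup.range_subtype P) hab.cen hA.cen ζ]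
    exact (τ e).2
  · intro e v
    exact hact e v
  · intro n hn
    rw [Dat_stb 𝔪 ι _ P (Subgroup.range_subtype P) hab.cen hA.cen ζ] at hn
    refine ⟨⟨cjE P T hTn ⟨n, hn⟩, ⟨⟨n, hn⟩, rfl⟩⟩, fun v => ?_⟩
    rfl
  · intro t ht
    apply Subtype.ext
    apply MulEquiv.ext
    intro v
    exact ht v

end Pool.Agent.KBD
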