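import Pool.Agent.KBQ.Defs

/-! Families of projective characters with the property that a functional which is not zero is not
zero on at least two members. -/

set_option autoImplicit false

namespace Pool.Agent.KBD

open Pool.Agent.KB Pool.Agent.KB.ContrAux Pool.Agent.KBL Pool.Agent.KBZ Pool.Agent.KBU
  Pool.Agent.KBQ

open Classical in
/-- A family `Φ` of generalized characters in the block of `χ₀` which vanish on the `p`-singular
elements; the sum of the norms is at most `2 q`; if at most one of the inner products of `f` with the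
`Φ i` is not zero then the inner products of `f` with the restrictions to the `p`-regular elements of
the characters of the block are zero. -/
structure PrjF {K : Type} [Group K] [Fintype K] (p : ℕ) (𝔪 : Ideal AInt) (χ₀ : K → ℂ) (q N : ℕ)
    (Φ : Fin N → K → ℂ) : Prop where
  gen : ∀ i, Φ i ∈ AddSubgroup.closure (block 𝔪 χ₀)
  sing : ∀ i g, p ∣ orderOf g → Φ i g = 0
  nrm : ∑ i, ∑ g, ‖Φ i g‖ ^ 2 ≤ 2 * (q : ℝ) * (Nat.card K : ℝ)
  two : ∀ f : K → ℂ, (∀ i j, i ≠ j → ∑ g, f g * (starRingEnd ℂ) (Φ i g) = 0 ∨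
      ∑ g, f g * (starRingEnd ℂ) (Φ j g) = 0) →
    ∀ ψ ∈ block 𝔪 χ₀, ∑ g : K with ¬ p ∣ orderOf g, f g * ψ g⁻¹ = 0

end Pool.Agent.KBD
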