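import Pool.Agent.KBD.Ax
import Pool.Agent.KBD.Defs
import Pool.Agent.KBL.Orth

/-! From a block system to the projective family. Modules FPA (`Fpa_exp`), FPB (`Fpa_main`). -/

set_option autoImplicit false

namespace Pool.Agent.KBD

open Pool.Agent.KB Pool.Agent.KB.ContrAux Pool.Agent.KBL Pool.Agent.KBZ Pool.Agent.KBU
  Pool.Agent.KBQ

open Classical in
/-- MODULE FPA. Block orthogonality. PROOF. Let `φ` be the class function with the values `ψ g` on the `p`-regular elements and `0` elsewhere. `Col_main K`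
gives `X : Fin k → K → ℂ`, injective with range `Irr K`, `Res_expand` (`KBZ/Res.lean`): `|K| φ g = ∑ i, (∑ h, φ h * X i h⁻¹) * X i g`, and
`∑ h, φ h * X i h⁻¹ = T p ψ (X i)` (definition of `T` in `KB/Contr.lean`; the sum over the `p`-regular elements), which is zero if `X i` is not in the block of `ψ`
(`KBL.Orth_main`). Reindex the others by `S`. -/
theorem Fpa_exp {K : Type} [Group K] [Fintype K] (p : ℕ) (hp : p.Prime) (𝔪 : Ideal AInt)
    (h𝔪 : 𝔪.IsMaximal) (hp𝔪 : (p : AInt) ∈ 𝔪) (χ₀ : K → ℂ) (hχ₀ : χ₀ ∈ Irr K) {S : Type} [Fintype S]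
    (c : S → K → ℂ) (hc : Function.Injective c) (hr : Set.range c = block 𝔪 χ₀) (ψ : K → ℂ)
    (hψ : ψ ∈ block 𝔪 χ₀) (g : K) :
    ∑ χ : S, ((Nat.card K : ℂ)⁻¹ * ∑ x : K with ¬ p ∣ orderOf x, (starRingEnd ℂ) (c χ x) * ψ x) *
      c χ g = if p ∣ orderOf g then 0 else ψ g := by
  obtain ⟨k, X, hXinj, hXr, h1, h2⟩ := Col_main K
  set φ : K → ℂ := fun g => if p ∣ orderOf g then 0 else ψ g with hφdef
  have hφ : ∀ y z : K, IsConj y z → φ y = φ z := by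
    intro y z hyz
    rw [hφdef]
    simp only [orderOf_conj hyz, irr_conj hψ.1 hyz]
  have hNC : (Nat.card K : ℂ) ≠ 0 := by
    have : 0 < Nat.card K := Nat.card_pos
    exact_mod_cast this.ne'
  have hcI : ∀ χ, c χ ∈ block 𝔪 χ₀ := fun χ => by rw [← hr]; exact ⟨χ, rfl⟩
  have hex : ∀ χ : S, ∃ i, X i = c χ := by
    intro χ
    have : c χ ∈ Set.range X := by rw [hXr]; exact (hcI χ).1
    exact this
  choose e he using hex
  have hinj : Function.Injective e := by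
    intro a b hab
    apply hc
    rw [← he a, ← he b, hab]
  have hfil : ∀ χ : K → ℂ, ∑ z : K, φ z * χ z⁻¹ = T p ψ χ := by
    intro χ
    unfold T
    rw [Finset.sum_filter]
    refine Finset.sum_congr rfl fun z _ => ?_
    rw [hφdef]
    by_cases hz : p ∣ orderOf z
    · simp [hz]
    · simp [hz]
  have h3 := Res_expand φ hφ X h1 h2 g
  have h4 : ∑ i, (∑ z : K, φ z * X i z⁻¹) * X i g = ∑ χ : S, T p ψ (c χ) * c χ g := by
    symm
    refine Fintype.sum_of_injective e hinj _ _ (fun i hi => ?_) (fun χ => ?_)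
    · have hne : X i ∉ block 𝔪 ψ := by
        intro hb
        have hb' : X i ∈ block 𝔪 χ₀ := by
          refine ⟨hb.1, fun x => ?_⟩
          obtain ⟨u, hu, hu'⟩ := hψ.2 x
          obtain ⟨v, hv, hv'⟩ := hb.2 x
          refine ⟨u + v, 𝔪.add_mem hu hv, ?_⟩
          push_cast
          rw [hu', hv']
          ring
        rw [← hr] at hb'
        obtain ⟨χ, hχ⟩ := hb'
        exact hi ⟨χ, hXinj (by rw [he, hχ])⟩
      rw [hfil, Orth_main p hp 𝔪 h𝔪 hp𝔪 ψ (X i) hψ.1 (by rw [← hXr]; exact ⟨i, rfl⟩) hne, zero_mul]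
    · rw [hfil, he]
  rw [h4] at h3
  have h5 : ∀ χ : S, ((Nat.card K : ℂ)⁻¹ * ∑ x : K with ¬ p ∣ orderOf x,
      (starRingEnd ℂ) (c χ x) * ψ x) * c χ g = (Nat.card K : ℂ)⁻¹ * (T p ψ (c χ) * c χ g) := by
    intro χ
    rw [mul_assoc]
    congr 2
    unfold T
    refine Finset.sum_congr rfl fun x _ => ?_
    rw [irr_inv (hcI χ).1, mul_comm]
  rw [Finset.sum_congr rfl fun χ _ => h5 χ, ← Finset.mul_sum, ← h3, inv_mul_cancel_left₀ hNC]

open Classical in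
private theorem fpb_norm {K S : Type} [Group K] [Fintype K] [Fintype S] (c : S → K → ℂ)
    (hc : Function.Injective c) (hI : ∀ χ, c χ ∈ Irr K) (n : S → ℤ) :
    ∑ g : K, ‖∑ χ, (n χ : ℂ) * c χ g‖ ^ 2 = (Nat.card K : ℝ) * ((∑ χ, n χ ^ 2 : ℤ) : ℝ) := by
  have key : ((∑ g : K, ‖∑ χ, (n χ : ℂ) * c χ g‖ ^ 2 : ℝ) : ℂ) =
      (((Nat.card K : ℝ) * ((∑ χ, n χ ^ 2 : ℤ) : ℝ) : ℝ) : ℂ) := by
    push_cast
    have e1 : ∀ g : K, ((‖∑ χ, (n χ : ℂ) * c χ g‖ : ℝ) : ℂ) ^ 2 =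
        ∑ χ, ∑ ψ, (n χ : ℂ) * (n ψ : ℂ) * (c χ g * c ψ g⁻¹) := by
      intro g
      rw [← Complex.mul_conj', map_sum, Finset.sum_mul_sum]
      refine Finset.sum_congr rfl fun χ _ => Finset.sum_congr rfl fun ψ _ => ?_
      rw [map_mul, map_intCast, ← irr_inv (hI ψ)]
      ring
    rw [Finset.sum_congr rfl fun g _ => e1 g, Finset.sum_comm, Finset.mul_sum]
    refine Finset.sum_congr rfl fun χ _ => ?_
    rw [Finset.sum_comm, Finset.sum_eq_single χ]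
    · rw [← Finset.mul_sum, (Col_row (c χ) (c χ) (hI χ) (hI χ)).1 rfl]
      ring
    · intro ψ _ hne
      rw [← Finset.mul_sum, (Col_row (c χ) (c ψ) (hI χ) (hI ψ)).2 fun h => hne (hc h).symm,
        mul_zero]
    · intro h
      exact absurd (Finset.mem_univ _) h
  exact_mod_cast key

open Classical in
/-- MODULE FPB. PROOF. `Ax_main` gives `n`; `Φ i = ∑ χ, n i χ • c χ`. `gen`: `AddSubgroup.sum_mem`, `zsmul_mem`. `sing`: `hsg` and linearity: `Φ i g =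
∑ j, L j (∑ χ, n i χ • dd χ (v j)) = 0`. `nrm`: `∑ g, ‖Φ i g‖² = |K| ∑ χ, n i χ²` by `Col_row` (`conj (χ g) = χ g⁻¹`, `irr_inv`). `two`: let `a χ = ∑ g, f g * conj (c χ g)`; then
`∑ χ, a χ * n i χ = ∑ g, f g * conj (Φ i g)`; so `Ax_main` gives `∑ χ, a χ * inner (o χ) (o ψ') = 0` for the `ψ'` with `c ψ' = ψ`; insert `hin` and `Fpa_exp` (for `g⁻¹`; `conj (c χ g) = c χ g⁻¹`): it is
`∑ g, f g * (if p ∣ orderOf g then 0 else ψ g⁻¹)`. -/
theorem Fpa_main {K : Type} [Group K] [Fintype K] (p : ℕ) (hp : p.Prime) (𝔪 : Ideal AInt)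
    (h𝔪 : 𝔪.IsMaximal) (hp𝔪 : (p : AInt) ∈ 𝔪) (χ₀ : K → ℂ) (hχ₀ : χ₀ ∈ Irr K)
    {D E Ω V : Type} [CommGroup D] [Fintype D] [Group E] [Fintype E]
    [MulDistribMulAction E D] [Fintype Ω] [NormedAddCommGroup V] [InnerProductSpace ℂ V]
    (B : Pool.Agent.MSy.BSys p D E Ω V) (deg : V →ₗ[ℂ] ℂ) (H : Pool.Agent.Frb.Hyp B deg)
    (c : {χ : Ω // B.lev χ = ⊥} → K → ℂ) (hc : Function.Injective c)
    (hr : Set.range c = block 𝔪 χ₀)
    (hin : ∀ χ ψ : {χ : Ω // B.lev χ = ⊥}, (inner ℂ (B.o χ.1) (B.o ψ.1) : ℂ) =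
      (Nat.card K : ℂ)⁻¹ * ∑ g : K with ¬ p ∣ orderOf g, (starRingEnd ℂ) (c χ g) * c ψ g)
    (hsg : ∀ g : K, p ∣ orderOf g → ∃ (m : ℕ) (v : Fin m → D) (L : Fin m → V →ₗ[ℂ] ℂ),
      (∀ j, v j ≠ 1) ∧ ∀ χ : {χ : Ω // B.lev χ = ⊥}, c χ g = ∑ j, L j (B.dd χ.1 (v j))) :
    ∃ (N : ℕ) (Φ : Fin N → K → ℂ), PrjF p 𝔪 χ₀ (Nat.card D) N Φ := by
  obtain ⟨N, n, hn1, hn2, hn3⟩ := Pool.Agent.KBD.Ax_main H
  have hcI : ∀ χ, c χ ∈ block 𝔪 χ₀ := fun χ => by rw [← hr]; exact ⟨χ, rfl⟩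
  refine ⟨N, fun i g => ∑ χ, (n i χ : ℂ) * c χ g, ?_, ?_, ?_, ?_⟩
  · intro i
    have h1 : (fun g => ∑ χ, (n i χ : ℂ) * c χ g) = ∑ χ, n i χ • c χ := by
      funext g
      rw [Finset.sum_apply]
      refine Finset.sum_congr rfl fun χ _ => ?_
      rw [Pi.smul_apply, zsmul_eq_mul]
    rw [h1]
    exact AddSubgroup.sum_mem _ fun χ _ =>
      AddSubgroup.zsmul_mem _ (AddSubgroup.subset_closure (hcI χ)) _
  · intro i g hg
    obtain ⟨m, v, L, hv, hL⟩ := hsg g hg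
    show ∑ χ, (n i χ : ℂ) * c χ g = 0
    have h1 : ∀ χ, (n i χ : ℂ) * c χ g = ∑ j, L j ((n i χ : ℂ) • B.dd χ.1 (v j)) := by
      intro χ
      rw [hL, Finset.mul_sum]
      refine Finset.sum_congr rfl fun j _ => ?_
      rw [map_smul, smul_eq_mul]
    rw [Finset.sum_congr rfl fun χ _ => h1 χ, Finset.sum_comm]
    refine Finset.sum_eq_zero fun j _ => ?_
    rw [← map_sum, hn1 i (v j) (hv j), map_zero]
  · have h1 : ∀ i, ∑ g : K, ‖∑ χ, (n i χ : ℂ) * c χ g‖ ^ 2 =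
        (Nat.card K : ℝ) * ((∑ χ, n i χ ^ 2 : ℤ) : ℝ) := fun i =>
      fpb_norm c hc (fun χ => (hcI χ).1) (n i)
    rw [Finset.sum_congr rfl fun i _ => h1 i, ← Finset.mul_sum]
    have h2 : (∑ i, ((∑ χ, n i χ ^ 2 : ℤ) : ℝ)) ≤ 2 * (Nat.card D : ℝ) := by
      exact_mod_cast hn2
    have h3 : (0 : ℝ) ≤ (Nat.card K : ℝ) := Nat.cast_nonneg _
    calc (Nat.card K : ℝ) * ∑ i, ((∑ χ, n i χ ^ 2 : ℤ) : ℝ)
        ≤ (Nat.card K : ℝ) * (2 * (Nat.card D : ℝ)) := mul_le_mul_of_nonneg_left h2 h3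
      _ = 2 * (Nat.card D : ℝ) * (Nat.card K : ℝ) := by ring
  · intro f hf ψ hψ
    have hψ' := hψ
    rw [← hr] at hψ'
    obtain ⟨ψ', rfl⟩ := hψ'
    have e1 : ∀ i, ∑ χ, (∑ g, f g * (starRingEnd ℂ) (c χ g)) * (n i χ : ℂ) =
        ∑ g, f g * (starRingEnd ℂ) (∑ χ, (n i χ : ℂ) * c χ g) := by
      intro i
      simp only [Finset.sum_mul, map_sum, Finset.mul_sum]
      rw [Finset.sum_comm]
      refine Finset.sum_congr rfl fun g _ => Finset.sum_congr rfl fun χ _ => ?_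
      rw [map_mul, map_intCast]
      ring
    have h1 := hn3 (fun χ => ∑ g, f g * (starRingEnd ℂ) (c χ g))
      (fun i j hij => by
        rw [e1 i, e1 j]
        exact hf i j hij) ψ'.1 ψ'.2
    have h2 : ∀ χ : {χ : Ω // B.lev χ = ⊥}, (∑ g, f g * (starRingEnd ℂ) (c χ g)) *
        (inner ℂ (B.o χ.1) (B.o ψ'.1) : ℂ) = ∑ g, f g *
        (((Nat.card K : ℂ)⁻¹ * ∑ x : K with ¬ p ∣ orderOf x,
          (starRingEnd ℂ) (c χ x) * c ψ' x) * c χ g⁻¹) := by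
      intro χ
      rw [hin χ ψ', Finset.sum_mul]
      refine Finset.sum_congr rfl fun g _ => ?_
      rw [irr_inv (hcI χ).1]
      ring
    rw [Finset.sum_congr rfl fun χ _ => h2 χ, Finset.sum_comm] at h1
    have h3 : ∀ g : K, ∑ χ : {χ : Ω // B.lev χ = ⊥}, f g *
        (((Nat.card K : ℂ)⁻¹ * ∑ x : K with ¬ p ∣ orderOf x,
          (starRingEnd ℂ) (c χ x) * c ψ' x) * c χ g⁻¹) =
        if ¬ p ∣ orderOf g then f g * c ψ' g⁻¹ else 0 := by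
      intro g
      rw [← Finset.mul_sum, Fpa_exp p hp 𝔪 h𝔪 hp𝔪 χ₀ hχ₀ c hc hr (c ψ') hψ g⁻¹, orderOf_inv]
      by_cases hg : p ∣ orderOf g
      · rw [if_pos hg, if_neg (not_not.2 hg), mul_zero]
      · rw [if_neg hg, if_pos hg]
    rw [Finset.sum_congr rfl fun g _ => h3 g, ← Finset.sum_filter] at h1
    exact h1

end Pool.Agent.KBD
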