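import Pool.Agent.KBD.Dat
import Pool.Agent.KBD.Fpa
import Pool.Agent.BlkS.Out

/-! The projective family of a block with an abelian defect group and a free action. -/

set_option autoImplicit false

namespace Pool.Agent.KBD

open Pool.Agent.KB Pool.Agent.KB.ContrAux Pool.Agent.KBL Pool.Agent.KBZ Pool.Agent.KBU
  Pool.Agent.KBQ

open Classical in
theorem Fpr_dat {K H D E : Type} [Group K] [Fintype K] [Group H] [Fintype H] [CommGroup D]
    [Fintype D] [Group E] [Fintype E] [MulDistribMulAction E D] (p : ℕ) (𝔪 : Ideal AInt)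
    (χ₀ : K → ℂ) (A : BlkS.Dat K H D E p 𝔪 χ₀) (hnt : A.δ.range ≠ ⊥)
    (hfree : ∀ n ∈ Stb 𝔪 A.ab.cen A.ζ, ∀ v ∈ A.δ.range, v ≠ 1 → n * v = v * n →
      ∀ x ∈ A.δ.range, n * x = x * n) :
    ∃ (N : ℕ) (Φ : Fin N → K → ℂ), PrjF p 𝔪 χ₀ (Nat.card D) N Φ := by
  have hm : 𝔪.IsMaximal := A.hm
  -- the hypotheses of the free case
  have H : Pool.Agent.Frb.Hyp A.sys A.dg := by
    refine ⟨?_, ?_, ?_, ?_, ?_⟩
    · intro S hS
      rw [eq_bot_iff]
      intro t ht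
      rw [Subgroup.mem_bot]
      obtain ⟨v, hv, hv1⟩ : ∃ v : D, v ∈ S ∧ v ≠ 1 := by
        by_contra hcon
        push Not at hcon
        apply hS
        rw [eq_bot_iff]
        intro v hv
        exact (Subgroup.mem_bot).2 (hcon v hv)
      apply A.faith
      intro w
      have h1 := A.tact t v
      rw [ht v hv] at h1
      have h2 : A.τ t * A.δ v = A.δ v * A.τ t := mul_inv_eq_iff_eq_mul.1 h1
      have h3 : A.δ (v : D) ≠ 1 := by
        intro h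
        apply hv1
        apply A.dinj
        rw [h, map_one]
      have h4 := hfree (A.τ t) (A.tmem t) (A.δ v) ⟨v, rfl⟩ h3 h2 (A.δ w) ⟨w, rfl⟩
      have h5 := A.tact t w
      rw [h4, mul_inv_cancel_right] at h5
      exact (A.dinj h5).symm
    · intro χ
      exact A.dg_pos χ
    · intro t x
      exact A.dg_av t x
    · exact A.hz
    · rw [nontrivial_iff]
      by_contra hcon
      push Not at hcon
      apply hnt
      rw [eq_bot_iff]
      rintro _ ⟨v, rfl⟩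
      rw [hcon v 1, map_one]
      exact Subgroup.one_mem _
  have hbot : ∀ χ : {χ : A.Om // A.sys.lev χ = ⊥}, A.IsB ⊥ (A.fn χ.1) := by
    intro χ
    have h1 := A.fn_isB χ.1
    rwa [show A.lev χ.1 = ⊥ from χ.2] at h1
  refine Fpa_main p A.hp 𝔪 A.hm A.hpm χ₀ A.irr₀ A.sys A.dg H (fun χ => A.fn χ.1) ?_ ?_ ?_ ?_
  · intro χ ψ h
    exact Subtype.ext (A.Om_ext (χ.2.trans ψ.2.symm) h)
  · ext f
    rw [Set.mem_range]
    constructor
    · rintro ⟨χ, rfl⟩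
      exact (A.isB_bot _).1 (hbot χ)
    · intro hf
      exact ⟨⟨⟨(⊥, f), (A.isB_bot f).2 hf⟩, rfl⟩, rfl⟩
  · intro χ ψ
    have h1 := A.inner_ov χ.1 ψ.1
    rw [if_pos (show A.lev χ.1 = A.lev ψ.1 from χ.2.trans ψ.2.symm)] at h1
    have h2 : Nat.card (A.cs (A.lev χ.1)) = Nat.card K := by
      rw [show A.lev χ.1 = ⊥ from χ.2]
      exact Nat.card_congr (Equiv.subtypeUnivEquiv fun g => A.cs_bot g)
    rw [h2] at h1
    exact h1
  · intro g hg
    obtain ⟨L, hL1, hL, -, -⟩ := A.fun_sing g hg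
    let F := {v : D // v ≠ 1}
    let e := Fintype.equivFin F
    refine ⟨Fintype.card F, fun j => (e.symm j).1, fun j => L (e.symm j).1,
      fun j => (e.symm j).2, fun χ => ?_⟩
    show A.fn χ.1 g = _
    rw [hL χ.1 χ.2]
    rw [Equiv.sum_comp e.symm (fun v : F => L v.1 (A.sys.dd χ.1 v.1))]
    have h1 := Finset.sum_subtype (F := inferInstanceAs (Fintype F)) (p := fun v : D => v ≠ 1)
      (Finset.univ.filter fun v : D => v ≠ 1) (fun v => by simp)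
      (fun v => L v (A.sys.dd χ.1 v))
    rw [← h1]
    symm
    refine Finset.sum_subset (Finset.filter_subset _ _) fun v _ hv => ?_
    have h2 : v = 1 := by
      by_contra h3
      exact hv (Finset.mem_filter.2 ⟨Finset.mem_univ _, h3⟩)
    rw [h2, hL1]
    rfl

theorem Fpr_main {K H : Type} [Group K] [Fintype K] [Group H] [Fintype H] (p : ℕ) (hp : p.Prime)
    (𝔪 : Ideal AInt) (h𝔪 : 𝔪.IsMaximal) (hp𝔪 : (p : AInt) ∈ 𝔪) (χ₀ : K → ℂ) (hχ₀ : χ₀ ∈ Irr K)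
    (P : Subgroup K) (ι : H →* K) (ζ : H → ℂ) (hA : AbD p 𝔪 χ₀ P ι ζ) (hnt : P ≠ ⊥)
    (hfree : ∀ n ∈ Stb 𝔪 hA.cen ζ, ∀ v ∈ P, v ≠ 1 → n * v = v * n → ∀ x ∈ P, n * x = x * n) :
    ∃ (N : ℕ) (Φ : Fin N → K → ℂ), PrjF p 𝔪 χ₀ (Nat.card P) N Φ := by
  obtain ⟨D, E, i1, i2, i3, i4, i5, A, rfl, rfl, rfl⟩ :=
    Dat_ex p hp 𝔪 h𝔪 hp𝔪 χ₀ hχ₀ P ι ζ hA
  have h1 : Nat.card A.δ.range = Nat.card D :=
    (Nat.card_congr (A.δ.ofInjective A.dinj).toEquiv).symm
  rw [h1]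
  exact Fpr_dat p 𝔪 χ₀ A hnt hfree

end Pool.Agent.KBD
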