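import Pool.Agent.KBD.Tra
import Pool.Agent.KBQ.IndA

/-! Transfer of projective characters of `C_G(u) / <u>` to `G`: the count. -/

set_option autoImplicit false

namespace Pool.Agent.KBD

open Pool.Agent.KB Pool.Agent.KB.ContrAux Pool.Agent.KBL Pool.Agent.KBZ Pool.Agent.KBU
  Pool.Agent.KBQ

open Classical in
/-- The coefficients. -/
noncomputable def sj {G Q : Type} [Group G] [Group Q] (p : ℕ) (u : G) (C : Subgroup G)
    [Fintype C] (π : C →* Q) (j : ℕ) (χ : G → ℂ) (Φ : Q → ℂ) : ℂ :=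
  ∑ y : C with ¬ p ∣ orderOf y, χ (u ^ j * (y : G)) * (starRingEnd ℂ) (Φ (π y))

section

variable {G Q : Type} [Group G] [Fintype G] [Group Q] [Fintype Q]

omit [Fintype G] [Fintype Q] in
theorem Trb_z (u : G) (C : Subgroup G)
    (hC : ∀ g : G, g ∈ C ↔ g * u = u * g) (π : C →* Q)
    (hker : ∀ x : C, π x = 1 ↔ (x : G) ∈ Subgroup.zpowers u) :
    orderOf (⟨u, (hC u).2 rfl⟩ : C) = orderOf u ∧
      (∀ y : C, y * ⟨u, (hC u).2 rfl⟩ = ⟨u, (hC u).2 rfl⟩ * y) ∧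
      ∀ x : C, π x = 1 ↔ x ∈ Subgroup.zpowers (⟨u, (hC u).2 rfl⟩ : C) := by
  refine ⟨?_, ?_, ?_⟩
  · exact (orderOf_injective C.subtype C.subtype_injective ⟨u, (hC u).2 rfl⟩).symm
  · intro y
    exact Subtype.ext ((hC y).1 y.2)
  · intro x
    rw [hker, Subgroup.mem_zpowers_iff, Subgroup.mem_zpowers_iff]
    constructor
    · rintro ⟨k, hk⟩
      exact ⟨k, Subtype.ext (by simpa using hk)⟩
    · rintro ⟨k, hk⟩
      refine ⟨k, ?_⟩
      rw [← hk]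
      simp

open Classical in
/-- The coefficients are Fourier sums of integers. -/
theorem Trb_coef (p m : ℕ) (hp : p.Prime)
    (u : G) (hu : orderOf u = p ^ (m + 1)) (C : Subgroup G) [Fintype C]
    (hC : ∀ g : G, g ∈ C ↔ g * u = u * g) (π : C →* Q) (hπ : Function.Surjective π)
    (hker : ∀ x : C, π x = 1 ↔ (x : G) ∈ Subgroup.zpowers u)
    (η : ℂ) (hη : IsPrimitiveRoot η (p * p ^ m)) (χ : G → ℂ) (hχ : χ ∈ Irr G)
    (Φ : Q → ℂ) (hΦ : Φ ∈ AddSubgroup.closure (Irr Q)) (hs : ∀ q, p ∣ orderOf q → Φ q = 0) :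
    ∃ b : Fin (p ^ m) → Fin p → ℤ, ∀ j, sj p u C π j χ Φ = (Nat.card Q : ℂ) *
      ∑ r : Fin (p ^ m), ∑ t : Fin p,
        η ^ (j * ((r : ℕ) + p ^ m * (t : ℕ))) * (b r t : ℂ) := by
  obtain ⟨hz, hcen, hker'⟩ := Trb_z u C hC π hker
  rw [hu] at hz
  obtain ⟨K, X, hXinj, hX, h1, h2⟩ := Col_main C
  have hXI : ∀ i, X i ∈ Irr C := fun i => hX ▸ Set.mem_range_self i
  have hexp := Res_expand (fun y : C => χ (y : G)) (fun y w h => irr_conj hχ
    ((C.subtype).map_isConj h)) X h1 h2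
  have hNC : (Nat.card C : ℂ) ≠ 0 := by
    have : 0 < Nat.card C := Nat.card_pos
    exact_mod_cast this.ne'
  have hmu := fun i => Res_mult C χ hχ (X i) (hXI i)
  choose ν hν using hmu
  have hval : ∀ y : C, χ (y : G) = ∑ i, (ν i : ℂ) * X i y := by
    intro y
    have h3 := hexp y
    have h4 : ∑ i, (∑ z : C, χ (z : G) * X i z⁻¹) * X i y =
        (Nat.card C : ℂ) * ∑ i, (ν i : ℂ) * X i y := by
      rw [Finset.mul_sum]
      refine Finset.sum_congr rfl fun i _ => ?_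
      rw [← hν i]
      ring
    have h5 : (Nat.card C : ℂ) * χ (y : G) = (Nat.card C : ℂ) * ∑ i, (ν i : ℂ) * X i y :=
      h3.trans h4
    exact mul_left_cancel₀ hNC h5
  have hord : (⟨u, (hC u).2 rfl⟩ : C) ^ (p * p ^ m) = 1 := by
    rw [show p * p ^ m = p ^ (m + 1) by rw [pow_succ]; ring, ← hz]
    exact pow_orderOf_eq_one _
  have hcent : ∀ i : Fin K, ∃ (r : Fin (p ^ m)) (t : Fin p), ∀ (j : ℕ) (y : C),
      X i ((⟨u, (hC u).2 rfl⟩ : C) ^ j * y) =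
        η ^ (j * ((r : ℕ) + p ^ m * (t : ℕ))) * X i y := fun i =>
    Cent_main (⟨u, (hC u).2 rfl⟩ : C) hcen p (p ^ m) hp.pos (pow_pos hp.pos m) hord η hη (X i)
      (hXI i)
  choose er et he using hcent
  have hint := fun i => Tra_int p (m + 1) hp π hπ _ hz hcen hker' (X i) (hXI i) Φ hΦ hs
  choose bb hbb using hint
  refine ⟨fun r t => ∑ i, if er i = r ∧ et i = t then (ν i : ℤ) * bb i else 0, fun j => ?_⟩
  have hsum : ∑ r : Fin (p ^ m), ∑ t : Fin p, η ^ (j * ((r : ℕ) + p ^ m * (t : ℕ))) *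
      ((∑ i, if er i = r ∧ et i = t then (ν i : ℤ) * bb i else 0 : ℤ) : ℂ) =
      ∑ i, η ^ (j * ((er i : ℕ) + p ^ m * (et i : ℕ))) * ((ν i : ℂ) * (bb i : ℂ)) := by
    have h3 : ∀ (r : Fin (p ^ m)) (t : Fin p), η ^ (j * ((r : ℕ) + p ^ m * (t : ℕ))) *
        ((∑ i, if er i = r ∧ et i = t then (ν i : ℤ) * bb i else 0 : ℤ) : ℂ) =
        ∑ i, if er i = r ∧ et i = t then
          η ^ (j * ((er i : ℕ) + p ^ m * (et i : ℕ))) * ((ν i : ℂ) * (bb i : ℂ)) else 0 := by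
      intro r t
      rw [Int.cast_sum, Finset.mul_sum]
      refine Finset.sum_congr rfl fun i _ => ?_
      split_ifs with h
      · rw [h.1, h.2]
        push_cast
        ring
      · rw [Int.cast_zero, mul_zero]
    calc ∑ r : Fin (p ^ m), ∑ t : Fin p, η ^ (j * ((r : ℕ) + p ^ m * (t : ℕ))) *
        ((∑ i, if er i = r ∧ et i = t then (ν i : ℤ) * bb i else 0 : ℤ) : ℂ)
        = ∑ r : Fin (p ^ m), ∑ t : Fin p, ∑ i, if er i = r ∧ et i = t then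
          η ^ (j * ((er i : ℕ) + p ^ m * (et i : ℕ))) * ((ν i : ℂ) * (bb i : ℂ)) else 0 :=
          Finset.sum_congr rfl fun r _ => Finset.sum_congr rfl fun t _ => h3 r t
      _ = ∑ r : Fin (p ^ m), ∑ i, ∑ t : Fin p, (if er i = r ∧ et i = t then
          η ^ (j * ((er i : ℕ) + p ^ m * (et i : ℕ))) * ((ν i : ℂ) * (bb i : ℂ)) else 0) :=
          Finset.sum_congr rfl fun r _ => Finset.sum_comm
      _ = ∑ i, ∑ r : Fin (p ^ m), ∑ t : Fin p, (if er i = r ∧ et i = t then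
          η ^ (j * ((er i : ℕ) + p ^ m * (et i : ℕ))) * ((ν i : ℂ) * (bb i : ℂ)) else 0) :=
          Finset.sum_comm
      _ = _ := by
        refine Finset.sum_congr rfl fun i _ => ?_
        rw [Finset.sum_eq_single (er i), Finset.sum_eq_single (et i), if_pos ⟨rfl, rfl⟩]
        · intro t _ ht
          rw [if_neg (fun h => ht h.2.symm)]
        · intro h
          exact absurd (Finset.mem_univ _) h
        · intro r _ hr
          refine Finset.sum_eq_zero fun t _ => ?_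
          rw [if_neg (fun h => hr h.1.symm)]
        · intro h
          exact absurd (Finset.mem_univ _) h
  rw [hsum]
  unfold sj
  have h3 : ∀ y : C, χ (u ^ j * (y : G)) * (starRingEnd ℂ) (Φ (π y)) =
      ∑ i, η ^ (j * ((er i : ℕ) + p ^ m * (et i : ℕ))) * (ν i : ℂ) *
        (X i y * (starRingEnd ℂ) (Φ (π y))) := by
    intro y
    have h4 : u ^ j * (y : G) = (((⟨u, (hC u).2 rfl⟩ : C) ^ j * y : C) : G) := by
      simp
    rw [h4, hval, Finset.sum_mul]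
    refine Finset.sum_congr rfl fun i _ => ?_
    rw [he i j y]
    ring
  rw [Finset.sum_congr rfl fun y _ => h3 y, Finset.sum_comm, Finset.mul_sum]
  refine Finset.sum_congr rfl fun i _ => ?_
  rw [← Finset.mul_sum, hbb i]
  ring

open Classical in
/-- Bessel's inequality. -/
theorem Trb_bess (p m : ℕ) (hp : p.Prime)
    (u : G) (hu : orderOf u = p ^ (m + 1)) (C : Subgroup G) [Fintype C]
    (hC : ∀ g : G, g ∈ C ↔ g * u = u * g) (π : C →* Q) (hπ : Function.Surjective π)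
    (hker : ∀ x : C, π x = 1 ↔ (x : G) ∈ Subgroup.zpowers u)
    (Φ : Q → ℂ) (hΦ : Φ ∈ AddSubgroup.closure (Irr Q)) (hs : ∀ q, p ∣ orderOf q → Φ q = 0)
    (j : ℕ) (hj : ¬ p ∣ j) {k : ℕ} (χ : Fin k → G → ℂ) (hinj : Function.Injective χ)
    (hχ : ∀ i, χ i ∈ Irr G) :
    ∑ i, ‖sj p u C π j (χ i) Φ‖ ^ 2 ≤ (p : ℝ) ^ (m + 1) * (Nat.card Q : ℝ) *
      ∑ q, ‖Φ q‖ ^ 2 := by
  obtain ⟨hz, hcen, hker'⟩ := Trb_z u C hC π hker
  rw [hu] at hz
  have h1 := Bess_main p (m + 1) hp u (by rw [← hu]; exact pow_orderOf_eq_one u) C hC j hj χ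
    hinj hχ (fun y => Φ (π y)) (fun y z h => Tra_class Φ hΦ _ _ (π.map_isConj h))
  have h2 := Tra_fib p (m + 1) hp π hπ _ hz hcen hker' (fun q => ‖Φ q‖ ^ 2) (fun q hq => by
    rw [hs q hq, norm_zero]
    norm_num)
  have h3 : (Nat.card C : ℝ) = (p : ℝ) ^ (m + 1) * (Nat.card Q : ℝ) := by
    rw [In2_order p (m + 1) π hπ _ hz hker']
    push_cast
    ring
  rw [← h3, ← h2]
  exact h1

private theorem Trb_sq (p : ℕ) (hp : 1 ≤ p) (f : Fin p → ℤ) (t₀ t₁ : Fin p) (h : f t₀ ≠ f t₁) :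
    2 * ((p : ℤ) - 1) ≤ ∑ t, ∑ t', (f t - f t') ^ 2 := by
  have h1 := LnX_pairs p f t₀ t₁ h
  rw [← Finset.sum_product' Finset.univ Finset.univ (fun t t' => (f t - f t') ^ 2)]
  rw [Finset.univ_product_univ]
  have h2 : ∑ z ∈ (Finset.univ.filter fun z : Fin p × Fin p => f z.1 ≠ f z.2), (1 : ℤ) ≤
      ∑ z ∈ (Finset.univ.filter fun z : Fin p × Fin p => f z.1 ≠ f z.2), (f z.1 - f z.2) ^ 2 := by
    refine Finset.sum_le_sum fun z hz => ?_
    have h3 : f z.1 - f z.2 ≠ 0 := sub_ne_zero.2 (Finset.mem_filter.1 hz).2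
    have h4 : 0 < (f z.1 - f z.2) ^ 2 := by positivity
    omega
  have h3 : ∑ z ∈ (Finset.univ.filter fun z : Fin p × Fin p => f z.1 ≠ f z.2),
      (f z.1 - f z.2) ^ 2 ≤ ∑ z : Fin p × Fin p, (f z.1 - f z.2) ^ 2 :=
    Finset.sum_le_sum_of_subset_of_nonneg (Finset.filter_subset _ _) fun z _ _ => sq_nonneg _
  rw [Finset.sum_const, nsmul_eq_mul, mul_one] at h2
  have h4 : ((2 * (p - 1) : ℕ) : ℤ) = 2 * ((p : ℤ) - 1) := by
    push_cast [Nat.cast_sub hp]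
    ring
  rw [← h4]
  have h5 : ((2 * (p - 1) : ℕ) : ℤ) ≤
      ((Finset.univ.filter fun z : Fin p × Fin p => f z.1 ≠ f z.2).card : ℤ) := by
    exact_mod_cast h1
  exact h5.trans (h2.trans h3)

/-- Fourier sums of integers are large. -/
theorem Trb_four (p m : ℕ) (hp : p.Prime) (η : ℂ) (hη : IsPrimitiveRoot η (p * p ^ m))
    (b : Fin (p ^ m) → Fin p → ℤ) (j₀ : ℕ)
    (hj₀ : j₀ ∈ (Finset.range (p * p ^ m)).filter (fun j => ¬ p ∣ j))
    (h : ∑ r : Fin (p ^ m), ∑ t : Fin p,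
      η ^ (j₀ * ((r : ℕ) + p ^ m * (t : ℕ))) * (b r t : ℂ) ≠ 0) :
    ((p : ℝ) - 1) * (p : ℝ) ^ m ≤ ∑ j ∈ (Finset.range (p * p ^ m)).filter (fun j => ¬ p ∣ j),
      ‖∑ r : Fin (p ^ m), ∑ t : Fin p,
        η ^ (j * ((r : ℕ) + p ^ m * (t : ℕ))) * (b r t : ℂ)‖ ^ 2 := by
  have h1 := Four_main p (p ^ m) hp (pow_pos hp.pos m) η hη (fun r t => (b r t : ℝ))
  have h2 : ∀ j, ‖∑ r : Fin (p ^ m), ∑ t : Fin p,
      η ^ (j * ((r : ℕ) + p ^ m * (t : ℕ))) * (((b r t : ℝ)) : ℂ)‖ ^ 2 =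
      ‖∑ r : Fin (p ^ m), ∑ t : Fin p,
      η ^ (j * ((r : ℕ) + p ^ m * (t : ℕ))) * (b r t : ℂ)‖ ^ 2 := by
    intro j
    simp only [Complex.ofReal_intCast]
  simp only [h2] at h1
  by_cases hc : ∀ r t t', b r t = b r t'
  · exfalso
    have h3 : ∑ r : Fin (p ^ m), ∑ t : Fin p, ∑ t' : Fin p, ((b r t : ℝ) - (b r t' : ℝ)) ^ 2
        = 0 := by
      refine Finset.sum_eq_zero fun r _ => Finset.sum_eq_zero fun t _ =>
        Finset.sum_eq_zero fun t' _ => ?_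
      rw [hc r t t', sub_self]
      norm_num
    rw [h3, mul_zero] at h1
    have h4 : ∑ j ∈ (Finset.range (p * p ^ m)).filter (fun j => ¬ p ∣ j),
      ‖∑ r : Fin (p ^ m), ∑ t : Fin p,
        η ^ (j * ((r : ℕ) + p ^ m * (t : ℕ))) * (b r t : ℂ)‖ ^ 2 = 0 := by linarith
    rw [Finset.sum_eq_zero_iff_of_nonneg (fun j _ => by positivity)] at h4
    have h5 := h4 j₀ hj₀
    rw [sq_eq_zero_iff, norm_eq_zero] at h5
    exact h h5
  · push Not at hc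
    obtain ⟨r, t, t', hne⟩ := hc
    have h3 := Trb_sq p hp.one_lt.le (b r) t t' hne
    have h4 : (2 * ((p : ℝ) - 1)) ≤ ∑ t : Fin p, ∑ t' : Fin p,
        ((b r t : ℝ) - (b r t' : ℝ)) ^ 2 := by exact_mod_cast h3
    have h5 : ∑ t : Fin p, ∑ t' : Fin p, ((b r t : ℝ) - (b r t' : ℝ)) ^ 2 ≤
        ∑ r : Fin (p ^ m), ∑ t : Fin p, ∑ t' : Fin p, ((b r t : ℝ) - (b r t' : ℝ)) ^ 2 :=
      Finset.single_le_sum (f := fun r : Fin (p ^ m) => ∑ t : Fin p, ∑ t' : Fin p,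
        ((b r t : ℝ) - (b r t' : ℝ)) ^ 2)
        (fun r _ => Finset.sum_nonneg fun t _ => Finset.sum_nonneg fun t' _ => sq_nonneg _)
        (Finset.mem_univ r)
    have h6 : (0 : ℝ) < (p : ℝ) ^ m := pow_pos (by exact_mod_cast hp.pos) m
    have h7 : (p : ℝ) ^ m * (2 * ((p : ℝ) - 1)) ≤ ((p ^ m : ℕ) : ℝ) *
        ∑ r : Fin (p ^ m), ∑ t : Fin p, ∑ t' : Fin p, ((b r t : ℝ) - (b r t' : ℝ)) ^ 2 := by
      push_cast
      exact mul_le_mul_of_nonneg_left (h4.trans h5) h6.le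
    rw [← h1] at h7
    linarith

/-- The coefficients are large. -/
theorem Trb_amgm (p m : ℕ) (hp : p.Prime)
    (u : G) (hu : orderOf u = p ^ (m + 1)) (C : Subgroup G) [Fintype C]
    (hC : ∀ g : G, g ∈ C ↔ g * u = u * g) (π : C →* Q) (hπ : Function.Surjective π)
    (hker : ∀ x : C, π x = 1 ↔ (x : G) ∈ Subgroup.zpowers u) (χ : G → ℂ) (hχ : χ ∈ Irr G)
    (Φ : Q → ℂ) (hΦ : Φ ∈ AddSubgroup.closure (Irr Q)) (hs : ∀ q, p ∣ orderOf q → Φ q = 0)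
    (j₀ : ℕ) (hj₀ : j₀ ∈ (Finset.range (p * p ^ m)).filter (fun j => ¬ p ∣ j))
    (h : sj p u C π j₀ χ Φ ≠ 0) :
    (Nat.card Q : ℝ) ^ 2 * (((p : ℝ) - 1) * (p : ℝ) ^ m) ≤
      ∑ j ∈ (Finset.range (p * p ^ m)).filter (fun j => ¬ p ∣ j),
        ‖sj p u C π j χ Φ‖ ^ 2 := by
  have hη : IsPrimitiveRoot (Complex.exp (2 * Real.pi * Complex.I / ((p * p ^ m : ℕ) : ℂ)))
      (p * p ^ m) := Complex.isPrimitiveRoot_exp _ (by
        have := hp.pos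
        positivity)
  obtain ⟨b, hb⟩ := Trb_coef p m hp u hu C hC π hπ hker _ hη χ hχ Φ hΦ hs
  rw [hb j₀] at h
  have h1 := Trb_four p m hp _ hη b j₀ hj₀ (right_ne_zero_of_mul h)
  have h2 : ∀ j, ‖sj p u C π j χ Φ‖ ^ 2 = (Nat.card Q : ℝ) ^ 2 *
      ‖∑ r : Fin (p ^ m), ∑ t : Fin p,
        Complex.exp (2 * Real.pi * Complex.I / ((p * p ^ m : ℕ) : ℂ)) ^
          (j * ((r : ℕ) + p ^ m * (t : ℕ))) * (b r t : ℂ)‖ ^ 2 := by
    intro j
    rw [hb j, norm_mul, mul_pow, Complex.norm_natCast]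
  rw [Finset.sum_congr rfl fun j _ => h2 j, ← Finset.mul_sum]
  exact mul_le_mul_of_nonneg_left h1 (sq_nonneg _)

open Classical in
/-- A character of the block has a nonzero inner product on the major section. -/
theorem Trb_maj (p m : ℕ) (hp : p.Prime) (𝔪 : Ideal AInt) (h𝔪 : 𝔪.IsMaximal)
    (hp𝔪 : (p : AInt) ∈ 𝔪) (u : G) (hu : orderOf u = p ^ (m + 1)) (C : Subgroup G) [Fintype C]
    (hC : ∀ g : G, g ∈ C ↔ g * u = u * g) (ψ : C → ℂ) (hψ : ψ ∈ Irr C) (χ₀ : G → ℂ)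
    (hχ₀ : χ₀ ∈ Irr G) (hind : Ind 𝔪 C.subtype ψ χ₀)
    (hmaj : defect p (block 𝔪 ψ) = defect p (block 𝔪 χ₀)) (χ : G → ℂ) (hχ : χ ∈ block 𝔪 χ₀) :
    ∃ j ∈ (Finset.range (p * p ^ m)).filter (fun j => ¬ p ∣ j), ∃ X ∈ block 𝔪 ψ,
      ∑ y : C with ¬ p ∣ orderOf y, χ (u ^ j * (y : G)) * X y⁻¹ ≠ 0 := by
  obtain ⟨L⟩ := MkLoc_main p hp 𝔪 h𝔪 hp𝔪 u m hu C hC ψ hψ
  have hLm : L.m = m := by
    have h1 := L.hord
    rw [hu] at h1
    have h2 := Nat.pow_right_injective hp.two_le h1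
    omega
  obtain ⟨c, v, -, -, ⟨x, hx⟩, h4, -⟩ := AsmZ_main L χ₀ hχ₀ (fun g => IndA_loc 𝔪 C ψ hψ χ₀ hχ₀
    hind g) hmaj
  obtain ⟨r, t, t', hne⟩ := h4 χ hχ x hx
  have h1 := Four_main p (p ^ L.m) hp (pow_pos hp.pos L.m) L.η L.hη
    (fun r t => ((bil L.M (L.a χ r t) x : ℤ) : ℝ))
  have h2 : ∀ j, ‖∑ r : Fin (p ^ L.m), ∑ t : Fin p,
      L.η ^ (j * ((r : ℕ) + p ^ L.m * (t : ℕ))) * (((bil L.M (L.a χ r t) x : ℤ) : ℝ) : ℂ)‖ ^ 2 =
      ‖L.H j χ x‖ ^ 2 := by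
    intro j
    unfold Loc.H
    simp only [Complex.ofReal_intCast]
  simp only [h2] at h1
  have hsymm : ∀ i j, L.M i j = L.M j i := by
    intro i j
    have h1 := L.hM i j
    rw [CDAux.T_symm, ← L.hM j i] at h1
    exact_mod_cast h1
  have hbs : ∀ a b, bil L.M a b = bil L.M b a := by
    intro a b
    unfold bil
    rw [Finset.sum_comm]
    refine Finset.sum_congr rfl fun i _ => Finset.sum_congr rfl fun j _ => ?_
    rw [hsymm i j]
    ring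
  have h3 : ∃ j ∈ (Finset.range (p * p ^ L.m)).filter (fun j => ¬ p ∣ j), L.H j χ x ≠ 0 := by
    by_contra hcon
    push Not at hcon
    have h5 : ∑ j ∈ (Finset.range (p * p ^ L.m)).filter (fun j => ¬ p ∣ j),
        ‖L.H j χ x‖ ^ 2 = 0 := by
      refine Finset.sum_eq_zero fun j hj => ?_
      rw [hcon j hj, norm_zero]
      norm_num
    rw [h5, mul_zero] at h1
    have h6 : (0 : ℝ) < ((p ^ L.m : ℕ) : ℝ) := by exact_mod_cast pow_pos hp.pos L.m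
    have h7 : ∑ r : Fin (p ^ L.m), ∑ t : Fin p, ∑ t' : Fin p,
        (((bil L.M (L.a χ r t) x : ℤ) : ℝ) - ((bil L.M (L.a χ r t') x : ℤ) : ℝ)) ^ 2 = 0 := by
      rcases mul_eq_zero.1 h1.symm with h8 | h8
      · exact absurd h8 h6.ne'
      · exact h8
    rw [Finset.sum_eq_zero_iff_of_nonneg (fun r _ => Finset.sum_nonneg fun t _ =>
      Finset.sum_nonneg fun t' _ => sq_nonneg _)] at h7
    have h8 := h7 r (Finset.mem_univ r)
    rw [Finset.sum_eq_zero_iff_of_nonneg (fun t _ =>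
      Finset.sum_nonneg fun t' _ => sq_nonneg _)] at h8
    have h9 := h8 t (Finset.mem_univ t)
    rw [Finset.sum_eq_zero_iff_of_nonneg (fun t' _ => sq_nonneg _)] at h9
    have h10 := h9 t' (Finset.mem_univ t')
    rw [sq_eq_zero_iff, sub_eq_zero] at h10
    apply hne
    rw [hbs x, hbs x]
    exact_mod_cast h10
  obtain ⟨j, hj, hH⟩ := h3
  rw [hLm] at hj
  refine ⟨j, hj, ?_⟩
  by_contra hcon
  push Not at hcon
  apply hH
  rw [HX_main L χ hχ.1 j x]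
  have h5 : ∑ y : C with ¬ p ∣ orderOf y, χ (u ^ j * (y : G)) * ∑ k, (x k : ℂ) * L.X k y⁻¹ =
      ∑ k, (x k : ℂ) * ∑ y : C with ¬ p ∣ orderOf y, χ (u ^ j * (y : G)) * L.X k y⁻¹ := by
    simp only [Finset.mul_sum]
    rw [Finset.sum_comm]
    refine Finset.sum_congr rfl fun k _ => Finset.sum_congr rfl fun y _ => ?_
    ring
  rw [h5]
  have h6 : ∀ k, ∑ y : C with ¬ p ∣ orderOf y, χ (u ^ j * (y : G)) * L.X k y⁻¹ = 0 :=
    fun k => hcon _ (L.mem k)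
  simp only [h6, mul_zero, Finset.sum_const_zero]

open Classical in
/-- At least two coefficients are not zero. -/
theorem Trb_two (p m : ℕ) (hp : p.Prime) (𝔪 : Ideal AInt)
    (u : G) (hu : orderOf u = p ^ (m + 1)) (C : Subgroup G) [Fintype C]
    (hC : ∀ g : G, g ∈ C ↔ g * u = u * g) (π : C →* Q) (hπ : Function.Surjective π)
    (hker : ∀ x : C, π x = 1 ↔ (x : G) ∈ Subgroup.zpowers u) (ψ : C → ℂ) (ξ : Q → ℂ)
    (hspan : ∀ ζ ∈ block 𝔪 ψ, preg p ζ ∈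
      Submodule.span ℂ ((fun χ' : Q → ℂ => preg p fun h => χ' (π h)) '' block 𝔪 ξ))
    (q N : ℕ) (Φ : Fin N → Q → ℂ) (hΦ : PrjF p 𝔪 ξ q N Φ) (χ : G → ℂ) (j : ℕ) (X : C → ℂ)
    (hX : X ∈ block 𝔪 ψ)
    (h : ∑ y : C with ¬ p ∣ orderOf y, χ (u ^ j * (y : G)) * X y⁻¹ ≠ 0) :
    ∃ i i', i ≠ i' ∧ sj p u C π j χ (Φ i) ≠ 0 ∧ sj p u C π j χ (Φ i') ≠ 0 := by
  by_contra hcon
  push Not at hcon
  apply h
  obtain ⟨hz, hcen, hker'⟩ := Trb_z u C hC π hker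
  rw [hu] at hz
  set f : Q → ℂ := fun q => if h : ∃ y : C, ¬ p ∣ orderOf y ∧ π y = q then
    χ (u ^ j * (h.choose : G)) else 0 with hf
  have hfv : ∀ y : C, ¬ p ∣ orderOf y → f (π y) = χ (u ^ j * (y : G)) := by
    intro y hy
    have h1 : ∃ y' : C, ¬ p ∣ orderOf y' ∧ π y' = π y := ⟨y, hy, rfl⟩
    have h2 : h1.choose = y := In2_inj p (m + 1) hp π _ hz hcen hker' _ _ h1.choose_spec.1 hy
      h1.choose_spec.2
    simp only [hf]
    rw [dif_pos h1, h2]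
  have hsj : ∀ i, ∑ g, f g * (starRingEnd ℂ) (Φ i g) = sj p u C π j χ (Φ i) := by
    intro i
    rw [← Tra_fib p (m + 1) hp π hπ _ hz hcen hker' (fun g => f g * (starRingEnd ℂ) (Φ i g))
      (fun q hq => by rw [hΦ.sing i q hq, map_zero, mul_zero])]
    unfold sj
    refine Finset.sum_congr rfl fun y hy => ?_
    rw [Finset.mem_filter] at hy
    rw [hfv y hy.2]
  have htwo := hΦ.two f (fun i i' hne => by
    rw [hsj, hsj]
    by_cases h1 : sj p u C π j χ (Φ i) = 0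
    · exact Or.inl h1
    · exact Or.inr (hcon i i' hne h1))
  -- the functional vanishes on the span
  have hlin : ∀ F ∈ Submodule.span ℂ
      ((fun χ' : Q → ℂ => preg p fun h => χ' (π h)) '' block 𝔪 ξ),
      ∑ y : C, χ (u ^ j * (y : G)) * F y⁻¹ = 0 := by
    intro F hF
    refine Submodule.span_induction (p := fun F _ => ∑ y : C, χ (u ^ j * (y : G)) * F y⁻¹ = 0)
      ?_ ?_ ?_ ?_ hF
    · rintro _ ⟨χ', hχ', rfl⟩
      have h1 := htwo χ' hχ'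
      rw [Finset.sum_filter] at h1
      have h2 := Tra_fib p (m + 1) hp π hπ _ hz hcen hker'
        (fun g => if ¬ p ∣ orderOf g then f g * χ' g⁻¹ else 0) (fun q hq => by
          rw [if_neg (not_not.2 hq)])
      rw [h1, Finset.sum_filter] at h2
      rw [← h2]
      refine Finset.sum_congr rfl fun y _ => ?_
      simp only [preg, orderOf_inv]
      by_cases hy : p ∣ orderOf y
      · rw [if_pos hy, if_neg (not_not.2 hy), mul_zero]
      · have hy' : ¬ p ∣ orderOf (π y) := fun hd => hy (hd.trans (orderOf_map_dvd π y))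
        rw [if_neg hy, if_pos hy, if_pos hy', hfv y hy, map_inv]
    · simp
    · intro a b _ _ ha hb
      simp only [Pi.add_apply, mul_add, Finset.sum_add_distrib]
      rw [ha, hb, add_zero]
    · intro c a _ ha
      have h1 : ∀ y : C, χ (u ^ j * (y : G)) * (c • a) y⁻¹ =
          c * (χ (u ^ j * (y : G)) * a y⁻¹) := by
        intro y
        simp only [Pi.smul_apply, smul_eq_mul]
        ring
      rw [Finset.sum_congr rfl fun y _ => h1 y, ← Finset.mul_sum, ha, mul_zero]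
  refine Eq.trans ?_ (hlin _ (hspan X hX))
  rw [Finset.sum_filter]
  refine Finset.sum_congr rfl fun y _ => ?_
  simp only [preg, orderOf_inv]
  by_cases hy : p ∣ orderOf y
  · rw [if_neg (not_not.2 hy), if_pos hy, mul_zero]
  · rw [if_pos hy, if_neg hy]

open Classical in
/-- The bound of the number of characters by a projective family of the dominated block. -/
theorem Trb_main (p m : ℕ) (hp : p.Prime) (𝔪 : Ideal AInt) (h𝔪 : 𝔪.IsMaximal)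
    (hp𝔪 : (p : AInt) ∈ 𝔪) (u : G) (hu : orderOf u = p ^ (m + 1)) (C : Subgroup G) [Fintype C]
    (hC : ∀ g : G, g ∈ C ↔ g * u = u * g) (π : C →* Q) (hπ : Function.Surjective π)
    (hker : ∀ x : C, π x = 1 ↔ (x : G) ∈ Subgroup.zpowers u) (ψ : C → ℂ) (hψ : ψ ∈ Irr C)
    (χ₀ : G → ℂ) (hχ₀ : χ₀ ∈ Irr G) (hind : Ind 𝔪 C.subtype ψ χ₀)
    (hmaj : defect p (block 𝔪 ψ) = defect p (block 𝔪 χ₀)) (ξ : Q → ℂ)
    (hspan : ∀ ζ ∈ block 𝔪 ψ, preg p ζ ∈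
      Submodule.span ℂ ((fun χ' : Q → ℂ => preg p fun h => χ' (π h)) '' block 𝔪 ξ))
    (q N : ℕ) (Φ : Fin N → Q → ℂ) (hΦ : PrjF p 𝔪 ξ q N Φ) :
    (block 𝔪 χ₀).ncard ≤ p ^ (m + 1) * q := by
  have hfin : Finite (Irr G) := KBL.Col_finite G
  have hfinB : Finite (block 𝔪 χ₀) :=
    Set.Finite.subset (Set.toFinite (Irr G)) (fun ψ hψ => hψ.1)
  obtain ⟨k, ⟨e⟩⟩ := Finite.exists_equiv_fin (block 𝔪 χ₀)
  have hk : (block 𝔪 χ₀).ncard = k := by
    rw [← Nat.card_coe_set_eq, Nat.card_congr e, Nat.card_fin]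
  rw [hk]
  set χ : Fin k → G → ℂ := fun i => (e.symm i).1 with hχd
  have hχ : ∀ i, χ i ∈ block 𝔪 χ₀ := fun i => (e.symm i).2
  have hinj : Function.Injective χ := fun i j h => e.symm.injective (Subtype.ext h)
  set J := (Finset.range (p * p ^ m)).filter (fun j => ¬ p ∣ j) with hJ
  have hcl : ∀ i, Φ i ∈ AddSubgroup.closure (Irr Q) := fun i =>
    AddSubgroup.closure_mono (fun ψ hψ => hψ.1) (hΦ.gen i)
  have hQ : (0 : ℝ) < (Nat.card Q : ℝ) := by exact_mod_cast Nat.card_pos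
  have hp1 : (1 : ℝ) < (p : ℝ) := by exact_mod_cast hp.one_lt
  have hpm : (0 : ℝ) < (p : ℝ) ^ m := pow_pos (by linarith) m
  -- the lower bound for one character
  have hlow : ∀ a : Fin k, 2 * ((Nat.card Q : ℝ) ^ 2 * (((p : ℝ) - 1) * (p : ℝ) ^ m)) ≤
      ∑ i, ∑ j ∈ J, ‖sj p u C π j (χ a) (Φ i)‖ ^ 2 := by
    intro a
    obtain ⟨j, hj, X, hX, hne⟩ := Trb_maj p m hp 𝔪 h𝔪 hp𝔪 u hu C hC ψ hψ χ₀ hχ₀ hind hmaj
      (χ a) (hχ a)
    obtain ⟨i, i', hii, h1, h2⟩ := Trb_two p m hp 𝔪 u hu C hC π hπ hker ψ ξ hspan q N Φ hΦ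
      (χ a) j X hX hne
    have h3 := Trb_amgm p m hp u hu C hC π hπ hker (χ a) (hχ a).1 (Φ i) (hcl i) (hΦ.sing i)
      j hj h1
    have h4 := Trb_amgm p m hp u hu C hC π hπ hker (χ a) (hχ a).1 (Φ i') (hcl i') (hΦ.sing i')
      j hj h2
    have h5 : ∑ l ∈ ({i, i'} : Finset (Fin N)), ∑ j ∈ J, ‖sj p u C π j (χ a) (Φ l)‖ ^ 2 ≤
        ∑ l, ∑ j ∈ J, ‖sj p u C π j (χ a) (Φ l)‖ ^ 2 :=
      Finset.sum_le_sum_of_subset_of_nonneg (Finset.subset_univ _) fun l _ _ =>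
        Finset.sum_nonneg fun j _ => sq_nonneg _
    rw [Finset.sum_pair hii] at h5
    linarith
  -- the upper bound
  have hup : ∑ a : Fin k, ∑ i, ∑ j ∈ J, ‖sj p u C π j (χ a) (Φ i)‖ ^ 2 ≤
      (((p : ℝ) - 1) * (p : ℝ) ^ m) * ((p : ℝ) ^ (m + 1) * (Nat.card Q : ℝ) *
        (2 * (q : ℝ) * (Nat.card Q : ℝ))) := by
    have h1 : ∑ a : Fin k, ∑ i, ∑ j ∈ J, ‖sj p u C π j (χ a) (Φ i)‖ ^ 2 =
        ∑ j ∈ J, ∑ i, ∑ a : Fin k, ‖sj p u C π j (χ a) (Φ i)‖ ^ 2 := by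
      calc ∑ a : Fin k, ∑ i, ∑ j ∈ J, ‖sj p u C π j (χ a) (Φ i)‖ ^ 2
          = ∑ a : Fin k, ∑ j ∈ J, ∑ i, ‖sj p u C π j (χ a) (Φ i)‖ ^ 2 :=
            Finset.sum_congr rfl fun a _ => Finset.sum_comm
        _ = ∑ j ∈ J, ∑ a : Fin k, ∑ i, ‖sj p u C π j (χ a) (Φ i)‖ ^ 2 := Finset.sum_comm
        _ = _ := Finset.sum_congr rfl fun j _ => Finset.sum_comm
    rw [h1]
    have h2 : ∀ j ∈ J, ∑ i, ∑ a : Fin k, ‖sj p u C π j (χ a) (Φ i)‖ ^ 2 ≤
        (p : ℝ) ^ (m + 1) * (Nat.card Q : ℝ) * (2 * (q : ℝ) * (Nat.card Q : ℝ)) := by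
      intro j hj
      have hj' : ¬ p ∣ j := (Finset.mem_filter.1 hj).2
      have h3 : ∀ i, ∑ a : Fin k, ‖sj p u C π j (χ a) (Φ i)‖ ^ 2 ≤
          (p : ℝ) ^ (m + 1) * (Nat.card Q : ℝ) * ∑ q, ‖Φ i q‖ ^ 2 := fun i =>
        Trb_bess p m hp u hu C hC π hπ hker (Φ i) (hcl i) (hΦ.sing i) j hj' χ hinj
          (fun a => (hχ a).1)
      refine (Finset.sum_le_sum fun i _ => h3 i).trans ?_
      rw [← Finset.mul_sum]
      exact mul_le_mul_of_nonneg_left hΦ.nrm (by positivity)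
    have h4 : (J.card : ℝ) = ((p : ℝ) - 1) * (p : ℝ) ^ m := by
      rw [hJ, Four_card p m hp]
      push_cast [Nat.cast_sub hp.one_lt.le]
      ring
    refine (Finset.sum_le_sum h2).trans ?_
    rw [Finset.sum_const, nsmul_eq_mul, h4]
  have h1 : ∑ a : Fin k, 2 * ((Nat.card Q : ℝ) ^ 2 * (((p : ℝ) - 1) * (p : ℝ) ^ m)) ≤
      ∑ a : Fin k, ∑ i, ∑ j ∈ J, ‖sj p u C π j (χ a) (Φ i)‖ ^ 2 :=
    Finset.sum_le_sum fun a _ => hlow a
  rw [Finset.sum_const, Finset.card_univ, Fintype.card_fin, nsmul_eq_mul] at h1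
  have h2 := h1.trans hup
  have h3 : (0 : ℝ) < 2 * ((Nat.card Q : ℝ) ^ 2 * (((p : ℝ) - 1) * (p : ℝ) ^ m)) := by
    have : (0 : ℝ) < (p : ℝ) - 1 := by linarith
    positivity
  have h4 : (k : ℝ) * (2 * ((Nat.card Q : ℝ) ^ 2 * (((p : ℝ) - 1) * (p : ℝ) ^ m))) ≤
      ((p : ℝ) ^ (m + 1) * (q : ℝ)) *
        (2 * ((Nat.card Q : ℝ) ^ 2 * (((p : ℝ) - 1) * (p : ℝ) ^ m))) := by
    refine h2.trans (le_of_eq ?_)
    ring
  have h5 := le_of_mul_le_mul_right h4 h3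
  exact_mod_cast h5

end

end Pool.Agent.KBD
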