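import Pool.Agent.KBD.FinG
import Pool.Agent.KBD.Fpr
import Pool.Agent.KBD.Trb
import Pool.Agent.KBD.Qt
import Pool.Agent.KBR.Fin3

/-! Central cyclic subgroups of the defect group with abelian quotient and a free action. -/

set_option autoImplicit false

namespace Pool.Agent.KBD

open Pool.Agent.KB Pool.Agent.KB.ContrAux Pool.Agent.KBL Pool.Agent.KBZ Pool.Agent.KBU
  Pool.Agent.KBQ

/-- If the dominated block has only one character then `ell ≤ 1`. -/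
private theorem Fin_ell {H Q : Type} [Group H] [Fintype H] [Group Q] [Fintype Q] (p : ℕ)
    (𝔪 : Ideal AInt) (π : H →* Q) (ψ : H → ℂ) (ξ : Q → ℂ)
    (hspan : ∀ ζ ∈ block 𝔪 ψ, preg p ζ ∈
      Submodule.span ℂ ((fun χ' : Q → ℂ => preg p fun h => χ' (π h)) '' block 𝔪 ξ))
    (h1 : (block 𝔪 ξ).ncard ≤ 1) : ell p (block 𝔪 ψ) ≤ 1 := by
  classical
  have hf := Gam_fin 𝔪 ξ
  have e1 : ((fun χ' : Q → ℂ => preg p fun h => χ' (π h)) '' block 𝔪 ξ) =
      ((hf.toFinset.image (fun χ' : Q → ℂ => preg p fun h => χ' (π h)) : Finset (H → ℂ)) :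
        Set (H → ℂ)) := by
    rw [Finset.coe_image, Set.Finite.coe_toFinset]
  have h2 : Submodule.span ℂ (preg p '' block 𝔪 ψ) ≤
      Submodule.span ℂ ((fun χ' : Q → ℂ => preg p fun h => χ' (π h)) '' block 𝔪 ξ) := by
    rw [Submodule.span_le]
    rintro _ ⟨ζ, hζ, rfl⟩
    exact hspan ζ hζ
  unfold ell
  refine (Submodule.finrank_mono h2).trans ?_
  rw [e1]
  refine (finrank_span_finset_le_card _).trans ?_
  refine (Finset.card_image_le).trans ?_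
  rwa [← Set.ncard_eq_toFinset_card _ hf]

/-- **the free case**: `D` is a defect group, `u ≠ 1` is in the centre of `D`, `D / ⟨u⟩` is abelian and the
elements of `N_G(D) ∩ C_G(u)` of order prime to `p` act freely on `D / ⟨u⟩`. -/
theorem Fin_core {G H : Type} [Group G] [Fintype G] [Group H] [Fintype H] (p : ℕ) (hp : p.Prime)
    (𝔪 : Ideal AInt) (h𝔪 : 𝔪.IsMaximal) (hp𝔪 : (p : AInt) ∈ 𝔪) (χ₀ : G → ℂ) (hχ₀ : χ₀ ∈ Irr G)
    (D : Subgroup G) (ι : H →* G) (ζ : H → ℂ) (hD : DefP p 𝔪 χ₀ D ι ζ) (u : G) (hu : u ∈ D)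
    (hu1 : u ≠ 1) (hcu : ∀ a ∈ D, a * u = u * a)
    (hcom : ∀ a ∈ D, ∀ b ∈ D, a * b * a⁻¹ * b⁻¹ ∈ Subgroup.zpowers u)
    (hfree : ∀ n : G, (∀ x, x ∈ D ↔ n * x * n⁻¹ ∈ D) → n * u = u * n → ¬ p ∣ orderOf n →
      ∀ v ∈ D, v ∉ Subgroup.zpowers u → n * v * n⁻¹ * v⁻¹ ∈ Subgroup.zpowers u →
      ∀ x ∈ D, n * x * n⁻¹ * x⁻¹ ∈ Subgroup.zpowers u) :
    (block 𝔪 χ₀).ncard ≤ p ^ defect p (block 𝔪 χ₀) := by
  classical
  have : Fact p.Prime := ⟨hp⟩
  -- the order of `u`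
  obtain ⟨m, hm⟩ : ∃ m, orderOf u = p ^ (m + 1) := by
    obtain ⟨l, hl⟩ := hD.pg ⟨u, hu⟩
    have h1 : u ^ (p ^ l) = 1 := congrArg Subtype.val hl
    obtain ⟨m, -, hm⟩ := (Nat.dvd_prime_pow hp).1 (orderOf_dvd_of_pow_eq_one h1)
    rcases Nat.eq_zero_or_pos m with h0 | h0
    · exfalso
      rw [h0, pow_zero] at hm
      exact hu1 (orderOf_eq_one_iff.1 hm)
    · exact ⟨m - 1, by rw [hm]; congr 1; omega⟩
  -- the centralizer
  obtain ⟨C, hCd⟩ : ∃ C : Subgroup G, C = Subgroup.centralizer {u} := ⟨_, rfl⟩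
  have hC : ∀ g : G, g ∈ C ↔ g * u = u * g := by
    intro g
    rw [hCd]
    exact Subgroup.mem_centralizer_singleton_iff
  let _ : Fintype C := Fintype.ofFinite C
  have hr : ∀ x : G, (∃ y : C, C.subtype y = x) ↔ u * x = x * u := by
    intro x
    constructor
    · rintro ⟨y, rfl⟩
      exact ((hC y).1 y.2).symm
    · intro hx
      exact ⟨⟨x, (hC x).2 hx.symm⟩, rfl⟩
  obtain ⟨κ, ψ, hκ, hψ, hind, hdef, hDC⟩ := Cw_main p hp 𝔪 h𝔪 hp𝔪 χ₀ hχ₀ D ι ζ hD u hu hcu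
    C.subtype C.subtype_injective hr
  have huC : u ∈ C := (hC u).2 rfl
  obtain ⟨z, hz⟩ : ∃ z : C, z = ⟨u, huC⟩ := ⟨_, rfl⟩
  have hzu : (z : G) = u := by rw [hz]
  have hzord : orderOf z = p ^ (m + 1) := by
    rw [← hm, ← hzu]
    exact (orderOf_injective C.subtype C.subtype_injective z).symm
  have hcen : ∀ y : C, y * z = z * y := by
    intro y
    apply Subtype.ext
    show (y : G) * (z : G) = (z : G) * (y : G)
    rw [hzu]
    exact (hC y).1 y.2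
  have hn : (Subgroup.zpowers z).Normal := by
    constructor
    intro n hn g
    have hg : g * n = n * g := by
      obtain ⟨k, rfl⟩ := Subgroup.mem_zpowers_iff.1 hn
      exact ((show Commute g z from hcen g).zpow_right k).eq
    rw [hg, mul_inv_cancel_right]
    exact hn
  -- the quotient
  let Q : Type := C ⧸ Subgroup.zpowers z
  let _ : Group Q := inferInstanceAs (Group (C ⧸ Subgroup.zpowers z))
  let _ : Finite Q := inferInstanceAs (Finite (C ⧸ Subgroup.zpowers z))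
  let _ : Fintype Q := Fintype.ofFinite Q
  let π : C →* Q := QuotientGroup.mk' (Subgroup.zpowers z)
  have hπ : Function.Surjective π := QuotientGroup.mk'_surjective _
  have hker : ∀ x : C, π x = 1 ↔ x ∈ Subgroup.zpowers z := by
    intro x
    show (QuotientGroup.mk' (Subgroup.zpowers z)) x = 1 ↔ _
    rw [QuotientGroup.mk'_apply, QuotientGroup.eq_one_iff]
  have hkeru : ∀ x : C, π x = 1 ↔ (x : G) ∈ Subgroup.zpowers u := by
    intro x
    rw [hker, Subgroup.mem_zpowers_iff, Subgroup.mem_zpowers_iff]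
    constructor
    · rintro ⟨k, hk⟩
      exact ⟨k, by rw [← hk, ← hzu]; simp⟩
    · rintro ⟨k, hk⟩
      exact ⟨k, Subtype.ext (by rw [← hk, ← hzu]; simp)⟩
  obtain ⟨ξ, hξ, hξb, hξd, hspan⟩ := Dm_main p (m + 1) hp 𝔪 h𝔪 hp𝔪 π hπ z hzord hcen hker ψ hψ
  obtain ⟨P, H₁, _, _, ι₁, ζ₁, hP⟩ := DefP_ex p hp 𝔪 h𝔪 hp𝔪 ξ hξ
  have hzD : z ∈ D.comap C.subtype := by
    show (z : G) ∈ D
    rw [hzu]
    exact hu
  obtain ⟨q, hq⟩ := Qt_main p (m + 1) hp 𝔪 h𝔪 hp𝔪 π hπ z hzord hcen hker ψ hψ ξ hξ hξb hξd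
    (D.comap C.subtype) κ ζ hDC hzD P ι₁ ζ₁ hP
  by_cases hP0 : P = ⊥
  · -- `D = ⟨u⟩`
    have h0 : defect p (block 𝔪 ξ) = 0 := by
      have h1 := hP.card
      rw [hP0, Subgroup.card_bot] at h1
      have h2 := hp.one_lt
      by_contra h3
      have h4 := Nat.one_lt_pow h3 h2
      omega
    have h1 := FinA_small p hp 𝔪 h𝔪 hp𝔪 ξ hξ (by omega)
    rw [h0, pow_zero] at h1
    have h2 := Fin_ell p 𝔪 π ψ ξ hspan h1
    subst hCd
    obtain ⟨-, -, h3⟩ := MainZ_main p hp 𝔪 h𝔪 hp𝔪 χ₀ hχ₀ u (m + 1) hm ψ hψ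
      ((IndA_sub 𝔪 _ ψ hψ χ₀ hχ₀).2 hind) hdef
    exact h3 (by omega)
  · have hPab : ∀ a ∈ P, ∀ b ∈ P, a * b = b * a := by
      have hDab : ∀ a ∈ (D.comap C.subtype).map π, ∀ b ∈ (D.comap C.subtype).map π,
          a * b = b * a := by
        rintro _ ⟨a, ha, rfl⟩ _ ⟨b, hb, rfl⟩
        have h2 : π (a * b * a⁻¹ * b⁻¹) = 1 := (hkeru _).2 (hcom a ha b hb)
        rw [map_mul, map_mul, map_mul, map_inv, map_inv] at h2
        exact mul_inv_eq_iff_eq_mul.1 (mul_inv_eq_one.1 h2)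
      intro a ha b hb
      have h1 := hDab _ ((hq a).1 ha) _ ((hq b).1 hb)
      have e1 : q * a * q⁻¹ * (q * b * q⁻¹) = q * (a * b) * q⁻¹ := by group
      have e2 : q * b * q⁻¹ * (q * a * q⁻¹) = q * (b * a) * q⁻¹ := by group
      rw [e1, e2] at h1
      exact mul_left_cancel (mul_right_cancel h1)
    have hA := hP.abd hPab
    have hV := LemV_main p hp 𝔪 h𝔪 hp𝔪 ξ hξ P ι₁ ζ₁ hA P hA.pg ι₁ hA.cen ζ₁ hA.irr hA.ind
    obtain ⟨N, Φ, hΦ⟩ := Fpr_main p hp 𝔪 h𝔪 hp𝔪 ξ hξ P ι₁ ζ₁ hA hP0 (by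
      intro n hn v hv hv1 hnv
      refine Fin_free p hp u C hC π hπ hkeru D hu hcu hfree P q hq n hn.1
        (Nat.card (Stb 𝔪 hA.cen ζ₁) / Nat.card H₁) hV ?_ v hv hv1 hnv
      -- the index of the range of `ι₁` in the stabilizer
      have hle : ι₁.range ≤ Stb 𝔪 hA.cen ζ₁ := Abl_range 𝔪 P ι₁ hA.cen ζ₁ hA.irr
      have hnrm : (ι₁.range.subgroupOf (Stb 𝔪 hA.cen ζ₁)).Normal := by
        constructor
        intro a ha g
        rw [Subgroup.mem_subgroupOf] at ha ⊢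
        obtain ⟨y, hy⟩ := ha
        obtain ⟨y', hy'⟩ := hA.cen.nrm g.2.1 y
        refine ⟨y', ?_⟩
        rw [hy', hy]
        rfl
      have hcr : Nat.card ι₁.range = Nat.card H₁ :=
        Nat.card_congr (MonoidHom.ofInjective hA.cen.inj).toEquiv.symm
      have hidx : (ι₁.range.subgroupOf (Stb 𝔪 hA.cen ζ₁)).index =
          Nat.card (Stb 𝔪 hA.cen ζ₁) / Nat.card H₁ := by
        have h1 := Subgroup.card_mul_index (ι₁.range.subgroupOf (Stb 𝔪 hA.cen ζ₁))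
        rw [Nat.card_congr (Subgroup.subgroupOfEquivOfLe hle).toEquiv, hcr] at h1
        rw [← h1, Nat.mul_div_cancel_left _ Nat.card_pos]
      have h1 := Subgroup.pow_index_mem (ι₁.range.subgroupOf (Stb 𝔪 hA.cen ζ₁)) ⟨n, hn⟩
      rw [hidx, Subgroup.mem_subgroupOf] at h1
      obtain ⟨y, hy⟩ := h1
      intro x hx
      have h2 := hA.cen.com y hx
      rw [hy] at h2
      exact h2.symm)
    have h1 := Trb_main p m hp 𝔪 h𝔪 hp𝔪 u hm C hC π hπ hkeru ψ hψ χ₀ hχ₀ hind hdef ξ hspan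
      (Nat.card P) N Φ hΦ
    rw [hP.card, ← pow_add, add_comm, hξd, hdef] at h1
    exact h1

end Pool.Agent.KBD
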