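import Pool.Agent.KBD.Fin

/-! Theorem C and blocks of defect at most three. -/

set_option autoImplicit false

namespace Pool.Agent.KBD

open Pool.Agent.KB Pool.Agent.KB.ContrAux Pool.Agent.KBL Pool.Agent.KBZ Pool.Agent.KBU
  Pool.Agent.KBQ

/-- The quotient of the centralizer of `u` by `⟨u⟩`. -/
theorem Fin_set {G : Type} [Group G] [Finite G] (u : G) :
    ∃ (C : Subgroup G) (Q : Type) (_ : Group Q) (_ : Finite Q) (π : C →* Q),
      (∀ g : G, g ∈ C ↔ g * u = u * g) ∧ Function.Surjective π ∧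
      ∀ x : C, π x = 1 ↔ (x : G) ∈ Subgroup.zpowers u := by
  obtain ⟨C, hCd⟩ : ∃ C : Subgroup G, C = Subgroup.centralizer {u} := ⟨_, rfl⟩
  have hC : ∀ g : G, g ∈ C ↔ g * u = u * g := by
    intro g
    rw [hCd]
    exact Subgroup.mem_centralizer_singleton_iff
  obtain ⟨z, hz⟩ : ∃ z : C, z = ⟨u, (hC u).2 rfl⟩ := ⟨_, rfl⟩
  have hzu : (z : G) = u := by rw [hz]
  have hcen : ∀ y : C, y * z = z * y := by
    intro y
    apply Subtype.ext
    show (y : G) * (z : G) = (z : G) * (y : G)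
    rw [hzu]
    exact (hC y).1 y.2
  have hn : (Subgroup.zpowers z).Normal := by
    constructor
    intro n hn g
    have hg : g * n = n * g := by
      obtain ⟨k, rfl⟩ := Subgroup.mem_zpowers_iff.1 hn
      exact ((show Commute g z from hcen g).zpow_right k).eq
    rw [hg, mul_inv_cancel_right]
    exact hn
  refine ⟨C, C ⧸ Subgroup.zpowers z, inferInstance, inferInstance,
    QuotientGroup.mk' (Subgroup.zpowers z), hC, QuotientGroup.mk'_surjective _, fun x => ?_⟩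
  rw [QuotientGroup.mk'_apply, QuotientGroup.eq_one_iff, Subgroup.mem_zpowers_iff,
    Subgroup.mem_zpowers_iff]
  constructor
  · rintro ⟨k, hk⟩
    exact ⟨k, by rw [← hk, ← hzu]; simp⟩
  · rintro ⟨k, hk⟩
    exact ⟨k, Subtype.ext (by rw [← hk, ← hzu]; simp)⟩

/-- Commutativity of the image. -/
private theorem Fin_comm {G Q : Type} [Group G] [Group Q] (u : G) (C : Subgroup G) (π : C →* Q)
    (hker : ∀ x : C, π x = 1 ↔ (x : G) ∈ Subgroup.zpowers u) (D : Subgroup G)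
    (hDC : ∀ x ∈ D, x ∈ C)
    (hab : ∀ x ∈ (D.comap C.subtype).map π, ∀ y ∈ (D.comap C.subtype).map π, x * y = y * x) :
    ∀ a ∈ D, ∀ b ∈ D, a * b * a⁻¹ * b⁻¹ ∈ Subgroup.zpowers u := by
  intro a ha b hb
  have h1 := hab (π ⟨a, hDC a ha⟩) ⟨_, ha, rfl⟩ (π ⟨b, hDC b hb⟩) ⟨_, hb, rfl⟩
  have h2 : π (⟨a, hDC a ha⟩ * ⟨b, hDC b hb⟩ * (⟨a, hDC a ha⟩ : C)⁻¹ * (⟨b, hDC b hb⟩ : C)⁻¹) =
      1 := by
    rw [map_mul, map_mul, map_mul, map_inv, map_inv, h1]
    group
  exact (hker _).1 h2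

/-- The generators of the image. -/
private theorem Fin_img {G Q : Type} [Group G] [Group Q] (u : G) (C : Subgroup G)
    (hC : ∀ g : G, g ∈ C ↔ g * u = u * g) (π : C →* Q)
    (hker : ∀ x : C, π x = 1 ↔ (x : G) ∈ Subgroup.zpowers u) (a b : C) :
    ((Subgroup.closure {u, (a : G), (b : G)}).comap C.subtype).map π =
      Subgroup.closure {π a, π b} := by
  have huC : u ∈ C := (hC u).2 rfl
  have h1 : (Subgroup.closure {u, (a : G), (b : G)}).comap C.subtype =
      Subgroup.closure {(⟨u, huC⟩ : C), a, b} := by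
    apply Subgroup.map_injective C.subtype_injective
    rw [Subgroup.map_comap_eq, MonoidHom.map_closure, Subgroup.range_subtype]
    have h2 : (C.subtype '' {(⟨u, huC⟩ : C), a, b} : Set G) = {u, (a : G), (b : G)} := by
      rw [Set.image_insert_eq, Set.image_pair]
      rfl
    rw [h2]
    refine inf_eq_right.2 ?_
    rw [Subgroup.closure_le]
    rintro x (rfl | rfl | rfl)
    · exact huC
    · exact a.2
    · exact b.2
  rw [h1, MonoidHom.map_closure, Set.image_insert_eq, Set.image_pair]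
  have h3 : π ⟨u, huC⟩ = 1 := (hker _).2 (Subgroup.mem_zpowers u)
  rw [h3, Subgroup.closure_insert_one]

/-- **Theorem C**: `D = ⟨u, a, b⟩` with `u` central in `D` and `[a, b] ∈ ⟨u⟩`. -/
theorem ThC_main {G H : Type} [Group G] [Fintype G] [Group H] [Fintype H] (p : ℕ) (hp : p.Prime)
    (𝔪 : Ideal AInt) (h𝔪 : 𝔪.IsMaximal) (hp𝔪 : (p : AInt) ∈ 𝔪) (χ₀ : G → ℂ) (hχ₀ : χ₀ ∈ Irr G)
    (D : Subgroup G) (ι : H →* G) (ζ : H → ℂ) (hD : DefP p 𝔪 χ₀ D ι ζ) (u a b : G)
    (hgen : D = Subgroup.closure {u, a, b}) (hau : a * u = u * a) (hbu : b * u = u * b)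
    (hab : a * b * a⁻¹ * b⁻¹ ∈ Subgroup.zpowers u)
    (h : p ≠ 2 ∨ ∃ x ∈ D, ∃ y ∈ D, x * y ≠ y * x) :
    (block 𝔪 χ₀).ncard ≤ p ^ defect p (block 𝔪 χ₀) := by
  classical
  have hu : u ∈ D := by
    rw [hgen]
    exact Subgroup.subset_closure (by simp)
  have hcu : ∀ x ∈ D, x * u = u * x := by
    have h1 : D ≤ Subgroup.centralizer {u} := by
      rw [hgen, Subgroup.closure_le]
      rintro x (rfl | rfl | rfl)
      · exact Subgroup.mem_centralizer_singleton_iff.2 rfl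
      · exact Subgroup.mem_centralizer_singleton_iff.2 hau
      · exact Subgroup.mem_centralizer_singleton_iff.2 hbu
    intro x hx
    exact Subgroup.mem_centralizer_singleton_iff.1 (h1 hx)
  by_cases hna : ∃ x ∈ D, ∃ y ∈ D, x * y ≠ y * x
  · obtain ⟨C, Q, _, _, π, hC, hπ, hker⟩ := Fin_set u
    have hDC : ∀ x ∈ D, x ∈ C := fun x hx => (hC x).2 (hcu x hx)
    have himg : (D.comap C.subtype).map π =
        Subgroup.closure {π ⟨a, (hC a).2 hau⟩, π ⟨b, (hC b).2 hbu⟩} := by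
      rw [hgen]
      exact Fin_img u C hC π hker ⟨a, (hC a).2 hau⟩ ⟨b, (hC b).2 hbu⟩
    have hpab : π ⟨a, (hC a).2 hau⟩ * π ⟨b, (hC b).2 hbu⟩ =
        π ⟨b, (hC b).2 hbu⟩ * π ⟨a, (hC a).2 hau⟩ := by
      have h2 : π (⟨a, (hC a).2 hau⟩ * ⟨b, (hC b).2 hbu⟩ * (⟨a, (hC a).2 hau⟩ : C)⁻¹ *
          (⟨b, (hC b).2 hbu⟩ : C)⁻¹) = 1 := (hker _).2 hab
      rw [map_mul, map_mul, map_mul, map_inv, map_inv] at h2
      exact mul_inv_eq_iff_eq_mul.1 (mul_inv_eq_one.1 h2)
    have hDab : ∀ x ∈ (D.comap C.subtype).map π, ∀ y ∈ (D.comap C.subtype).map π,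
        x * y = y * x := by
      rw [himg]
      have h3 : IsMulCommutative (Subgroup.closure
          {π ⟨a, (hC a).2 hau⟩, π ⟨b, (hC b).2 hbu⟩} : Subgroup Q) := by
        refine Subgroup.isMulCommutative_closure ?_
        rintro x (rfl | rfl) y (rfl | rfl)
        · rfl
        · exact hpab
        · exact hpab.symm
        · rfl
      intro x hx y hy
      exact congrArg Subtype.val (h3.is_comm.comm ⟨x, hx⟩ ⟨y, hy⟩)
    have hcom := Fin_comm u C π hker D hDC hDab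
    have hu1 : u ≠ 1 := by
      intro h1
      obtain ⟨x, hx, y, hy, hxy⟩ := hna
      have h2 := hcom x hx y hy
      rw [h1, Subgroup.zpowers_one_eq_bot, Subgroup.mem_bot] at h2
      exact hxy (mul_inv_eq_iff_eq_mul.1 (mul_inv_eq_one.1 h2))
    have hr : Nat.card {x : ((D.comap C.subtype).map π : Subgroup Q) // x ^ p = 1} ≤ p ^ 2 := by
      have h1 := Fin_gen p hp.pos ((D.comap C.subtype).map π) hDab
        {π ⟨a, (hC a).2 hau⟩, π ⟨b, (hC b).2 hbu⟩} (by
          rw [himg]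
          congr 1
          simp)
      exact h1.trans (Nat.pow_le_pow_right hp.pos Finset.card_le_two)
    exact Fin_core p hp 𝔪 h𝔪 hp𝔪 χ₀ hχ₀ D ι ζ hD u hu hu1 hcu hcom
      (fun n hn hnu hnp v hv hvu hnv => Fin_two p hp u C hC π hπ hker D hD.pg hcu hcom hna hr n
        hn hnu hnp v hv hvu hnv)
  · push Not at hna
    have hp2 : p ≠ 2 := by
      rcases h with h | ⟨x, hx, y, hy, hxy⟩
      · exact h
      · exact absurd (hna x hx y hy) hxy
    have h1 := Fin_gen p hp.pos D hna {u, a, b} (by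
      rw [hgen]
      congr 1
      simp)
    exact (Pool.Agent.KBR.Fin3_main p hp hp2 𝔪 h𝔪 hp𝔪 χ₀ hχ₀ D ι ζ (hD.abd hna)
      (h1.trans (Nat.pow_le_pow_right hp.pos Finset.card_le_three))).2

/-- **Blocks of defect at most three.** -/
theorem Def3_main {G : Type} [Group G] [Fintype G] (p : ℕ) (hp : p.Prime)
    (𝔪 : Ideal AInt) (h𝔪 : 𝔪.IsMaximal) (hp𝔪 : (p : AInt) ∈ 𝔪) (χ₀ : G → ℂ) (hχ₀ : χ₀ ∈ Irr G)
    (hd : defect p (block 𝔪 χ₀) ≤ 3) :
    (block 𝔪 χ₀).ncard ≤ p ^ defect p (block 𝔪 χ₀) := by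
  classical
  have : Fact p.Prime := ⟨hp⟩
  rcases Nat.lt_or_ge (defect p (block 𝔪 χ₀)) 3 with hd2 | hd3
  · exact FinA_small p hp 𝔪 h𝔪 hp𝔪 χ₀ hχ₀ (by omega)
  have hd' : defect p (block 𝔪 χ₀) = 3 := le_antisymm hd hd3
  by_cases hp2 : p = 2
  · have h1 := FinA_three p hp 𝔪 h𝔪 hp𝔪 χ₀ hχ₀ hd'
    rw [hd']
    refine h1.trans (le_of_eq ?_)
    rw [hp2]
    rfl
  obtain ⟨D, H, _, _, ι, ζ, hD⟩ := DefP_ex p hp 𝔪 h𝔪 hp𝔪 χ₀ hχ₀
  have hcard : Nat.card D = p ^ 3 := by rw [hD.card, hd']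
  by_cases hna : ∃ x ∈ D, ∃ y ∈ D, x * y ≠ y * x
  · -- an element of order `p` in the centre
    obtain ⟨u, hu, huo, hcu⟩ : ∃ u ∈ D, orderOf u = p ∧ ∀ x ∈ D, x * u = u * x := by
      have hnt : Nontrivial D := by
        obtain ⟨x, hx, y, hy, hxy⟩ := hna
        refine ⟨⟨x, hx⟩, 1, fun h => hxy ?_⟩
        have h1 : x = 1 := congrArg Subtype.val h
        rw [h1, one_mul, mul_one]
      have h1 := hD.pg.center_nontrivial
      have h2 : IsPGroup p (Subgroup.center D) := hD.pg.to_subgroup _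
      obtain ⟨k, hk⟩ := IsPGroup.iff_card.1 h2
      have h3 : k ≠ 0 := by
        intro h0
        rw [h0, pow_zero] at hk
        have h4 : 1 < Nat.card (Subgroup.center D) := Finite.one_lt_card
        omega
      obtain ⟨c, hc⟩ := exists_prime_orderOf_dvd_card' (G := Subgroup.center D) p (by
        rw [hk]
        exact dvd_pow_self p h3)
      refine ⟨((c : D) : G), (c : D).2, ?_, ?_⟩
      · rw [Subgroup.orderOf_coe, Subgroup.orderOf_coe, hc]
      · intro x hx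
        exact congrArg Subtype.val (Subgroup.mem_center_iff.1 c.2 ⟨x, hx⟩)
    obtain ⟨C, Q, _, _, π, hC, hπ, hker⟩ := Fin_set u
    have hDC : ∀ x ∈ D, x ∈ C := fun x hx => (hC x).2 (hcu x hx)
    have hu1 : u ≠ 1 := by
      intro h1
      rw [h1, orderOf_one] at huo
      exact hp.one_lt.ne huo
    -- the order of the image
    have hDCc : Nat.card (D.comap C.subtype) = p ^ 3 := by
      rw [← hcard]
      refine Nat.card_eq_of_bijective (fun g : D.comap C.subtype => (⟨(g : C), g.2⟩ : D)) ⟨?_, ?_⟩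
      · intro g g' h
        exact Subtype.ext (Subtype.ext (congrArg (fun t : D => (t : G)) h))
      · rintro ⟨d, hd⟩
        exact ⟨⟨⟨d, hDC d hd⟩, hd⟩, rfl⟩
    have hDbc : Nat.card ((D.comap C.subtype).map π) = p ^ 2 := by
      let _ : Fintype C := Fintype.ofFinite C
      let _ : Fintype Q := Fintype.ofFinite Q
      have hz : orderOf (⟨u, (hC u).2 rfl⟩ : C) = p ^ 1 := by
        rw [pow_one, ← huo]
        exact (orderOf_injective C.subtype C.subtype_injective _).symm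
      have h1 := Qt_card p 1 π (⟨u, (hC u).2 rfl⟩ : C) hz (by
        intro x
        rw [hker, Subgroup.mem_zpowers_iff, Subgroup.mem_zpowers_iff]
        constructor
        · rintro ⟨k, hk⟩
          exact ⟨k, Subtype.ext (by simpa using hk)⟩
        · rintro ⟨k, hk⟩
          refine ⟨k, ?_⟩
          rw [← hk]
          simp) (D.comap C.subtype) hu
      rw [hDCc, pow_one, show p ^ 3 = p * p ^ 2 by ring] at h1
      exact Nat.eq_of_mul_eq_mul_left hp.pos h1
    have hDab : ∀ x ∈ (D.comap C.subtype).map π, ∀ y ∈ (D.comap C.subtype).map π,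
        x * y = y * x := by
      have h3 := IsPGroup.isMulCommutative_of_card_eq_prime_sq hDbc
      intro x hx y hy
      exact congrArg Subtype.val (h3.is_comm.comm ⟨x, hx⟩ ⟨y, hy⟩)
    have hcom := Fin_comm u C π hker D hDC hDab
    have hr : Nat.card {x : ((D.comap C.subtype).map π : Subgroup Q) // x ^ p = 1} ≤ p ^ 2 := by
      rw [← hDbc]
      exact Nat.card_le_card_of_injective _ Subtype.val_injective
    exact Fin_core p hp 𝔪 h𝔪 hp𝔪 χ₀ hχ₀ D ι ζ hD u hu hu1 hcu hcom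
      (fun n hn hnu hnp v hv hvu hnv => Fin_two p hp u C hC π hπ hker D hD.pg hcu hcom hna hr n
        hn hnu hnp v hv hvu hnv)
  · push Not at hna
    refine (Pool.Agent.KBR.Fin3_main p hp hp2 𝔪 h𝔪 hp𝔪 χ₀ hχ₀ D ι ζ (hD.abd hna) ?_).2
    rw [← hcard]
    exact Nat.card_le_card_of_injective _ Subtype.val_injective

end Pool.Agent.KBD
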