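import Pool.Agent.KBD.Frg

/-! Group theory for the final theorems. -/

set_option autoImplicit false

namespace Pool.Agent.KBD

/-- An abelian group generated by `s` elements has at most `p ^ s` solutions of `x ^ p = 1`. -/
theorem Fin_rk {A : Type} [CommGroup A] [Finite A] (p : ℕ) (S : Finset A)
    (hS : Subgroup.closure (S : Set A) = ⊤) (hp : 0 < p) :
    Nat.card {x : A // x ^ p = 1} ≤ p ^ S.card := by
  have h1 : Nat.card {x : A // x ^ p = 1} = Nat.card (powMonoidHom p : A →* A).ker :=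
    Nat.card_congr (Equiv.subtypeEquivRight fun x => by rw [MonoidHom.mem_ker]; rfl)
  have h2 := Subgroup.card_mul_index (powMonoidHom p : A →* A).ker
  have h3 := Subgroup.card_mul_index (powMonoidHom p : A →* A).range
  rw [Subgroup.index_ker] at h2
  have h4 : Nat.card (powMonoidHom p : A →* A).ker = (powMonoidHom p : A →* A).range.index := by
    have h5 : 0 < Nat.card (powMonoidHom p : A →* A).range := Nat.card_pos
    refine Nat.eq_of_mul_eq_mul_right h5 ?_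
    rw [h2, mul_comm, h3]
  rw [h1, h4, Subgroup.index_eq_card]
  have h5 : Nat.card (A ⧸ (powMonoidHom p : A →* A).range) ∣
      p ^ Group.rank (A ⧸ (powMonoidHom p : A →* A).range) := by
    refine card_dvd_exponent_pow_rank' _ fun g => ?_
    obtain ⟨x, rfl⟩ := QuotientGroup.mk_surjective g
    rw [← QuotientGroup.mk_pow, QuotientGroup.eq_one_iff]
    exact ⟨x, rfl⟩
  have h6 : Group.rank (A ⧸ (powMonoidHom p : A →* A).range) ≤ S.card :=
    (Group.rank_le_of_surjective (QuotientGroup.mk' _) (QuotientGroup.mk'_surjective _)).trans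
      (Group.rank_le hS)
  exact (Nat.le_of_dvd (pow_pos hp _) h5).trans (Nat.pow_le_pow_right hp h6)

/-- The version for a subgroup. -/
theorem Fin_gen {G : Type} [Group G] [Finite G] (p : ℕ) (hp : 0 < p) (D : Subgroup G)
    (hab : ∀ a ∈ D, ∀ b ∈ D, a * b = b * a) (S : Finset G)
    (hS : D = Subgroup.closure (S : Set G)) :
    Nat.card {x : D // x ^ p = 1} ≤ p ^ S.card := by
  classical
  subst hS
  let _ : CommGroup (Subgroup.closure (S : Set G)) :=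
    { (inferInstance : Group (Subgroup.closure (S : Set G))) with
      mul_comm := fun a b => Subtype.ext (hab a a.2 b b.2) }
  let F : S → Subgroup.closure (S : Set G) := fun s => ⟨s.1, Subgroup.subset_closure s.2⟩
  let T : Finset (Subgroup.closure (S : Set G)) := S.attach.image F
  have hT : Subgroup.closure (T : Set (Subgroup.closure (S : Set G))) = ⊤ := by
    have h1 := Subgroup.closure_closure_coe_preimage (k := (S : Set G))
    rw [← h1]
    congr 1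
    ext x
    simp only [T, F, Finset.coe_image, Set.mem_image, Set.mem_preimage]
    constructor
    · rintro ⟨s, -, rfl⟩
      exact s.2
    · intro hx
      exact ⟨⟨x, hx⟩, by simp, rfl⟩
  have h2 : T.card ≤ S.card := by
    refine (Finset.card_image_le).trans ?_
    rw [Finset.card_attach]
  exact (Fin_rk p T hT hp).trans (Nat.pow_le_pow_right hp h2)

/-- The free action for the quotient. -/
theorem Fin_free {G Q : Type} [Group G] [Finite G] [Group Q] [Finite Q] (p : ℕ) (hp : p.Prime)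
    (u : G) (C : Subgroup G) (hC : ∀ g : G, g ∈ C ↔ g * u = u * g) (π : C →* Q)
    (hπ : Function.Surjective π) (hker : ∀ x : C, π x = 1 ↔ (x : G) ∈ Subgroup.zpowers u)
    (D : Subgroup G) (hu : u ∈ D) (hcu : ∀ a ∈ D, a * u = u * a)
    (hfree : ∀ n : G, (∀ x, x ∈ D ↔ n * x * n⁻¹ ∈ D) → n * u = u * n → ¬ p ∣ orderOf n →
      ∀ v ∈ D, v ∉ Subgroup.zpowers u → n * v * n⁻¹ * v⁻¹ ∈ Subgroup.zpowers u →
      ∀ x ∈ D, n * x * n⁻¹ * x⁻¹ ∈ Subgroup.zpowers u)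
    (P : Subgroup Q) (q : Q) (hq : ∀ s, s ∈ P ↔ q * s * q⁻¹ ∈ (D.comap C.subtype).map π)
    (n : Q) (hn : ∀ x, x ∈ P ↔ n * x * n⁻¹ ∈ P) (N : ℕ) (hN : ¬ p ∣ N)
    (hnN : ∀ x ∈ P, n ^ N * x = x * n ^ N) (v : Q) (hv : v ∈ P) (hv1 : v ≠ 1)
    (hnv : n * v = v * n) : ∀ x ∈ P, n * x = x * n := by
  obtain ⟨c, hc⟩ := hπ (q * n * q⁻¹)
  have h0 : orderOf c ≠ 0 := (orderOf_pos c).ne'
  obtain ⟨e, M, hM, hcM⟩ := Nat.exists_eq_pow_mul_and_not_dvd h0 p hp.ne_one
  have hcop : (p ^ e).Coprime N := Nat.Coprime.pow_left e ((hp.coprime_iff_not_dvd).2 hN)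
  obtain ⟨k, hk0, hk1⟩ := Nat.chineseRemainder hcop 0 1
  -- `n ^ k` acts as `n`
  have hact : ∀ x ∈ P, n ^ k * x * (n ^ k)⁻¹ = n * x * n⁻¹ := by
    have hdvd : (N : ℤ) ∣ (k : ℤ) - 1 := by
      have h1 := (Nat.modEq_iff_dvd.1 hk1.symm)
      exact_mod_cast h1
    obtain ⟨t, ht⟩ := hdvd
    have h1 : n ^ k = n * (n ^ N) ^ t := by
      rw [← zpow_natCast n k, ← zpow_natCast n N, ← zpow_mul, ← ht, zpow_sub_one,
        ← mul_assoc]
      have h2 : n * n ^ (k : ℤ) = n ^ (k : ℤ) * n := by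
        rw [← zpow_one_add, ← zpow_add_one, add_comm]
      rw [h2, mul_inv_cancel_right]
    intro x hx
    have h2 : Commute (n ^ N) x := hnN x hx
    have h3 : (n ^ N) ^ t * x = x * (n ^ N) ^ t := (h2.zpow_left t).eq
    rw [h1, mul_inv_rev]
    calc n * (n ^ N) ^ t * x * (((n ^ N) ^ t)⁻¹ * n⁻¹)
        = n * ((n ^ N) ^ t * x) * ((n ^ N) ^ t)⁻¹ * n⁻¹ := by group
      _ = n * (x * (n ^ N) ^ t) * ((n ^ N) ^ t)⁻¹ * n⁻¹ := by rw [h3]
      _ = n * x * n⁻¹ := by group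
  have hck : π (c ^ k) = q * n ^ k * q⁻¹ := by
    rw [map_pow, hc, conj_pow]
  have hnk : ∀ x, x ∈ P ↔ n ^ k * x * (n ^ k)⁻¹ ∈ P := by
    have h1 : ∀ (j : ℕ) (x : Q), x ∈ P ↔ n ^ j * x * (n ^ j)⁻¹ ∈ P := by
      intro j
      induction j with
      | zero => intro x; simp
      | succ j ih =>
        intro x
        rw [ih x, hn]
        have h2 : n * (n ^ j * x * (n ^ j)⁻¹) * n⁻¹ = n ^ (j + 1) * x * (n ^ (j + 1))⁻¹ := by
          rw [pow_succ' n j, mul_inv_rev]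
          group
        rw [h2]
    exact h1 k
  -- membership in `D`
  have hDm : ∀ x : C, (x : G) ∈ D ↔ q⁻¹ * π x * q ∈ P := by
    intro x
    rw [hq]
    have h1 : q * (q⁻¹ * π x * q) * q⁻¹ = π x := by group
    rw [h1]
    constructor
    · intro hx
      exact ⟨x, hx, rfl⟩
    · rintro ⟨d, hd, hdx⟩
      have h2 : ((x * d⁻¹ : C) : G) ∈ Subgroup.zpowers u := (hker _).1 (by
        rw [map_mul, map_inv, hdx, mul_inv_cancel])
      have h3 : ((x * d⁻¹ : C) : G) ∈ D := (Subgroup.zpowers_le.2 hu) h2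
      have h4 : (x : G) = ((x * d⁻¹ : C) : G) * (d : G) := by simp
      rw [h4]
      exact mul_mem h3 hd
  have hcK : ((c ^ k : C) : G) * u = u * ((c ^ k : C) : G) := (hC _).1 (c ^ k).2
  have hcc : ∀ x : C, ((c ^ k : C) : G) * (x : G) * ((c ^ k : C) : G)⁻¹ =
      ((c ^ k * x * (c ^ k)⁻¹ : C) : G) := fun x => rfl
  have hpi : ∀ x : C, q⁻¹ * π (c ^ k * x * (c ^ k)⁻¹) * q =
      n ^ k * (q⁻¹ * π x * q) * (n ^ k)⁻¹ := by
    intro x
    rw [map_mul, map_mul, map_inv, hck]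
    group
  have hfix : ∀ x ∈ D, ((c ^ k : C) : G) * x * ((c ^ k : C) : G)⁻¹ * x⁻¹ ∈
      Subgroup.zpowers u := by
    have hvD : v = q⁻¹ * (q * v * q⁻¹) * q := by group
    obtain ⟨w, hw, hwv⟩ := (hq v).1 hv
    refine hfree _ ?_ hcK ?_ (w : G) hw ?_ ?_
    · intro x
      constructor
      · intro hx
        have hxC : x ∈ C := (hC x).2 (hcu x hx)
        have h1 := (hDm ⟨x, hxC⟩).1 hx
        rw [hnk, ← hpi] at h1
        exact (hDm (c ^ k * ⟨x, hxC⟩ * (c ^ k)⁻¹)).2 h1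
      · intro hx
        have hxC : x ∈ C := by
          have h1 : ((c ^ k : C) : G) * x * ((c ^ k : C) : G)⁻¹ ∈ C := (hC _).2 (hcu _ hx)
          have h2 : x = ((c ^ k : C) : G)⁻¹ * (((c ^ k : C) : G) * x * ((c ^ k : C) : G)⁻¹) *
              ((c ^ k : C) : G) := by group
          rw [h2]
          exact mul_mem (mul_mem (inv_mem (c ^ k).2) h1) (c ^ k).2
        have h1 := (hDm (c ^ k * ⟨x, hxC⟩ * (c ^ k)⁻¹)).1 hx
        rw [hpi, ← hnk] at h1
        exact (hDm ⟨x, hxC⟩).2 h1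
    · intro hd
      have h1 : (c ^ k) ^ M = 1 := by
        rw [← pow_mul, ← orderOf_dvd_iff_pow_eq_one, hcM]
        exact Nat.mul_dvd_mul ((Nat.modEq_zero_iff_dvd).1 hk0) (dvd_refl M)
      have h2 : orderOf (c ^ k) ∣ M := orderOf_dvd_of_pow_eq_one h1
      have h3 : orderOf ((c ^ k : C) : G) = orderOf (c ^ k) :=
        orderOf_injective C.subtype C.subtype_injective (c ^ k)
      rw [h3] at hd
      exact hM (hd.trans h2)
    · intro hz
      have h1 := (hker w).2 hz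
      rw [hwv] at h1
      apply hv1
      have h2 : v = q⁻¹ * (q * v * q⁻¹) * q := by group
      rw [h2, h1]
      group
    · have h1 : π (c ^ k * w * (c ^ k)⁻¹ * w⁻¹) = 1 := by
        have h2 := hact v hv
        rw [hnv, mul_inv_cancel_right] at h2
        rw [map_mul, map_mul, map_mul, map_inv, map_inv, hck, hwv]
        calc q * n ^ k * q⁻¹ * (q * v * q⁻¹) * (q * n ^ k * q⁻¹)⁻¹ * (q * v * q⁻¹)⁻¹
            = q * (n ^ k * v * (n ^ k)⁻¹) * v⁻¹ * q⁻¹ := by group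
          _ = 1 := by rw [h2]; group
      exact (hker _).1 h1
  intro x hx
  obtain ⟨w, hw, hwx⟩ := (hq x).1 hx
  have h1 := hfix w hw
  have h2 : π (c ^ k * w * (c ^ k)⁻¹ * w⁻¹) = 1 := (hker _).2 h1
  rw [map_mul, map_mul, map_mul, map_inv, map_inv, hck, hwx] at h2
  have h3 : q * n ^ k * q⁻¹ * (q * x * q⁻¹) * (q * n ^ k * q⁻¹)⁻¹ * (q * x * q⁻¹)⁻¹ =
      q * ((n ^ k * x * (n ^ k)⁻¹) * x⁻¹) * q⁻¹ := by group
  rw [h3, hact x hx] at h2
  have h4 : n * x * n⁻¹ * x⁻¹ = 1 := by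
    have h5 : n * x * n⁻¹ * x⁻¹ = q⁻¹ * (q * (n * x * n⁻¹ * x⁻¹) * q⁻¹) * q := by group
    rw [h5, h2]
    group
  exact mul_inv_eq_iff_eq_mul.1 (mul_inv_eq_one.1 h4)

/-- The free action if `D` is not abelian and the quotient has rank at most two. -/
theorem Fin_two {G Q : Type} [Group G] [Finite G] [Group Q] [Finite Q] (p : ℕ) (hp : p.Prime)
    (u : G) (C : Subgroup G) (hC : ∀ g : G, g ∈ C ↔ g * u = u * g) (π : C →* Q)
    (hπ : Function.Surjective π) (hker : ∀ x : C, π x = 1 ↔ (x : G) ∈ Subgroup.zpowers u)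
    (D : Subgroup G) (hDp : IsPGroup p D) (hcu : ∀ a ∈ D, a * u = u * a)
    (hcom : ∀ a ∈ D, ∀ b ∈ D, a * b * a⁻¹ * b⁻¹ ∈ Subgroup.zpowers u)
    (hna : ∃ x ∈ D, ∃ y ∈ D, x * y ≠ y * x)
    (hr : Nat.card {x : ((D.comap C.subtype).map π : Subgroup Q) // x ^ p = 1} ≤ p ^ 2)
    (n : G) (hn : ∀ x, x ∈ D ↔ n * x * n⁻¹ ∈ D) (hnu : n * u = u * n) (hnp : ¬ p ∣ orderOf n)
    (v : G) (hv : v ∈ D) (hvu : v ∉ Subgroup.zpowers u)
    (hnv : n * v * n⁻¹ * v⁻¹ ∈ Subgroup.zpowers u) :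
    ∀ x ∈ D, n * x * n⁻¹ * x⁻¹ ∈ Subgroup.zpowers u := by
  have huC : u ∈ C := (hC u).2 rfl
  have hDC : ∀ x ∈ D, x ∈ C := fun x hx => (hC x).2 (hcu x hx)
  have hcen : ∀ y : C, y * ⟨u, huC⟩ = ⟨u, huC⟩ * y := fun y => Subtype.ext ((hC y).1 y.2)
  have hker' : ∀ x : C, π x = 1 ↔ x ∈ Subgroup.zpowers (⟨u, huC⟩ : C) := by
    intro x
    rw [hker, Subgroup.mem_zpowers_iff, Subgroup.mem_zpowers_iff]
    constructor
    · rintro ⟨k, hk⟩
      exact ⟨k, Subtype.ext (by simpa using hk)⟩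
    · rintro ⟨k, hk⟩
      refine ⟨k, ?_⟩
      rw [← hk]
      simp
  obtain ⟨n', hn'⟩ : ∃ n' : C, (n' : G) = n := ⟨⟨n, (hC n).2 hnu⟩, rfl⟩
  have hno : orderOf n' = orderOf n := by
    rw [← hn']
    exact (orderOf_injective C.subtype C.subtype_injective n').symm
  have h1 := Frg_main p hp π hπ (⟨u, huC⟩ : C) hcen hker' ((D.comap C.subtype).map π)
    ((hDp.comap_of_injective C.subtype C.subtype_injective).map π) (by
      rintro _ ⟨a, ha, rfl⟩ _ ⟨b, hb, rfl⟩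
      have h2 : π (a * b * a⁻¹ * b⁻¹) = 1 := (hker _).2 (hcom a ha b hb)
      rw [map_mul, map_mul, map_mul, map_inv, map_inv] at h2
      exact mul_inv_eq_iff_eq_mul.1 (mul_inv_eq_one.1 h2)) hr (by
      obtain ⟨x, hx, y, hy, hxy⟩ := hna
      exact ⟨⟨x, hDC x hx⟩, ⟨y, hDC y hy⟩, ⟨_, hx, rfl⟩, ⟨_, hy, rfl⟩, fun h =>
        hxy (congrArg Subtype.val h)⟩) (orderOf n) hnp (π n') (by
      rintro _ ⟨x, hx, rfl⟩
      refine ⟨n' * x * n'⁻¹, ?_, by rw [map_mul, map_mul, map_inv]⟩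
      show ((n' * x * n'⁻¹ : C) : G) ∈ D
      have h2 := (hn (x : G)).1 hx
      rw [← hn'] at h2
      exact h2) (by
      intro x _
      rw [← map_pow, ← hno, pow_orderOf_eq_one, map_one, one_mul, mul_one])
    (π ⟨v, hDC v hv⟩) ⟨_, hv, rfl⟩ (fun h => hvu ((hker _).1 h)) (by
      have h2 : π (n' * ⟨v, hDC v hv⟩ * n'⁻¹ * (⟨v, hDC v hv⟩ : C)⁻¹) = 1 := by
        refine (hker _).2 ?_
        show (n' : G) * v * (n' : G)⁻¹ * v⁻¹ ∈ Subgroup.zpowers u
        rw [hn']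
        exact hnv
      rw [map_mul, map_mul, map_mul, map_inv, map_inv] at h2
      exact mul_inv_eq_iff_eq_mul.1 (mul_inv_eq_one.1 h2))
  intro x hx
  have h2 := h1 (π ⟨x, hDC x hx⟩) ⟨_, hx, rfl⟩
  have h3 : π (n' * ⟨x, hDC x hx⟩ * n'⁻¹ * (⟨x, hDC x hx⟩ : C)⁻¹) = 1 := by
    rw [map_mul, map_mul, map_mul, map_inv, map_inv, h2]
    group
  have h4 := (hker _).1 h3
  have h5 : ((n' * ⟨x, hDC x hx⟩ * n'⁻¹ * (⟨x, hDC x hx⟩ : C)⁻¹ : C) : G) =
      n * x * n⁻¹ * x⁻¹ := by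
    rw [← hn']
    rfl
  rwa [h5] at h4

end Pool.Agent.KBD
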