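import Mathlib

/-! KBD/Frg (helper48): the commutator pairing of a central cyclic extension with an abelian
quotient of rank at most two which is not commutative upstairs: an automorphism of order prime
to `p` of the quotient, induced by conjugation upstairs, which fixes an element `≠ 1` of it is
trivial on it. -/

namespace Pool.Agent.KBD

section pair

variable {C Q : Type*} [Group C] [Group Q]

/-- all lifts of `x` and `y` commute -/
def FrgC (π : C →* Q) (x y : Q) : Prop := ∀ a b : C, π a = x → π b = y → a * b = b * a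

theorem Frg_ker {π : C →* Q} {z : C} (hcen : ∀ y, y * z = z * y)
    (hker : ∀ x, π x = 1 ↔ x ∈ Subgroup.zpowers z) {k : C} (hk : π k = 1) (y : C) :
    y * k = k * y := by
  obtain ⟨i, rfl⟩ := Subgroup.mem_zpowers_iff.1 ((hker k).1 hk)
  exact ((show Commute y z from hcen y).zpow_right i).eq

theorem Frg_symm {π : C →* Q} {x y : Q} (h : FrgC π x y) : FrgC π y x :=
  fun a b ha hb => (h b a hb ha).symm

theorem Frg_mul {π : C →* Q} (hs : Function.Surjective π) {x y y' : Q} (h : FrgC π x y)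
    (h' : FrgC π x y') : FrgC π x (y * y') := by
  intro a b ha hb
  obtain ⟨b1, hb1⟩ := hs y
  have h1 := h a b1 ha hb1
  have h2 := h' a (b1⁻¹ * b) ha (by rw [map_mul, map_inv, hb, hb1]; group)
  calc a * b = a * b1 * (b1⁻¹ * b) := by group
    _ = b1 * (a * (b1⁻¹ * b)) := by rw [h1]; group
    _ = b1 * ((b1⁻¹ * b) * a) := by rw [h2]
    _ = b * a := by group

/-- two powers of the same element -/
theorem Frg_cyc {π : C →* Q} (hs : Function.Surjective π) {z : C} (hcen : ∀ y, y * z = z * y)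
    (hker : ∀ x, π x = 1 ↔ x ∈ Subgroup.zpowers z) {g x y : Q} (hx : x ∈ Subgroup.zpowers g)
    (hy : y ∈ Subgroup.zpowers g) : FrgC π x y := by
  obtain ⟨i, rfl⟩ := Subgroup.mem_zpowers_iff.1 hx
  obtain ⟨j, rfl⟩ := Subgroup.mem_zpowers_iff.1 hy
  obtain ⟨c, rfl⟩ := hs g
  intro a b ha hb
  have ha' : π (c ^ (-i) * a) = 1 := by rw [map_mul, ha, map_zpow]; group
  have hb' : π (c ^ (-j) * b) = 1 := by rw [map_mul, hb, map_zpow]; group
  obtain ⟨k, hk⟩ : ∃ k, c ^ (-i) * a = k := ⟨_, rfl⟩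
  obtain ⟨l, hl⟩ : ∃ l, c ^ (-j) * b = l := ⟨_, rfl⟩
  rw [hk] at ha'
  rw [hl] at hb'
  have ea : a = c ^ i * k := by rw [← hk]; group
  have eb : b = c ^ j * l := by rw [← hl]; group
  have hkc := Frg_ker hcen hker ha'
  have hlc := Frg_ker hcen hker hb'
  have c1 : Commute (c ^ i) (c ^ j) := (Commute.refl c).zpow_zpow i j
  have c2 : Commute (c ^ i * k) (c ^ j * l) := by
    apply Commute.mul_left
    · exact c1.mul_right (hlc _)
    · exact (Commute.mul_right (hkc (c ^ j)).symm (hkc l).symm)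
  rw [ea, eb]
  exact c2

/-- the pairing of a fixed element and a commutator with `n` -/
theorem Frg_fix {π : C →* Q} (hs : Function.Surjective π) {z : C} (hcen : ∀ y, y * z = z * y)
    (hker : ∀ x, π x = 1 ↔ x ∈ Subgroup.zpowers z) {n a y : Q} (hna : n * a = a * n)
    (hay : a * y = y * a) : FrgC π a (n * y * n⁻¹ * y⁻¹) := by
  intro a' w ha hw
  obtain ⟨n', hn'⟩ := hs n
  obtain ⟨y', hy'⟩ := hs y
  have hK := fun {k : C} (hk : π k = 1) (y : C) => Frg_ker hcen hker hk y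
  have hk1 : π (a' * y' * a'⁻¹ * y'⁻¹) = 1 := by
    simp only [map_mul, map_inv, ha, hy']
    rw [hay]; group
  have hk2 : π (a'⁻¹ * (n' * a' * n'⁻¹)) = 1 := by
    simp only [map_mul, map_inv, ha, hn']
    rw [hna]; group
  have hk3 : π ((n' * y' * n'⁻¹ * y'⁻¹)⁻¹ * w) = 1 := by
    simp only [map_mul, map_inv, hy', hn', hw]
    group
  obtain ⟨k1, e1⟩ : ∃ k, a' * y' * a'⁻¹ * y'⁻¹ = k := ⟨_, rfl⟩
  obtain ⟨k2, e2⟩ : ∃ k, a'⁻¹ * (n' * a' * n'⁻¹) = k := ⟨_, rfl⟩
  obtain ⟨k3, e3⟩ : ∃ k, (n' * y' * n'⁻¹ * y'⁻¹)⁻¹ * w = k := ⟨_, rfl⟩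
  rw [e1] at hk1
  rw [e2] at hk2
  rw [e3] at hk3
  have f1 : a' * y' = k1 * (y' * a') := by rw [← e1]; group
  have f2 : n' * a' * n'⁻¹ = a' * k2 := by rw [← e2]; group
  have f3 : w = (n' * y' * n'⁻¹ * y'⁻¹) * k3 := by rw [← e3]; group
  -- conjugating `f1` by `n'`
  have g1 : (n' * a' * n'⁻¹) * (n' * y' * n'⁻¹) = k1 * ((n' * y' * n'⁻¹) * (n' * a' * n'⁻¹)) := by
    calc (n' * a' * n'⁻¹) * (n' * y' * n'⁻¹) = n' * (a' * y') * n'⁻¹ := by group
      _ = n' * (k1 * (y' * a')) * n'⁻¹ := by rw [f1]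
      _ = (n' * k1) * (y' * a') * n'⁻¹ := by group
      _ = (k1 * n') * (y' * a') * n'⁻¹ := by rw [hK hk1 n']
      _ = _ := by group
  have g2 : a' * (n' * y' * n'⁻¹) = k1 * ((n' * y' * n'⁻¹) * a') := by
    rw [f2] at g1
    have g3 : a' * (n' * y' * n'⁻¹) * k2 = k1 * ((n' * y' * n'⁻¹) * a') * k2 := by
      calc a' * (n' * y' * n'⁻¹) * k2 = a' * ((n' * y' * n'⁻¹) * k2) := by group
        _ = a' * (k2 * (n' * y' * n'⁻¹)) := by rw [hK hk2 (n' * y' * n'⁻¹)]
        _ = a' * k2 * (n' * y' * n'⁻¹) := by group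
        _ = k1 * ((n' * y' * n'⁻¹) * (a' * k2)) := g1
        _ = _ := by group
    exact mul_right_cancel g3
  have g4 : a' * y'⁻¹ = k1⁻¹ * (y'⁻¹ * a') := by
    have : y' * a' = k1⁻¹ * (a' * y') := by rw [f1]; group
    calc a' * y'⁻¹ = y'⁻¹ * (y' * a') * y'⁻¹ := by group
      _ = y'⁻¹ * (k1⁻¹ * (a' * y')) * y'⁻¹ := by rw [this]
      _ = (y'⁻¹ * k1⁻¹) * a' := by group
      _ = (k1⁻¹ * y'⁻¹) * a' := by
          rw [hK (k := k1⁻¹) (by rw [map_inv, hk1, inv_one]) y'⁻¹]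
      _ = _ := by group
  rw [f3]
  calc a' * ((n' * y' * n'⁻¹ * y'⁻¹) * k3) = (a' * (n' * y' * n'⁻¹)) * y'⁻¹ * k3 := by group
    _ = k1 * ((n' * y' * n'⁻¹) * a') * y'⁻¹ * k3 := by rw [g2]
    _ = k1 * (n' * y' * n'⁻¹) * (a' * y'⁻¹) * k3 := by group
    _ = k1 * (n' * y' * n'⁻¹) * (k1⁻¹ * (y'⁻¹ * a')) * k3 := by rw [g4]
    _ = k1 * ((n' * y' * n'⁻¹) * k1⁻¹) * (y'⁻¹ * a') * k3 := by group
    _ = k1 * (k1⁻¹ * (n' * y' * n'⁻¹)) * (y'⁻¹ * a') * k3 := by
        rw [hK (k := k1⁻¹) (by rw [map_inv, hk1, inv_one]) (n' * y' * n'⁻¹)]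
    _ = (n' * y' * n'⁻¹ * y'⁻¹) * (a' * k3) := by group
    _ = (n' * y' * n'⁻¹ * y'⁻¹) * (k3 * a') := by rw [hK hk3 a']
    _ = _ := by group

end pair

section cyc

/-- a finite abelian `p`-group with at most `p` solutions of `x ^ p = 1` -/
theorem Frg_tor {A : Type*} [CommGroup A] [Finite A] (p k : ℕ) :
    Nat.card {x : A // x ^ (p ^ k) = 1} ≤ Nat.card {x : A // x ^ p = 1} ^ k := by
  classical
  have := Fintype.ofFinite A
  simp only [Nat.card_eq_fintype_card, Fintype.card_subtype]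
  induction k with
  | zero =>
    rw [pow_zero, pow_zero]
    refine Finset.card_le_one.2 ?_
    intro a ha b hb
    have h1 := (Finset.mem_filter.1 ha).2
    have h2 := (Finset.mem_filter.1 hb).2
    rw [pow_one] at h1 h2
    rw [h1, h2]
  | succ k ih =>
    rw [pow_succ' (Finset.card _)]
    refine le_trans (Finset.card_le_mul_card_image (f := fun x : A => x ^ p) _
      (Finset.card {x : A | x ^ p = 1}) ?_) ?_
    · intro a ha
      obtain ⟨x0, hx0, rfl⟩ := Finset.mem_image.1 ha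
      refine Finset.card_le_card_of_injOn (fun x => x * x0⁻¹) ?_ ?_
      · intro x hx
        have h2 := (Finset.mem_filter.1 (Finset.mem_coe.1 hx)).2
        simp only [Finset.coe_filter, Finset.mem_univ, true_and, Set.mem_ofPred_eq]
        rw [mul_pow, inv_pow, h2, mul_inv_cancel]
      · intro x _ y _ h
        exact mul_right_cancel h
    · refine Nat.mul_le_mul_left _ (le_trans (Finset.card_le_card ?_) ih)
      intro y hy
      obtain ⟨x, hx, rfl⟩ := Finset.mem_image.1 hy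
      have h2 := (Finset.mem_filter.1 hx).2
      refine Finset.mem_filter.2 ⟨Finset.mem_univ _, ?_⟩
      rw [← pow_mul, ← pow_succ']
      exact h2

theorem Frg_cyclic {A : Type*} [CommGroup A] [Finite A] (p : ℕ) (hp : p.Prime)
    (hA : IsPGroup p A) (h1 : Nat.card {x : A // x ^ p = 1} ≤ p) : IsCyclic A := by
  have : Fact p.Prime := ⟨hp⟩
  obtain ⟨m, hm⟩ := IsPGroup.iff_card.1 hA
  have hd : Monoid.exponent A ∣ p ^ m := hm ▸ Group.exponent_dvd_nat_card
  obtain ⟨k, -, hk⟩ := (Nat.dvd_prime_pow hp).1 hd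
  apply IsCyclic.of_exponent_eq_card
  apply le_antisymm
  · exact Nat.le_of_dvd Nat.card_pos Group.exponent_dvd_nat_card
  · have h2 := Frg_tor (A := A) p k
    have h3 : Nat.card {x : A // x ^ (p ^ k) = 1} = Nat.card A := by
      refine Nat.card_congr (Equiv.subtypeUnivEquiv fun x => ?_)
      rw [← hk]
      exact Monoid.pow_exponent_eq_one x
    rw [h3] at h2
    rw [hk]
    exact le_trans h2 (Nat.pow_le_pow_left h1 k)

end cyc

section main

/-- order prime to `p` and power of `p` -/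
theorem Frg_pow {A : Type*} [Group A] (p : ℕ) (hp : p.Prime) (hA : IsPGroup p A) {N : ℕ}
    (hN : ¬ p ∣ N) {y : A} (hy : y ^ N = 1) : y = 1 := by
  obtain ⟨k, hk⟩ := hA y
  have h1 : orderOf y ∣ N := orderOf_dvd_of_pow_eq_one hy
  have h2 : orderOf y ∣ p ^ k := orderOf_dvd_of_pow_eq_one hk
  have h3 : Nat.Coprime N (p ^ k) := Nat.Coprime.pow_right k ((hp.coprime_iff_not_dvd.2 hN).symm)
  exact orderOf_eq_one_iff.1 (Nat.dvd_one.1 (h3 ▸ Nat.dvd_gcd h1 h2))

theorem Frg_root {A : Type*} [Group A] (p : ℕ) (hp : p.Prime) (hA : IsPGroup p A) {N : ℕ}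
    (hN : ¬ p ∣ N) (x : A) : ∃ t : ℕ, (x ^ t) ^ N = x := by
  obtain ⟨k, hk⟩ := hA x
  have h3 : Nat.Coprime N (p ^ k) := Nat.Coprime.pow_right k ((hp.coprime_iff_not_dvd.2 hN).symm)
  rcases Nat.eq_zero_or_pos k with h0 | h0
  · subst h0
    refine ⟨0, ?_⟩
    rw [pow_zero, pow_one] at hk
    simp [hk]
  · have h1 : 1 < p ^ k := Nat.one_lt_pow h0.ne' hp.one_lt
    obtain ⟨t, ht⟩ := Nat.exists_mul_mod_eq_one_of_coprime h3 h1
    refine ⟨t, ?_⟩
    rw [← pow_mul, mul_comm t N]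
    have h4 : x ^ (N * t) = x ^ (N * t % p ^ k) := pow_eq_pow_mod _ hk
    rw [h4, ht.2, pow_one]

/-- **the decomposition**: an automorphism of order dividing `N` prime to `p` of a finite abelian
`p`-group with at most `p ^ 2` solutions of `x ^ p = 1`, with a fixed point `≠ 1`, not the
identity: the group is the product of two cyclic groups, the fixed points and the `φ x / x` -/
theorem Frg_dec {A : Type*} [CommGroup A] [Finite A] (p : ℕ) (hp : p.Prime)
    (hA : IsPGroup p A) (hr : Nat.card {x : A // x ^ p = 1} ≤ p ^ 2) (φ : A →* A) {N : ℕ}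
    (hN : ¬ p ∣ N) (hφ : ∀ x, φ^[N] x = x) {v : A} (hv : v ≠ 1) (hφv : φ v = v)
    {w : A} (hw : φ w ≠ w) :
    ∃ g h : A, φ g = g ∧ (∃ y, h = φ y * y⁻¹) ∧
      ∀ x : A, ∃ a b : A, a ∈ Subgroup.zpowers g ∧ b ∈ Subgroup.zpowers h ∧ x = a * b ∧
        φ a = a ∧ ∃ y, b = φ y * y⁻¹ := by
  classical
  have hpf : Fact p.Prime := ⟨hp⟩
  set β : A →* A := φ * (MonoidHom.id A)⁻¹ with hβ
  have hβa : ∀ x, β x = φ x * x⁻¹ := fun x => by simp [hβ]
  -- the trace
  set tr : A → A := fun x => ∏ i ∈ Finset.range N, φ^[i] x with htr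
  have hit : ∀ i x, φ^[i] (φ x) = φ^[i + 1] x := fun i x => (Function.iterate_succ_apply _ _ _).symm
  have htrφ : ∀ x, ∏ i ∈ Finset.range N, φ^[i + 1] x = tr x := by
    intro x
    have h1 := Finset.prod_range_succ (fun i => φ^[i] x) N
    have h2 := Finset.prod_range_succ' (fun i => φ^[i] x) N
    rw [h1, hφ] at h2
    simp only [Function.iterate_zero, id_eq] at h2
    exact (mul_right_cancel h2).symm
  have htr1 : ∀ x, tr (φ x) = tr x := by
    intro x
    rw [← htrφ x]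
    exact Finset.prod_congr rfl fun i _ => hit i x
  have htr2 : ∀ x, φ (tr x) = tr x := by
    intro x
    conv_rhs => rw [← htrφ x]
    rw [htr]
    simp only
    rw [map_prod]
    exact Finset.prod_congr rfl fun i _ => (Function.iterate_succ_apply' _ _ _).symm
  have hitm : ∀ i x y, φ^[i] (x * y) = φ^[i] x * φ^[i] y := by
    intro i
    induction i with
    | zero => intro x y; rfl
    | succ i ih => intro x y; simp only [Function.iterate_succ_apply', ih, map_mul]
  have htrm : ∀ x y, tr (x * y) = tr x * tr y := by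
    intro x y
    simp only [htr]
    rw [← Finset.prod_mul_distrib]
    exact Finset.prod_congr rfl fun i _ => hitm i x y
  have htr3 : ∀ x, tr (φ x * x⁻¹) = 1 := by
    intro x
    have h1 : tr (φ x * x⁻¹) * tr x = tr (φ x) := by rw [← htrm]; group
    rw [htr1] at h1
    exact mul_eq_right.1 h1
  have htr4 : ∀ x, φ x = x → tr x = x ^ N := by
    intro x hx
    have : ∀ i, φ^[i] x = x := fun i => Function.iterate_fixed hx i
    simp [htr, this]
  have hB : ∀ x, tr x * (x ^ N)⁻¹ ∈ β.range := by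
    intro x
    have h1 : ∀ i, φ^[i] x * x⁻¹ ∈ β.range := by
      intro i
      induction i with
      | zero => simp
      | succ i ih =>
        have : φ^[i + 1] x * x⁻¹ = β (φ^[i] x) * (φ^[i] x * x⁻¹) := by
          rw [Function.iterate_succ_apply', hβa]; group
        rw [this]
        exact mul_mem ⟨_, rfl⟩ ih
    have h2 : tr x * (x ^ N)⁻¹ = ∏ i ∈ Finset.range N, (φ^[i] x * x⁻¹) := by
      rw [Finset.prod_mul_distrib]
      simp [htr]
    rw [h2]
    exact prod_mem fun i _ => h1 i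
  -- the two subgroups
  have hdis : ∀ y, φ y = y → y ∈ β.range → y = 1 := by
    rintro y hy ⟨x, rfl⟩
    apply Frg_pow p hp hA hN
    rw [← htr4 _ hy, hβa]
    exact htr3 x
  have hker : ∀ x, x ∈ β.ker ↔ φ x = x := by
    intro x
    rw [MonoidHom.mem_ker, hβa, mul_inv_eq_one]
  have hΩ : ∀ (S : Subgroup A), (∃ s ∈ S, s ≠ 1) → p ≤ Nat.card {x : S // x ^ p = 1} := by
    rintro S ⟨s, hs, hs1⟩
    have hS : IsPGroup p S := hA.to_subgroup S
    have hnt : Nontrivial S := ⟨⟨⟨s, hs⟩, 1, fun h => hs1 (congrArg Subtype.val h)⟩⟩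
    have hd : p ∣ Nat.card S := by
      obtain ⟨m, hm⟩ := IsPGroup.iff_card.1 hS
      rcases Nat.eq_zero_or_pos m with h0 | h0
      · rw [h0, pow_zero] at hm
        exact absurd hm (Finite.one_lt_card_iff_nontrivial.2 hnt).ne'
      · exact hm ▸ dvd_pow_self p h0.ne'
    obtain ⟨y, hy⟩ := exists_prime_orderOf_dvd_card' p hd
    have h1 : Nat.card (Subgroup.zpowers y) = p := by rw [Nat.card_zpowers, hy]
    have h2 : ∀ u : Subgroup.zpowers y, (u.1 : S) ^ p = 1 := by
      intro u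
      obtain ⟨i, hi⟩ := Subgroup.mem_zpowers_iff.1 u.2
      rw [← hi, ← zpow_natCast, ← zpow_mul, mul_comm, zpow_mul, zpow_natCast, ← hy,
        pow_orderOf_eq_one, one_zpow]
    refine le_trans h1.symm.le (Nat.card_le_card_of_injective
      (fun u : Subgroup.zpowers y => (⟨u.1, h2 u⟩ : {x : S // x ^ p = 1})) ?_)
    intro u u' h
    exact Subtype.ext (congrArg (fun t => t.1) h)
  have hprod : Nat.card {x : β.ker // x ^ p = 1} * Nat.card {x : β.range // x ^ p = 1}
      ≤ p ^ 2 := by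
    rw [← Nat.card_prod]
    refine le_trans (Nat.card_le_card_of_injective
      (fun u : {x : β.ker // x ^ p = 1} × {x : β.range // x ^ p = 1} =>
        (⟨(u.1.1 : A) * (u.2.1 : A), ?_⟩ : {x : A // x ^ p = 1})) ?_) hr
    · have h1 : ((u.1.1 : A)) ^ p = 1 := by
        have := u.1.2
        rw [Subtype.ext_iff] at this
        simpa using this
      have h2 : ((u.2.1 : A)) ^ p = 1 := by
        have := u.2.2
        rw [Subtype.ext_iff] at this
        simpa using this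
      rw [mul_pow, h1, h2, one_mul]
    · rintro ⟨a, b⟩ ⟨a', b'⟩ h
      have h' : (a.1 : A) * (b.1 : A) = (a'.1 : A) * (b'.1 : A) := congrArg Subtype.val h
      have h3 : ((a'.1 : A))⁻¹ * (a.1 : A) = (b'.1 : A) * ((b.1 : A))⁻¹ := by
        rw [eq_mul_inv_iff_mul_eq, mul_assoc, h']; group
      have h4 : ((a'.1 : A))⁻¹ * (a.1 : A) = 1 := by
        apply hdis
        · exact (hker _).1 (mul_mem (inv_mem a'.1.2) a.1.2)
        · rw [h3]
          exact mul_mem b'.1.2 (inv_mem b.1.2)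
      have h5 : (a.1 : A) = (a'.1 : A) := (inv_mul_eq_one.1 h4).symm
      have h6 : (b.1 : A) = (b'.1 : A) := by
        rw [h5] at h'
        exact mul_left_cancel h'
      exact Prod.ext (Subtype.ext (Subtype.ext h5)) (Subtype.ext (Subtype.ext h6))
  have hA1 : p ≤ Nat.card {x : β.ker // x ^ p = 1} := hΩ _ ⟨v, (hker v).2 hφv, hv⟩
  have hB1 : p ≤ Nat.card {x : β.range // x ^ p = 1} := hΩ _ ⟨β w, ⟨w, rfl⟩, fun h => hw
    ((hker w).1 h)⟩
  have hA2 : Nat.card {x : β.ker // x ^ p = 1} ≤ p := by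
    by_contra hc
    have := Nat.mul_le_mul (Nat.succ_le_of_lt (not_le.1 hc)) hB1
    have hp0 := hp.pos
    nlinarith
  have hB2 : Nat.card {x : β.range // x ^ p = 1} ≤ p := by
    by_contra hc
    have := Nat.mul_le_mul hA1 (Nat.succ_le_of_lt (not_le.1 hc))
    have hp0 := hp.pos
    nlinarith
  have hAc : IsCyclic β.ker := Frg_cyclic p hp (hA.to_subgroup _) hA2
  have hBc : IsCyclic β.range := Frg_cyclic p hp (hA.to_subgroup _) hB2
  obtain ⟨g, hg⟩ := hAc.exists_generator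
  obtain ⟨h, hh⟩ := hBc.exists_generator
  have hz : ∀ (S : Subgroup A) (g : S), (∀ x, x ∈ Subgroup.zpowers g) → ∀ x ∈ S,
      x ∈ Subgroup.zpowers (g : A) := by
    intro S g hg x hx
    obtain ⟨i, hi⟩ := Subgroup.mem_zpowers_iff.1 (hg ⟨x, hx⟩)
    exact Subgroup.mem_zpowers_iff.2 ⟨i, by rw [← Subgroup.coe_zpow, hi]⟩
  refine ⟨g, h, (hker _).1 g.2, ?_, ?_⟩
  · obtain ⟨y, hy⟩ := h.2
    exact ⟨y, by rw [← hy, hβa]⟩
  · intro x
    obtain ⟨t, ht⟩ := Frg_root p hp hA hN x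
    refine ⟨tr (x ^ t), (tr (x ^ t) * ((x ^ t) ^ N)⁻¹)⁻¹, ?_, ?_, ?_, htr2 _, ?_⟩
    · exact hz _ g hg _ ((hker _).2 (htr2 _))
    · exact inv_mem (hz _ h hh _ (hB _))
    · rw [mul_inv, inv_inv, mul_inv_cancel_left, ht]
    · obtain ⟨y, hy⟩ := inv_mem (hB (x ^ t))
      exact ⟨y, by rw [← hy, hβa]⟩

/-- **the free action** (helper93's end statement): if the central extension `C → Q` with cyclic
kernel is not commutative over the abelian `p`-group `D` of rank at most two, then an element `n`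
of `Q` which normalizes `D`, acts on it with order prime to `p` and fixes an element `≠ 1` of `D`
acts trivially on `D` -/
theorem Frg_main {C Q : Type*} [Group C] [Finite C] [Group Q] [Finite Q] (p : ℕ) (hp : p.Prime)
    (π : C →* Q) (hs : Function.Surjective π) (z : C) (hcen : ∀ y, y * z = z * y)
    (hker : ∀ x, π x = 1 ↔ x ∈ Subgroup.zpowers z) (D : Subgroup Q) (hD : IsPGroup p D)
    (hab : ∀ x ∈ D, ∀ y ∈ D, x * y = y * x) (hr : Nat.card {x : D // x ^ p = 1} ≤ p ^ 2)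
    (hna : ∃ a b, π a ∈ D ∧ π b ∈ D ∧ a * b ≠ b * a) (N : ℕ) (hN : ¬ p ∣ N) (n : Q)
    (hnD : ∀ x ∈ D, n * x * n⁻¹ ∈ D) (hnN : ∀ x ∈ D, n ^ N * x = x * n ^ N) (v : Q)
    (hvD : v ∈ D) (hv : v ≠ 1) (hnv : n * v = v * n) : ∀ x ∈ D, n * x = x * n := by
  intro w hw
  by_contra hc
  let _ : CommGroup D := { (inferInstance : Group D) with
    mul_comm := fun a b => Subtype.ext (hab _ a.2 _ b.2) }
  set φ : D →* D :=
    { toFun := fun x => ⟨n * x.1 * n⁻¹, hnD _ x.2⟩
      map_one' := Subtype.ext (by simp)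
      map_mul' := fun x y => Subtype.ext (by simp) } with hφdef
  have hφa : ∀ x, ((φ x : D) : Q) = n * x.1 * n⁻¹ := fun x => rfl
  have hit : ∀ (i : ℕ) (x : D), ((φ^[i] x : D) : Q) = n ^ i * x.1 * (n ^ i)⁻¹ := by
    intro i
    induction i with
    | zero => intro x; simp
    | succ i ih =>
      intro x
      rw [Function.iterate_succ_apply', hφa, ih, pow_succ']
      group
  have hφN : ∀ x, φ^[N] x = x := by
    intro x
    apply Subtype.ext
    rw [hit, hnN _ x.2]
    group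
  obtain ⟨g, h, hg, ⟨y0, hy0⟩, hdec⟩ := Frg_dec (A := D) p hp hD hr φ hN hφN
    (v := ⟨v, hvD⟩) (fun h => hv (congrArg Subtype.val h))
    (Subtype.ext (by rw [hφa]; simp only; rw [hnv]; group))
    (w := ⟨w, hw⟩) (fun h => hc (by
      have h1 := congrArg Subtype.val h
      rw [hφa] at h1
      simp only at h1
      calc n * w = (n * w * n⁻¹) * n := by group
        _ = w * n := by rw [h1]))
  -- the four pairings
  have hz : ∀ {g x : D}, x ∈ Subgroup.zpowers g → (x : Q) ∈ Subgroup.zpowers (g : Q) := by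
    intro g x hx
    obtain ⟨i, hi⟩ := Subgroup.mem_zpowers_iff.1 hx
    exact Subgroup.mem_zpowers_iff.2 ⟨i, by rw [← Subgroup.coe_zpow, hi]⟩
  have hfix : ∀ a b : D, φ a = a → (∃ y, b = φ y * y⁻¹) → FrgC π (a : Q) (b : Q) := by
    rintro a b ha ⟨y, rfl⟩
    have h1 := congrArg Subtype.val ha
    rw [hφa] at h1
    have h2 : n * (a : Q) = a * n := by
      calc n * (a : Q) = (n * a * n⁻¹) * n := by group
        _ = a * n := by rw [h1]
    have h3 := Frg_fix hs hcen hker (y := (y : Q)) h2 (hab _ a.2 _ y.2)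
    exact h3
  have hall : ∀ x y : D, FrgC π (x : Q) (y : Q) := by
    intro x y
    obtain ⟨a, b, ha, hb, rfl, hfa, hfb⟩ := hdec x
    obtain ⟨a', b', ha', hb', rfl, hfa', hfb'⟩ := hdec y
    have e1 : FrgC π (a : Q) (a' : Q) := Frg_cyc hs hcen hker (hz ha) (hz ha')
    have e2 : FrgC π (a : Q) (b' : Q) := hfix a b' hfa hfb'
    have e3 : FrgC π (b : Q) (a' : Q) := Frg_symm (hfix a' b hfa' hfb)
    have e4 : FrgC π (b : Q) (b' : Q) := Frg_cyc hs hcen hker (hz hb) (hz hb')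
    have e5 : FrgC π (a : Q) ((a' : Q) * (b' : Q)) := Frg_mul hs e1 e2
    have e6 : FrgC π (b : Q) ((a' : Q) * (b' : Q)) := Frg_mul hs e3 e4
    exact Frg_symm (Frg_mul hs (Frg_symm e5) (Frg_symm e6))
  obtain ⟨a, b, ha, hb, hne⟩ := hna
  exact hne (hall ⟨π a, ha⟩ ⟨π b, hb⟩ a b rfl rfl)

end main

end Pool.Agent.KBD
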