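import Pool.Agent.KBD.Defs
import Pool.Agent.KBD.In2
import Pool.Agent.BlkS.Ie
import Pool.Agent.KBZ.Res
import Pool.Agent.KBZ.Bess
import Pool.Agent.KBZ.Four
import Pool.Agent.KBZ.HX
import Pool.Agent.KBZ.AsmZ
import Pool.Agent.KBZ.MkLoc
import Pool.Agent.KBQ.LnX

/-! Transfer of projective characters of `C_G(u) / <u>` to `G`: the coefficients. -/

set_option autoImplicit false

namespace Pool.Agent.KBD

open Pool.Agent.KB Pool.Agent.KB.ContrAux Pool.Agent.KBL Pool.Agent.KBZ Pool.Agent.KBU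
  Pool.Agent.KBQ

/-- Elements of the span are class functions. -/
theorem Tra_class {Q : Type} [Group Q] [Fintype Q] (Φ : Q → ℂ) (hΦ : Φ ∈ AddSubgroup.closure (Irr Q))
    (y z : Q) (h : IsConj y z) : Φ y = Φ z := by
  refine AddSubgroup.closure_induction (p := fun Φ _ => Φ y = Φ z) ?_ rfl ?_ ?_ hΦ
  · intro φ hφ
    exact irr_conj hφ h
  · intro a b _ _ ha hb
    show a y + b y = a z + b z
    rw [ha, hb]
  · intro a _ ha
    show - a y = - a z
    rw [ha]

open Classical in
/-- Sums over the `p`-regular elements of the quotient. -/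
theorem Tra_fib {C Q M : Type} [Group C] [Fintype C] [Group Q] [Fintype Q] [AddCommMonoid M]
    (p n : ℕ)
    (hp : p.Prime) (π : C →* Q) (hπ : Function.Surjective π) (z : C) (hz : orderOf z = p ^ n)
    (hcen : ∀ y : C, y * z = z * y) (hker : ∀ x : C, π x = 1 ↔ x ∈ Subgroup.zpowers z)
    (F : Q → M) (hF : ∀ q, p ∣ orderOf q → F q = 0) :
    ∑ y : C with ¬ p ∣ orderOf y, F (π y) = ∑ q, F q := by
  have h1 : ∑ q, F q = ∑ q : Q with ¬ p ∣ orderOf q, F q := by
    rw [Finset.sum_filter]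
    refine Finset.sum_congr rfl fun q _ => ?_
    by_cases hq : p ∣ orderOf q
    · rw [if_neg (not_not.2 hq), hF q hq]
    · rw [if_pos hq]
  rw [h1]
  refine Finset.sum_bij (fun y _ => π y) ?_ ?_ ?_ ?_
  · intro y hy
    rw [Finset.mem_filter] at hy ⊢
    exact ⟨Finset.mem_univ _, fun hd => hy.2 (hd.trans (orderOf_map_dvd π y))⟩
  · intro y hy y' hy' h
    rw [Finset.mem_filter] at hy hy'
    exact In2_inj p n hp π z hz hcen hker _ _ hy.2 hy'.2 h
  · intro q hq
    rw [Finset.mem_filter] at hq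
    obtain ⟨y, hy, rfl⟩ := Inf_lift p hp π hπ q hq.2
    exact ⟨y, Finset.mem_filter.2 ⟨Finset.mem_univ _, hy⟩, rfl⟩
  · intro y _
    rfl

open Classical in
/-- The order of a fibre. -/
theorem Tra_card {C Q : Type} [Group C] [Fintype C] [Group Q] [Fintype Q] (p n : ℕ)
    (π : C →* Q) (z : C) (hz : orderOf z = p ^ n)
    (hker : ∀ x : C, π x = 1 ↔ x ∈ Subgroup.zpowers z) (y : C) :
    (Finset.univ.filter fun g : C => π g = π y).card = p ^ n := by
  rw [← hz, ← Nat.card_zpowers, Nat.card_eq_fintype_card, ← Finset.card_univ]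
  refine Finset.card_bij' (fun g hg => (⟨g * y⁻¹, (hker _).1 (by
    rw [Finset.mem_filter] at hg
    rw [map_mul, map_inv, hg.2, mul_inv_cancel])⟩ : Subgroup.zpowers z))
    (fun k _ => (k : C) * y) ?_ ?_ ?_ ?_
  · intro g _
    exact Finset.mem_univ _
  · intro k _
    rw [Finset.mem_filter]
    refine ⟨Finset.mem_univ _, ?_⟩
    rw [map_mul, (hker _).2 k.2, one_mul]
  · intro g _
    simp
  · intro k _
    apply Subtype.ext
    simp

open Classical in
/-- Integrality. -/
theorem Tra_int {C Q : Type} [Group C] [Fintype C] [Group Q] [Fintype Q] (p n : ℕ) (hp : p.Prime)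
    (π : C →* Q) (hπ : Function.Surjective π) (z : C) (hz : orderOf z = p ^ n)
    (hcen : ∀ y : C, y * z = z * y) (hker : ∀ x : C, π x = 1 ↔ x ∈ Subgroup.zpowers z)
    (τ : C → ℂ) (hτ : τ ∈ Irr C) (Φ : Q → ℂ) (hΦ : Φ ∈ AddSubgroup.closure (Irr Q))
    (hs : ∀ q, p ∣ orderOf q → Φ q = 0) :
    ∃ b : ℤ, ∑ y : C with ¬ p ∣ orderOf y, τ y * (starRingEnd ℂ) (Φ (π y)) =
      (Nat.card Q : ℂ) * b := by
  obtain ⟨nn, hn⟩ := BlkS.adams p hp τ hτ
  set F : C → ℂ := fun g => ∑ φ : Irr C, (nn φ : ℂ) * φ.1 g with hF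
  -- inner products of generalized characters
  have h1 : ∀ Ψ ∈ AddSubgroup.closure (Irr Q), ∃ b : ℤ,
      ∑ g : C, F g * (starRingEnd ℂ) (Ψ (π g)) = (Nat.card C : ℂ) * b := by
    intro Ψ hΨ
    refine AddSubgroup.closure_induction (p := fun Ψ _ => ∃ b : ℤ,
      ∑ g : C, F g * (starRingEnd ℂ) (Ψ (π g)) = (Nat.card C : ℂ) * b) ?_ ?_ ?_ ?_ hΨ
    · intro X hX
      have hX' := Inf_irr π hπ X hX
      refine ⟨nn ⟨_, hX'⟩, ?_⟩
      have h2 : ∀ g : C, (starRingEnd ℂ) (X (π g)) = (fun h => X (π h)) g⁻¹ := by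
        intro g
        exact (irr_inv hX' g).symm
      simp only [h2, hF, Finset.sum_mul]
      rw [Finset.sum_comm, Finset.sum_eq_single (⟨_, hX'⟩ : Irr C)]
      · have h3 := (Col_row (fun h => X (π h)) (fun h => X (π h)) hX' hX').1 rfl
        calc ∑ g : C, (nn ⟨_, hX'⟩ : ℂ) * (fun h => X (π h)) g * (fun h => X (π h)) g⁻¹
            = (nn ⟨_, hX'⟩ : ℂ) * ∑ g : C, (fun h => X (π h)) g * (fun h => X (π h)) g⁻¹ := by
              rw [Finset.mul_sum]
              exact Finset.sum_congr rfl fun g _ => by ring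
          _ = (Nat.card C : ℂ) * (nn ⟨_, hX'⟩ : ℂ) := by rw [h3]; ring
      · intro φ _ hφ
        have h3 := (Col_row φ.1 (fun h => X (π h)) φ.2 hX').2 (fun h => hφ (Subtype.ext h))
        calc ∑ g : C, (nn φ : ℂ) * φ.1 g * (fun h => X (π h)) g⁻¹
            = (nn φ : ℂ) * ∑ g : C, φ.1 g * (fun h => X (π h)) g⁻¹ := by
              rw [Finset.mul_sum]
              exact Finset.sum_congr rfl fun g _ => by ring
          _ = 0 := by rw [h3, mul_zero]
      · intro h
        exact absurd (Finset.mem_univ _) h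
    · refine ⟨0, ?_⟩
      simp
    · intro a b _ _ ha hb
      obtain ⟨a', ha⟩ := ha
      obtain ⟨b', hb⟩ := hb
      refine ⟨a' + b', ?_⟩
      simp only [Pi.add_apply, map_add, mul_add, Finset.sum_add_distrib]
      rw [ha, hb]
      push_cast
      ring
    · intro a _ ha
      obtain ⟨a', ha⟩ := ha
      refine ⟨-a', ?_⟩
      simp only [Pi.neg_apply, map_neg, mul_neg, Finset.sum_neg_distrib]
      rw [ha]
      push_cast
      ring
  obtain ⟨b, hb⟩ := h1 Φ hΦ
  refine ⟨b, ?_⟩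
  -- the values of `F`
  have hFv : ∀ y : C, ¬ p ∣ orderOf y → ∀ g : C, π g = π y → F g = τ y := by
    intro y hy g hg
    have h2 : g * y⁻¹ ∈ Subgroup.zpowers z := (hker _).1 (by
      rw [map_mul, map_inv, hg, mul_inv_cancel])
    obtain ⟨k, hk⟩ := Subgroup.mem_zpowers_iff.1 h2
    have h3 : g = z ^ k * y := by rw [hk, inv_mul_cancel_right]
    have h4 : (z ^ k) ^ (p ^ n) = 1 := by
      rw [← hz, ← zpow_natCast, ← zpow_mul, mul_comm, zpow_mul, zpow_natCast,
        pow_orderOf_eq_one, one_zpow]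
    have h5 : z ^ k * y = y * z ^ k := ((show Commute y z from hcen y).zpow_right k).eq.symm
    rw [h3]
    exact (hn (z ^ k) y n h4 h5 hy).symm
  -- the sum over `C`
  have h2 : ∑ g : C, F g * (starRingEnd ℂ) (Φ (π g)) =
      (p : ℂ) ^ n * ∑ y : C with ¬ p ∣ orderOf y, τ y * (starRingEnd ℂ) (Φ (π y)) := by
    have h3 : ∀ g : C, F g * (starRingEnd ℂ) (Φ (π g)) =
        ∑ y : C with ¬ p ∣ orderOf y,
          if π g = π y then τ y * (starRingEnd ℂ) (Φ (π y)) else 0 := by
      intro g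
      by_cases hg : p ∣ orderOf (π g)
      · rw [hs _ hg, map_zero, mul_zero]
        symm
        refine Finset.sum_eq_zero fun y _ => ?_
        split_ifs with h
        · rw [← h, hs _ hg, map_zero, mul_zero]
        · rfl
      · obtain ⟨y, hy, hyg⟩ := Inf_lift p hp π hπ (π g) hg
        rw [Finset.sum_eq_single y]
        · rw [if_pos hyg.symm, hyg, hFv y hy g hyg.symm]
        · intro y' hy' hne
          rw [if_neg]
          intro h
          apply hne
          rw [Finset.mem_filter] at hy'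
          exact In2_inj p n hp π z hz hcen hker _ _ hy'.2 hy (by rw [← h, hyg])
        · intro h
          rw [Finset.mem_filter] at h
          exact absurd ⟨Finset.mem_univ _, hy⟩ h
    rw [Finset.sum_congr rfl fun g _ => h3 g, Finset.sum_comm, Finset.mul_sum]
    refine Finset.sum_congr rfl fun y _ => ?_
    rw [← Finset.sum_filter, Finset.sum_const, Tra_card p n π z hz hker y, nsmul_eq_mul]
    push_cast
    ring
  rw [h2] at hb
  have h3 : (Nat.card C : ℂ) = (p : ℂ) ^ n * (Nat.card Q : ℂ) := by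
    rw [In2_order p n π hπ z hz hker]
    push_cast
    ring
  rw [h3, mul_assoc] at hb
  have hp0 : (p : ℂ) ^ n ≠ 0 := pow_ne_zero _ (by exact_mod_cast hp.ne_zero)
  exact mul_left_cancel₀ hp0 hb

end Pool.Agent.KBD
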