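import Pool.Agent.KBD.Fin2
import Pool.Agent.KBY.KeC

/-! The prime two: abelian defect groups of rank at most three; Theorem C for every prime. -/

set_option autoImplicit false

namespace Pool.Agent.KBD

open Pool.Agent.KB Pool.Agent.KB.ContrAux Pool.Agent.KBL Pool.Agent.KBZ Pool.Agent.KBU
  Pool.Agent.KBQ

/-- An automorphism of odd order of an abelian `2`-group of rank at most three which is not the identity
and fixes an element `u ≠ 1` of maximal order: the fixed points are the powers of `u`, and no other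
element is fixed modulo `⟨u⟩`. -/
theorem Two_lin {A : Type} [CommGroup A] [Finite A] (hA : IsPGroup 2 A)
    (hr : Nat.card {x : A // x ^ 2 = 1} ≤ 2 ^ 3) (φ : A →* A) {N : ℕ} (hN : ¬ 2 ∣ N)
    (hφ : ∀ x, φ^[N] x = x) (u : A) (hφu : φ u = u)
    (hmax : ∀ x : A, orderOf x ∣ orderOf u) {w : A} (hw : φ w ≠ w) (v : A)
    (hv : φ v * v⁻¹ ∈ Subgroup.zpowers u) : v ∈ Subgroup.zpowers u := by
  classical
  have hp : Nat.Prime 2 := Nat.prime_two
  have hpf : Fact (Nat.Prime 2) := ⟨hp⟩
  set β : A →* A := φ * (MonoidHom.id A)⁻¹ with hβ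
  have hβa : ∀ x, β x = φ x * x⁻¹ := fun x => by simp [hβ]
  have hker : ∀ x, x ∈ β.ker ↔ φ x = x := by
    intro x
    rw [MonoidHom.mem_ker, hβa, mul_inv_eq_one]
  set tr : A → A := fun x => ∏ i ∈ Finset.range N, φ^[i] x with htr
  have hit : ∀ i x, φ^[i] (φ x) = φ^[i + 1] x := fun i x => (Function.iterate_succ_apply _ _ _).symm
  have htrφ : ∀ x, ∏ i ∈ Finset.range N, φ^[i + 1] x = tr x := by
    intro x
    have h1 := Finset.prod_range_succ (fun i => φ^[i] x) N
    have h2 := Finset.prod_range_succ' (fun i => φ^[i] x) N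
    rw [h1, hφ] at h2
    simp only [Function.iterate_zero, id_eq] at h2
    exact (mul_right_cancel h2).symm
  have htr1 : ∀ x, tr (φ x) = tr x := by
    intro x
    rw [← htrφ x]
    exact Finset.prod_congr rfl fun i _ => hit i x
  have hitm : ∀ i x y, φ^[i] (x * y) = φ^[i] x * φ^[i] y := by
    intro i
    induction i with
    | zero => intro x y; rfl
    | succ i ih => intro x y; simp only [Function.iterate_succ_apply', ih, map_mul]
  have htrm : ∀ x y, tr (x * y) = tr x * tr y := by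
    intro x y
    simp only [htr]
    rw [← Finset.prod_mul_distrib]
    exact Finset.prod_congr rfl fun i _ => hitm i x y
  have htr3 : ∀ x, tr (φ x * x⁻¹) = 1 := by
    intro x
    have h1 : tr (φ x * x⁻¹) * tr x = tr (φ x) := by rw [← htrm]; group
    rw [htr1] at h1
    exact mul_eq_right.1 h1
  have htr4 : ∀ x, φ x = x → tr x = x ^ N := by
    intro x hx
    have : ∀ i, φ^[i] x = x := fun i => Function.iterate_fixed hx i
    simp [htr, this]
  have hdis : ∀ y, φ y = y → y ∈ β.range → y = 1 := by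
    rintro y hy ⟨x, rfl⟩
    apply Frg_pow 2 hp hA hN
    rw [← htr4 _ hy, hβa]
    exact htr3 x
  have hBφ : ∀ y ∈ β.range, φ y ∈ β.range := by
    rintro _ ⟨x, rfl⟩
    refine ⟨φ x, ?_⟩
    rw [hβa, hβa, map_mul, map_inv]
  -- four elements of `β.range` with square one
  have hB4 : 4 ≤ Nat.card {x : β.range // x ^ 2 = 1} := by
    have hnt : Nontrivial β.range := ⟨⟨β w, ⟨w, rfl⟩⟩, 1, fun h => hw ((hker w).1
      (MonoidHom.mem_ker.2 (congrArg Subtype.val h)))⟩
    have hS : IsPGroup 2 β.range := hA.to_subgroup _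
    have hd : 2 ∣ Nat.card β.range := by
      obtain ⟨m, hm⟩ := IsPGroup.iff_card.1 hS
      rcases Nat.eq_zero_or_pos m with h0 | h0
      · rw [h0, pow_zero] at hm
        exact absurd hm (Finite.one_lt_card_iff_nontrivial.2 hnt).ne'
      · exact hm ▸ dvd_pow_self 2 h0.ne'
    obtain ⟨s, hs⟩ := exists_prime_orderOf_dvd_card' 2 hd
    have hs2 : s ^ 2 = 1 := by rw [← hs, pow_orderOf_eq_one]
    have hs1 : s ≠ 1 := by
      intro h
      rw [h, orderOf_one] at hs
      omega
    obtain ⟨t, ht⟩ : ∃ t : β.range, t = ⟨φ s, hBφ _ s.2⟩ := ⟨_, rfl⟩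
    have ht2 : t ^ 2 = 1 := by
      rw [ht]
      apply Subtype.ext
      rw [Subgroup.coe_pow]
      simp only
      rw [← map_pow, ← Subgroup.coe_pow, hs2]
      simp
    have hts : t ≠ s := by
      intro h
      have h1 : φ (s : A) = s := by
        have := congrArg Subtype.val h
        rwa [ht] at this
      exact hs1 (Subtype.ext (hdis _ h1 s.2))
    have ht1 : t ≠ 1 := by
      intro h
      have h1 : φ (s : A) = 1 := by
        have := congrArg Subtype.val h
        rwa [ht] at this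
      have h2 : (s : A) = 1 := by
        have h3 := hφ (s : A)
        have h4 : ∀ i, φ^[i + 1] (s : A) = 1 := by
          intro i
          induction i with
          | zero => exact h1
          | succ i ih => rw [Function.iterate_succ_apply', ih, map_one]
        have hN0 : N ≠ 0 := fun h0 => hN (h0 ▸ dvd_zero 2)
        obtain ⟨k, rfl⟩ := Nat.exists_eq_succ_of_ne_zero hN0
        rw [h4 k] at h3
        exact h3.symm
      exact hs1 (Subtype.ext h2)
    have hst2 : (s * t) ^ 2 = 1 := by rw [mul_pow, hs2, ht2, one_mul]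
    let F : Fin 4 → {x : β.range // x ^ 2 = 1} :=
      ![⟨1, one_pow 2⟩, ⟨s, hs2⟩, ⟨t, ht2⟩, ⟨s * t, hst2⟩]
    have hF : Function.Injective F := by
      have hss : s * s = 1 := by rw [← pow_two, hs2]
      have h01 : (1 : β.range) ≠ s := fun h => hs1 h.symm
      have h02 : (1 : β.range) ≠ t := fun h => ht1 h.symm
      have h03 : (1 : β.range) ≠ s * t := by
        intro h
        apply hts
        have : s * t = s * s := by rw [← h, hss]
        exact mul_left_cancel this
      have h12 : s ≠ t := fun h => hts h.symm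
      have h13 : s ≠ s * t := by
        intro h
        exact ht1 (mul_left_cancel (a := s) (by rw [mul_one]; exact h.symm))
      have h23 : t ≠ s * t := by
        intro h
        exact hs1 (mul_right_cancel (b := t) (by rw [one_mul]; exact h.symm))
      intro i j hij
      have hij' := congrArg Subtype.val hij
      fin_cases i <;> fin_cases j <;> first | rfl | (exfalso; first
        | exact h01 hij' | exact h02 hij' | exact h03 hij' | exact h12 hij' | exact h13 hij'
        | exact h23 hij' | exact h01 hij'.symm | exact h02 hij'.symm | exact h03 hij'.symm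
        | exact h12 hij'.symm | exact h13 hij'.symm | exact h23 hij'.symm)
    have := Nat.card_le_card_of_injective F hF
    simpa using this
  have hprod : Nat.card {x : β.ker // x ^ 2 = 1} * Nat.card {x : β.range // x ^ 2 = 1}
      ≤ 2 ^ 3 := by
    rw [← Nat.card_prod]
    refine le_trans (Nat.card_le_card_of_injective
      (fun u : {x : β.ker // x ^ 2 = 1} × {x : β.range // x ^ 2 = 1} =>
        (⟨(u.1.1 : A) * (u.2.1 : A), ?_⟩ : {x : A // x ^ 2 = 1})) ?_) hr
    · have h1 : ((u.1.1 : A)) ^ 2 = 1 := by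
        have := u.1.2
        rw [Subtype.ext_iff] at this
        simpa using this
      have h2 : ((u.2.1 : A)) ^ 2 = 1 := by
        have := u.2.2
        rw [Subtype.ext_iff] at this
        simpa using this
      rw [mul_pow, h1, h2, one_mul]
    · rintro ⟨a, b⟩ ⟨a', b'⟩ h
      have h' : (a.1 : A) * (b.1 : A) = (a'.1 : A) * (b'.1 : A) := congrArg Subtype.val h
      have h3 : ((a'.1 : A))⁻¹ * (a.1 : A) = (b'.1 : A) * ((b.1 : A))⁻¹ := by
        rw [eq_mul_inv_iff_mul_eq, mul_assoc, h']; group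
      have h4 : ((a'.1 : A))⁻¹ * (a.1 : A) = 1 := by
        apply hdis
        · exact (hker _).1 (mul_mem (inv_mem a'.1.2) a.1.2)
        · rw [h3]
          exact mul_mem b'.1.2 (inv_mem b.1.2)
      have h5 : (a.1 : A) = (a'.1 : A) := (inv_mul_eq_one.1 h4).symm
      have h6 : (b.1 : A) = (b'.1 : A) := by
        rw [h5] at h'
        exact mul_left_cancel h'
      exact Prod.ext (Subtype.ext (Subtype.ext h5)) (Subtype.ext (Subtype.ext h6))
  have hA2 : Nat.card {x : β.ker // x ^ 2 = 1} ≤ 2 := by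
    by_contra hc
    have := Nat.mul_le_mul (Nat.succ_le_of_lt (not_le.1 hc)) hB4
    omega
  have hAc : IsCyclic β.ker := Frg_cyclic 2 hp (hA.to_subgroup _) hA2
  obtain ⟨g, hg⟩ := hAc.exists_generator
  have huk : u ∈ β.ker := (hker u).2 hφu
  have hkz : β.ker ≤ Subgroup.zpowers u := by
    have h1 : Subgroup.zpowers u ≤ β.ker := Subgroup.zpowers_le.2 huk
    have h2 : Nat.card β.ker ≤ Nat.card (Subgroup.zpowers u) := by
      have h3 : Nat.card β.ker = orderOf g := (orderOf_eq_card_of_forall_mem_zpowers hg).symm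
      rw [h3, Nat.card_zpowers, ← Subgroup.orderOf_coe]
      exact Nat.le_of_dvd (orderOf_pos u) (hmax _)
    exact (Subgroup.eq_of_le_of_card_ge h1 h2).ge
  apply hkz
  rw [hker]
  have h1 : φ v * v⁻¹ = 1 := by
    apply hdis
    · exact (hker _).1 ((Subgroup.zpowers_le.2 huk) hv)
    · exact ⟨v, hβa v⟩
  exact mul_inv_eq_one.1 h1

/-- **The prime two**, abelian defect groups of rank at most three. -/
theorem Two_main {G H : Type} [Group G] [Fintype G] [Group H] [Fintype H]
    (𝔪 : Ideal AInt) (h𝔪 : 𝔪.IsMaximal) (hp𝔪 : ((2 : ℕ) : AInt) ∈ 𝔪) (χ₀ : G → ℂ)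
    (hχ₀ : χ₀ ∈ Irr G) (D : Subgroup G) (ι : H →* G) (ζ : H → ℂ) (hD : DefP 2 𝔪 χ₀ D ι ζ)
    (hab : ∀ a ∈ D, ∀ b ∈ D, a * b = b * a) (hr : Nat.card {x : D // x ^ 2 = 1} ≤ 2 ^ 3) :
    (block 𝔪 χ₀).ncard ≤ 2 ^ defect 2 (block 𝔪 χ₀) := by
  classical
  have hp : Nat.Prime 2 := Nat.prime_two
  let _ : CommGroup D := { (inferInstance : Group D) with
    mul_comm := fun a b => Subtype.ext (hab _ a.2 _ b.2) }
  obtain ⟨u', hu'⟩ := Monoid.exists_orderOf_eq_exponent (G := D)
    (Monoid.ExponentExists.of_finite)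
  have hmax : ∀ x : D, orderOf x ∣ orderOf u' := fun x => hu' ▸ Monoid.order_dvd_exponent x
  obtain ⟨u, hu, rfl⟩ : ∃ (u : G) (hu : u ∈ D), (⟨u, hu⟩ : D) = u' := ⟨u'.1, u'.2, rfl⟩
  by_cases hu1 : u = 1
  · -- `D` is trivial
    have h0 : D = ⊥ := by
      rw [eq_bot_iff]
      intro x hx
      have h1 := hmax ⟨x, hx⟩
      have h2 : (⟨u, hu⟩ : D) = 1 := Subtype.ext hu1
      rw [h2, orderOf_one, Nat.dvd_one, orderOf_eq_one_iff] at h1
      exact congrArg Subtype.val h1
    have h1 := hD.card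
    rw [h0, Subgroup.card_bot] at h1
    have h2 : defect 2 (block 𝔪 χ₀) = 0 := by
      by_contra h3
      have h4 := Nat.one_lt_pow h3 hp.one_lt
      omega
    exact FinA_small 2 hp 𝔪 h𝔪 hp𝔪 χ₀ hχ₀ (by omega)
  · refine Fin_core 2 hp 𝔪 h𝔪 hp𝔪 χ₀ hχ₀ D ι ζ hD u hu hu1 (fun a ha => hab a ha u hu) ?_ ?_
    · intro a ha b hb
      have h1 : a * b * a⁻¹ * b⁻¹ = 1 := by rw [hab a ha b hb]; group
      rw [h1]
      exact one_mem _
    · intro n hn hnu hn2 v hv hvu hnv x hx
      by_contra hc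
      apply hvu
      set φ : D →* D :=
        { toFun := fun x => ⟨n * x.1 * n⁻¹, (hn _).1 x.2⟩
          map_one' := Subtype.ext (by simp)
          map_mul' := fun x y => Subtype.ext (by simp) } with hφdef
      have hφa : ∀ x, ((φ x : D) : G) = n * x.1 * n⁻¹ := fun x => rfl
      have hit : ∀ (i : ℕ) (x : D), ((φ^[i] x : D) : G) = n ^ i * x.1 * (n ^ i)⁻¹ := by
        intro i
        induction i with
        | zero => intro x; simp
        | succ i ih =>
          intro x
          rw [Function.iterate_succ_apply', hφa, ih, pow_succ']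
          group
      have hzc : ∀ y : D, (y : G) ∈ Subgroup.zpowers u ↔ y ∈ Subgroup.zpowers (⟨u, hu⟩ : D) := by
        intro y
        rw [Subgroup.mem_zpowers_iff, Subgroup.mem_zpowers_iff]
        constructor
        · rintro ⟨k, hk⟩
          exact ⟨k, Subtype.ext (by rw [Subgroup.coe_zpow]; exact hk)⟩
        · rintro ⟨k, hk⟩
          exact ⟨k, by rw [← hk, Subgroup.coe_zpow]⟩
      have h1 := Two_lin (A := D) hD.pg hr φ (N := orderOf n) hn2 (fun y => by
          apply Subtype.ext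
          rw [hit, pow_orderOf_eq_one]
          group) ⟨u, hu⟩ (Subtype.ext (by
            rw [hφa]
            simp only
            rw [hnu]
            group)) hmax (w := ⟨x, hx⟩) (by
          intro h
          apply hc
          have h2 := congrArg Subtype.val h
          rw [hφa] at h2
          simp only at h2
          rw [h2, mul_inv_cancel]
          exact one_mem _) ⟨v, hv⟩ (by
          rw [← hzc, Subgroup.coe_mul, Subgroup.coe_inv, hφa]
          exact hnv)
      exact (hzc _).2 h1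

/-- **Theorem C** for every prime: `D = ⟨u, a, b⟩` with `u` central in `D` and `[a, b] ∈ ⟨u⟩`. -/
theorem Thc_all {G H : Type} [Group G] [Fintype G] [Group H] [Fintype H] (p : ℕ) (hp : p.Prime)
    (𝔪 : Ideal AInt) (h𝔪 : 𝔪.IsMaximal) (hp𝔪 : (p : AInt) ∈ 𝔪) (χ₀ : G → ℂ) (hχ₀ : χ₀ ∈ Irr G)
    (D : Subgroup G) (ι : H →* G) (ζ : H → ℂ) (hD : DefP p 𝔪 χ₀ D ι ζ) (u a b : G)
    (hgen : D = Subgroup.closure {u, a, b}) (hau : a * u = u * a) (hbu : b * u = u * b)
    (hab : a * b * a⁻¹ * b⁻¹ ∈ Subgroup.zpowers u) :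
    (block 𝔪 χ₀).ncard ≤ p ^ defect p (block 𝔪 χ₀) := by
  classical
  by_cases h : p ≠ 2 ∨ ∃ x ∈ D, ∃ y ∈ D, x * y ≠ y * x
  · exact ThC_main p hp 𝔪 h𝔪 hp𝔪 χ₀ hχ₀ D ι ζ hD u a b hgen hau hbu hab h
  · push Not at h
    obtain ⟨h2, hcom⟩ := h
    subst h2
    have h1 := Fin_gen 2 hp.pos D hcom {u, a, b} (by
      rw [hgen]
      congr 1
      simp)
    exact Two_main 𝔪 h𝔪 hp𝔪 χ₀ hχ₀ D ι ζ hD hcom
      (h1.trans (Nat.pow_le_pow_right (by norm_num) Finset.card_le_three))

/-- Abelian defect groups of rank at most three, every prime. -/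
theorem Adb_three (p : ℕ) (hp : p.Prime) (𝔪 : Ideal AInt) (h𝔪 : 𝔪.IsMaximal)
    (hp𝔪 : (p : AInt) ∈ 𝔪) : Pool.Agent.KBY.ADB p 𝔪 3 1 := by
  intro G' H' _ _ _ _ χ' D' ι' ζ' hχ' hA' hr'
  rw [one_mul, hA'.card]
  by_cases hp2 : p = 2
  · subst hp2
    exact Two_main 𝔪 h𝔪 hp𝔪 χ' hχ' D' ι' ζ' ⟨hA'.pg, hA'.card, hA'.cen, hA'.irr, hA'.ind⟩
      hA'.com hr'
  · exact (Pool.Agent.KBR.Fin3_main p hp hp2 𝔪 h𝔪 hp𝔪 χ' hχ' D' ι' ζ' hA' hr').2

end Pool.Agent.KBD
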